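import Pool.Agent.Work.MP_cd2e96_co.Gadget

/-!
# Passing to a connected component
-/

namespace Pool.Agent.Work.MP_cd2e96_co

open Polynomial Finset

variable {V : Type} (G : SimpleGraph V)

/-- colourings of `G` are families of colourings of the components -/
noncomputable def compEquiv (α : Type) :
    G.Coloring α ≃ ∀ C : G.ConnectedComponent, C.toSimpleGraph.Coloring α where
  toFun c C := SimpleGraph.Coloring.mk (fun v => c v.1) fun {u v} h => c.valid h
  invFun f := SimpleGraph.Coloring.mk
    (fun v => f (G.connectedComponentMk v) ⟨v, rfl⟩) fun {u v} h => by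
      have key : ∀ (C : G.ConnectedComponent) (x : V) (hx : G.connectedComponentMk x = C),
          f (G.connectedComponentMk x) ⟨x, rfl⟩ = f C ⟨x, hx⟩ := by
        intro C x hx
        subst hx
        rfl
      have hv : G.connectedComponentMk v = G.connectedComponentMk u :=
        (SimpleGraph.ConnectedComponent.connectedComponentMk_eq_of_adj h).symm
      rw [key _ v hv]
      exact (f (G.connectedComponentMk u)).valid (v := ⟨u, rfl⟩) (w := ⟨v, hv⟩) h
  left_inv c := by
    ext v
    rfl
  right_inv f := by
    funext C
    ext ⟨v, hv⟩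
    have key : ∀ (C : G.ConnectedComponent) (x : V) (hx : G.connectedComponentMk x = C),
        f (G.connectedComponentMk x) ⟨x, rfl⟩ = f C ⟨x, hx⟩ := by
      intro C x hx
      subst hx
      rfl
    exact key C v hv

theorem component_root [Fintype V] {z : ℂ} (h : IsChromaticRoot G z) :
    ∃ C : G.ConnectedComponent, IsChromaticRoot C.toSimpleGraph z := by
  classical
  obtain ⟨p, hp, hz⟩ := h
  have hex := fun C : G.ConnectedComponent => exists_chromatic C.toSimpleGraph
  choose q hq _ _ using hex
  have key : p = ∏ C : G.ConnectedComponent, q C := by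
    apply poly_ext_pos
    intro l hl
    rw [hp l hl, eval_prod, Nat.card_congr (compEquiv G (Fin l)), Nat.card_pi]
    push_cast
    exact Finset.prod_congr rfl fun C _ => (hq C l).symm
  rw [key, map_prod, Finset.prod_eq_zero_iff] at hz
  obtain ⟨C, _, hC⟩ := hz
  exact ⟨C, q C, fun l _ => hq C l, hC⟩

lemma component_cubic (h : IsCubic G) (C : G.ConnectedComponent) : IsCubic C.toSimpleGraph := by
  rintro ⟨v, hv⟩
  rw [← h v]
  have h1 : G.neighborSet v = Subtype.val '' (C.toSimpleGraph.neighborSet ⟨v, hv⟩) := by
    ext w
    simp only [SimpleGraph.mem_neighborSet, Set.mem_image, Subtype.exists, exists_and_right,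
      exists_eq_right]
    constructor
    · intro hw
      have hwC : w ∈ C.supp := by
        have hv' : v ∈ C.supp := hv
        rw [SimpleGraph.ConnectedComponent.mem_supp_iff] at hv' ⊢
        rw [← hv']
        exact (SimpleGraph.ConnectedComponent.connectedComponentMk_eq_of_adj hw).symm
      exact ⟨hwC, hw⟩
    · rintro ⟨_, hw⟩
      exact hw
  rw [h1, Set.ncard_image_of_injective _ Subtype.val_injective]

lemma cubic_iso {W : Type} {H : SimpleGraph W} (e : G ≃g H) (h : IsCubic G) : IsCubic H := by
  intro w
  rw [← h (e.symm w)]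
  have h1 : H.neighborSet w = e '' (G.neighborSet (e.symm w)) := by
    ext x
    simp only [SimpleGraph.mem_neighborSet, Set.mem_image]
    constructor
    · intro hx
      refine ⟨e.symm x, e.symm.map_adj_iff.2 hx, by simp⟩
    · rintro ⟨y, hy, rfl⟩
      have := e.map_adj_iff.2 hy
      simpa using this
  rw [h1, Set.ncard_image_of_injective _ e.injective]

/-- From a root of a graph of maximum degree three to a root of a connected cubic graph. -/
theorem to_connected_cubic [Fintype V] (hdeg : ∀ v, (G.neighborSet v).ncard ≤ 3) {z : ℂ}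
    (hz0 : z ≠ 0) (h : IsChromaticRoot G z) :
    ∃ (n : ℕ) (H : SimpleGraph (Fin n)), H.Connected ∧ IsCubic H ∧ IsChromaticRoot H z := by
  classical
  have h1 := compl3_root G hz0 h
  have h2 := compl3_cubic G hdeg
  obtain ⟨C, hC⟩ := component_root (compl3 G) h1
  have h3 := component_cubic (compl3 G) h2 C
  let e := C.toSimpleGraph.overFinIso rfl
  refine ⟨_, C.toSimpleGraph.overFin rfl, ?_, cubic_iso _ e h3, hC.iso e⟩
  rw [← e.connected_iff]
  exact C.connected_toSimpleGraph

end Pool.Agent.Work.MP_cd2e96_co
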