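import Pool.Agent.Work.MP_cd2e96_co.Simple

/-!
# Chromatic roots of `K4` and `K33`
-/

namespace Pool.Agent.Work.MP_cd2e96_co

open Polynomial Finset

/-- colourings of `K4` -/
def k4Equiv (α : Type) : {σ : Fin 4 → α // ∀ u v, K4.Adj u v → σ u ≠ σ v} ≃ (Fin 4 ↪ α) where
  toFun σ := ⟨σ.1, fun u v h => by
    by_contra hne
    exact σ.2 u v hne h⟩
  invFun f := ⟨f, fun u v h h' => h (f.injective h')⟩
  left_inv σ := rfl
  right_inv f := rfl

lemma K4_poly : IsChromaticPolynomial K4 (descPochhammer ℤ 4) := by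
  intro l _
  rw [Nat.card_congr (colEquiv K4 (Fin l)), Nat.card_congr (k4Equiv (Fin l)),
    Nat.card_eq_fintype_card, Fintype.card_embedding_eq, Fintype.card_fin, Fintype.card_fin,
    descPochhammer_eval_eq_descFactorial]

lemma K4_roots {z : ℂ} (h : IsChromaticRoot K4 z) : z = 0 ∨ z = 1 ∨ z = 2 ∨ z = 3 := by
  obtain ⟨p, hp, hz⟩ := h
  rw [chromatic_unique hp K4_poly] at hz
  have h1 : descPochhammer ℤ 4 = X * (X - 1) * (X - 2) * (X - 3) := by
    apply poly_ext_pos
    intro k _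
    simp only [descPochhammer_succ_right, descPochhammer_zero, eval_mul, eval_sub, eval_X,
      eval_one, Nat.cast_zero, sub_zero, Nat.cast_one, Nat.cast_ofNat]
    simp
  rw [h1] at hz
  simp only [map_mul, map_sub, aeval_X, map_one, map_ofNat] at hz
  rcases mul_eq_zero.1 hz with h2 | h2
  · rcases mul_eq_zero.1 h2 with h3 | h3
    · rcases mul_eq_zero.1 h3 with h4 | h4
      · exact Or.inl h4
      · exact Or.inr (Or.inl (sub_eq_zero.1 h4))
    · exact Or.inr (Or.inr (Or.inl (sub_eq_zero.1 h3)))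
  · exact Or.inr (Or.inr (Or.inr (sub_eq_zero.1 h2)))

/-- colourings of `K33` -/
def k33Equiv (α : Type) : {σ : Fin 3 ⊕ Fin 3 → α // ∀ u v, K33.Adj u v → σ u ≠ σ v} ≃
    (Σ c : Fin 3 → α, Fin 3 → {x : α // ∀ i, x ≠ c i}) where
  toFun σ := ⟨fun i => σ.1 (Sum.inl i), fun j => ⟨σ.1 (Sum.inr j), fun i =>
    σ.2 _ _ (by simp [K33])⟩⟩
  invFun p := ⟨Sum.elim p.1 (fun j => (p.2 j).1), by
    rintro (i | i) (j | j) h
    · simp [K33] at h
    · exact ((p.2 j).2 i).symm
    · exact (p.2 i).2 j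
    · simp [K33] at h⟩
  left_inv σ := by
    apply Subtype.ext
    funext x
    rcases x with i | i
    · rfl
    · rfl
  right_inv p := rfl

lemma card_K33 (l : ℕ) : Nat.card (K33.Coloring (Fin l)) =
    ∑ c : Fin 3 → Fin l, #{x : Fin l | ∀ i, x ≠ c i} ^ 3 := by
  rw [Nat.card_congr (colEquiv K33 (Fin l)), Nat.card_congr (k33Equiv (Fin l)), Nat.card_sigma]
  refine Finset.sum_congr rfl fun c _ => ?_
  rw [Nat.card_fun, Nat.card_eq_fintype_card, Nat.card_eq_fintype_card, Fintype.card_fin,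
    Fintype.card_subtype]

lemma K33_1 : Nat.card (K33.Coloring (Fin 1)) = 0 := by rw [card_K33]; decide +kernel
lemma K33_2 : Nat.card (K33.Coloring (Fin 2)) = 2 := by rw [card_K33]; decide +kernel
lemma K33_3 : Nat.card (K33.Coloring (Fin 3)) = 42 := by rw [card_K33]; decide +kernel
lemma K33_4 : Nat.card (K33.Coloring (Fin 4)) = 420 := by rw [card_K33]; decide +kernel
lemma K33_5 : Nat.card (K33.Coloring (Fin 5)) = 2420 := by rw [card_K33]; decide +kernel
lemma K33_6 : Nat.card (K33.Coloring (Fin 6)) = 9750 := by rw [card_K33]; decide +kernel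

/-- the quartic factor -/
noncomputable def quart : ℤ[X] := X ^ 4 + (-8 * X ^ 3 + 28 * X ^ 2 - 47 * X + 31)

lemma quart_monic : quart.Monic ∧ quart.natDegree = 4 := by
  have h : (-8 * X ^ 3 + 28 * X ^ 2 - 47 * X + 31 : ℤ[X]).degree < (4 : ℕ) := by
    have : (-8 * X ^ 3 + 28 * X ^ 2 - 47 * X + 31 : ℤ[X]).degree ≤ 3 := by compute_degree
    exact lt_of_le_of_lt this (by decide)
  constructor
  · exact monic_X_pow_add h
  · unfold quart
    rw [natDegree_add_eq_left_of_degree_lt, natDegree_X_pow]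
    rw [degree_X_pow]
    exact h

lemma K33_poly {p : ℤ[X]} (hp : IsChromaticPolynomial K33 p) : p = X * (X - 1) * quart := by
  obtain ⟨p', hp', hmon, hdeg⟩ := exists_chromatic K33
  have hpp : p = p' := chromatic_unique hp fun l _ => hp' l
  subst hpp
  have hX1 : (X - 1 : ℤ[X]).Monic := by
    have := monic_X_sub_C (1 : ℤ)
    simpa using this
  have hmonF : (X * (X - 1) * quart : ℤ[X]).Monic := (monic_X.mul hX1).mul quart_monic.1
  have hdegF : (X * (X - 1) * quart : ℤ[X]).natDegree = 6 := by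
    rw [(monic_X.mul hX1).natDegree_mul quart_monic.1, monic_X.natDegree_mul hX1,
      quart_monic.2, natDegree_X]
    have : (X - 1 : ℤ[X]).natDegree = 1 := by
      have := natDegree_X_sub_C (1 : ℤ)
      simpa using this
    rw [this]
  have hdeg' : p.natDegree = 6 := by
    rw [hdeg]; rfl
  refine Polynomial.eq_of_degree_sub_lt_of_eval_finset_eq
    ({1, 2, 3, 4, 5, 6} : Finset ℤ) ?_ ?_
  · have h1 : p.degree = (X * (X - 1) * quart : ℤ[X]).degree := by
      rw [degree_eq_natDegree hmon.ne_zero, degree_eq_natDegree hmonF.ne_zero, hdeg', hdegF]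
    have h2 := degree_sub_lt_left h1 hmon.ne_zero (by
      rw [hmon.leadingCoeff, hmonF.leadingCoeff])
    rw [degree_eq_natDegree hmon.ne_zero, hdeg'] at h2
    exact h2
  · intro x hx
    have hF : ∀ y : ℤ, (X * (X - 1) * quart : ℤ[X]).eval y
        = y * (y - 1) * (y ^ 4 + (-8 * y ^ 3 + 28 * y ^ 2 - 47 * y + 31)) := by
      intro y
      unfold quart
      simp
    rw [hF]
    simp only [mem_insert, mem_singleton] at hx
    rcases hx with rfl | rfl | rfl | rfl | rfl | rfl
    · have := hp' 1; rw [K33_1] at this; norm_num at this ⊢; exact this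
    · have := hp' 2; rw [K33_2] at this; norm_num at this ⊢; exact this
    · have := hp' 3; rw [K33_3] at this; norm_num at this ⊢; exact this
    · have := hp' 4; rw [K33_4] at this; norm_num at this ⊢; exact this
    · have := hp' 5; rw [K33_5] at this; norm_num at this ⊢; exact this
    · have := hp' 6; rw [K33_6] at this; norm_num at this ⊢; exact this

lemma real_bound {a b : ℝ}
    (h1 : a ^ 4 - 6 * a ^ 2 * b ^ 2 + b ^ 4 + 4 * (a ^ 2 - b ^ 2) + a + 1 = 0)
    (h2 : b * (4 * a ^ 3 - 4 * a * b ^ 2 + 8 * a + 1) = 0) : (a + 2) ^ 2 + b ^ 2 < 841 / 100 := by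
  have hb : b ≠ 0 := by
    rintro rfl
    nlinarith [sq_nonneg (a / 2 + 1), sq_nonneg (a ^ 2), sq_nonneg a]
  have h3 : 4 * a ^ 3 - 4 * a * b ^ 2 + 8 * a + 1 = 0 := by
    rcases mul_eq_zero.1 h2 with h | h
    · exact absurd h hb
    · exact h
  have h4 : 64 * a ^ 6 + 128 * a ^ 4 + 48 * a ^ 2 - 1 = 0 := by
    linear_combination (-(16 * a ^ 2)) * h1 - (4 * a * b ^ 2 - 20 * a ^ 3 - 8 * a + 1) * h3
  have h5 : a ^ 2 ≤ 1 / 48 := by nlinarith [sq_nonneg (a ^ 2), sq_nonneg (a ^ 3)]
  set t := b ^ 2 - a ^ 2 - 2 with ht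
  have h6 : 4 * a * t = 1 := by rw [ht]; linear_combination -h3
  have h7 : (a + 2) ^ 2 + b ^ 2 = 2 * a ^ 2 + 4 * a + 6 + t := by rw [ht]; ring
  rw [h7]
  rcases lt_trichotomy a 0 with ha | ha | ha
  · have ht0 : t < 0 := by
      by_contra hcon
      push Not at hcon
      nlinarith
    linarith
  · rw [ha] at h6
    norm_num at h6
  · have h8 : a ≤ 1444 / 10000 := by
      by_contra hcon
      push Not at hcon
      nlinarith
    have h9 : 1 ≤ (48 + 2.67 + 0.028) * a ^ 2 := by
      have h10 : a ^ 4 ≤ a ^ 2 * (1 / 48) := by nlinarith [sq_nonneg a]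
      have h11 : a ^ 6 ≤ a ^ 2 * (1 / 2304) := by
        have : a ^ 6 = a ^ 4 * a ^ 2 := by ring
        rw [this]
        nlinarith [sq_nonneg a, sq_nonneg (a ^ 2)]
      nlinarith
    have h12 : 1404 / 10000 ≤ a := by
      by_contra hcon
      push Not at hcon
      nlinarith
    have h13 : t ≤ 17807 / 10000 := by
      by_contra hcon
      push Not at hcon
      nlinarith
    linarith

lemma K33_roots {z : ℂ} (h : IsChromaticRoot K33 z) : ‖z‖ < 29 / 10 := by
  obtain ⟨p, hp, hz⟩ := h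
  rw [K33_poly hp] at hz
  simp only [map_mul, map_sub, aeval_X, map_one] at hz
  rcases mul_eq_zero.1 hz with h2 | h2
  · rcases mul_eq_zero.1 h2 with h3 | h3
    · rw [h3]; norm_num
    · rw [sub_eq_zero.1 h3]; norm_num
  · have h4 : z ^ 4 + (-8 * z ^ 3 + 28 * z ^ 2 - 47 * z + 31) = 0 := by
      unfold quart at h2
      simp only [map_add, map_sub, map_mul, map_pow, map_neg, aeval_X, map_ofNat] at h2
      exact h2
    obtain ⟨x, y⟩ := z
    have hre := congrArg Complex.re h4
    have him := congrArg Complex.im h4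
    simp only [pow_succ, pow_zero, one_mul, Complex.add_re, Complex.sub_re, Complex.mul_re,
      Complex.mul_im, Complex.neg_re, Complex.neg_im, Complex.add_im, Complex.sub_im,
      Complex.re_ofNat, Complex.im_ofNat, Complex.zero_re, Complex.zero_im] at hre him
    have h1 : (x - 2) ^ 4 - 6 * (x - 2) ^ 2 * y ^ 2 + y ^ 4 + 4 * ((x - 2) ^ 2 - y ^ 2) + (x - 2)
        + 1 = 0 := by
      linear_combination hre
    have h5 : y * (4 * (x - 2) ^ 3 - 4 * (x - 2) * y ^ 2 + 8 * (x - 2) + 1) = 0 := by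
      linear_combination him
    have h6 := real_bound h1 h5
    have h7 : x - 2 + 2 = x := by ring
    rw [h7] at h6
    have h8 : ‖(⟨x, y⟩ : ℂ)‖ ^ 2 < (29 / 10) ^ 2 := by
      rw [← Complex.normSq_eq_norm_sq, Complex.normSq_mk]
      nlinarith
    exact lt_of_pow_lt_pow_left₀ 2 (by norm_num) h8

lemma rho_K33_lt : rho K33 < 29 / 10 := by
  obtain ⟨⟨z, hz, h⟩, _⟩ := rho_isGreatest K33
  rw [h]
  exact K33_roots hz

end Pool.Agent.Work.MP_cd2e96_co
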