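import Pool.Agent.Work.MP_cd2e96_co.BigRoot
import Pool.Agent.Work.MP_cd2e96_co.Component
import Pool.Agent.Work.MP_cd2e96_co.Small

/-!
# Cubic graphs with chromatic roots of modulus close to three
-/

namespace Pool.Agent.Work.MP_cd2e96_co

open Polynomial Finset

variable {n : ℕ}

/-- the underlying simple graph of the multigraph -/
def G0 (π : Equiv.Perm (HE n)) : SimpleGraph (Fin n ⊕ Fin n) :=
  SimpleGraph.fromRel fun u v => ∃ e, lf e = u ∧ rt π e = v

lemma G0_chrom (π : Equiv.Perm (HE n)) : IsChromaticPolynomial (G0 π) (chromP lf (rt π)) := by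
  intro l _
  rw [chromP_eval, Nat.card_congr (colEquiv _ _)]
  congr 1
  refine Nat.card_congr (Equiv.subtypeEquivRight fun σ => ?_)
  constructor
  · intro h u v huv
    rw [G0, SimpleGraph.fromRel_adj] at huv
    rcases huv.2 with ⟨e, rfl, rfl⟩ | ⟨e, rfl, rfl⟩
    · exact h e
    · exact (h e).symm
  · intro h e
    apply h
    rw [G0, SimpleGraph.fromRel_adj]
    exact ⟨lf_ne_rt π e, Or.inl ⟨e, rfl, rfl⟩⟩

lemma G0_deg (π : Equiv.Perm (HE n)) (u : Fin n ⊕ Fin n) :
    ((G0 π).neighborSet u).ncard ≤ 3 := by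
  have h3 : ∀ f : Fin 3 → Fin n ⊕ Fin n, (f '' Set.univ).ncard ≤ 3 := by
    intro f
    refine (Set.ncard_image_le (Set.toFinite _)).trans ?_
    rw [Set.ncard_univ, Nat.card_eq_fintype_card, Fintype.card_fin]
  rcases u with v | w
  · refine (Set.ncard_le_ncard (t := (fun c : Fin 3 => rt π (v, c)) '' Set.univ) ?_
      (Set.toFinite _)).trans (h3 _)
    intro x hx
    rw [SimpleGraph.mem_neighborSet, G0, SimpleGraph.fromRel_adj] at hx
    rcases hx.2 with ⟨⟨v', c⟩, h1, rfl⟩ | ⟨e, _, h2⟩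
    · have : v' = v := Sum.inl_injective h1
      subst this
      exact ⟨c, Set.mem_univ _, rfl⟩
    · simp [rt] at h2
  · refine (Set.ncard_le_ncard (t := (fun c : Fin 3 => lf (π.symm (w, c))) '' Set.univ) ?_
      (Set.toFinite _)).trans (h3 _)
    intro x hx
    rw [SimpleGraph.mem_neighborSet, G0, SimpleGraph.fromRel_adj] at hx
    rcases hx.2 with ⟨e, h1, _⟩ | ⟨e, rfl, h2⟩
    · simp [lf] at h1
    · have h4 : (π e).1 = w := Sum.inr_injective h2
      refine ⟨(π e).2, Set.mem_univ _, ?_⟩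
      simp only
      rw [← h4, Prod.mk.eta, Equiv.symm_apply_apply]

lemma not_three (π : Equiv.Perm (HE n)) : aeval (3 : ℂ) (chromP lf (rt π)) ≠ 0 := by
  intro h
  have h1 : aeval (3 : ℂ) (chromP lf (rt π)) = (((chromP lf (rt π)).eval ((3 : ℕ) : ℤ) : ℤ) : ℂ) := by
    rw [aeval_def, eval_eq_sum, eval₂_eq_sum, Polynomial.sum, Polynomial.sum]
    push_cast
    rfl
  rw [h1, chromP_eval] at h
  have h2 : Nat.card {σ : Fin n ⊕ Fin n → Fin 3 // ∀ f, σ (lf f) ≠ σ (rt π f)} = 0 := by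
    exact_mod_cast h
  rw [Nat.card_eq_zero] at h2
  rcases h2 with h2 | h2
  · apply h2.false
    exact ⟨Sum.elim (fun _ => 0) (fun _ => 1), fun f => by simp [lf, rt]⟩
  · exact h2.not_finite inferInstance

theorem main {R : ℝ} (hR : R < 3) : ∃ (m : ℕ) (G : SimpleGraph (Fin m)), G.Connected ∧
    IsCubic G ∧ ¬ Nonempty (G ≃g K4) ∧ ¬ Nonempty (G ≃g K33) ∧ R < rho G ∧
      rho K33 < rho G := by
  have hR' : max R (29 / 10) < 3 := max_lt hR (by norm_num)
  obtain ⟨n, _, π, z, hz, hzR⟩ := exists_big_root hR'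
  have hz29 : 29 / 10 < ‖z‖ := lt_of_le_of_lt (le_max_right _ _) hzR
  have hz0 : z ≠ 0 := by
    rintro rfl
    rw [norm_zero] at hz29
    norm_num at hz29
  have hroot : IsChromaticRoot (G0 π) z := ⟨_, G0_chrom π, hz⟩
  obtain ⟨m, H, hconn, hcub, hH⟩ := to_connected_cubic (G0 π) (G0_deg π) hz0 hroot
  refine ⟨m, H, hconn, hcub, ?_, ?_, ?_, ?_⟩
  · rintro ⟨e⟩
    rcases K4_roots (hH.iso e) with h | h | h | h
    · exact hz0 h
    · rw [h] at hz29; norm_num at hz29
    · rw [h] at hz29; norm_num at hz29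
    · rw [h] at hz
      exact not_three π hz
  · rintro ⟨e⟩
    exact absurd (K33_roots (hH.iso e)) (not_lt.2 hz29.le)
  · exact lt_of_le_of_lt (le_max_left _ _) (hzR.trans_le (le_rho hH))
  · exact rho_K33_lt.trans (hz29.trans_le (le_rho hH))

/-- The statement asked for in Q1: `K4` is the unique connected 3-regular graph with the largest
value of `ρ` and `K33` is the unique one with the second largest value. -/
def RoyleStatement : Prop :=
  ∀ (n : ℕ) (G : SimpleGraph (Fin n)), G.Connected → IsCubic G →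
    (¬ Nonempty (G ≃g K4) → rho G < rho K4) ∧
    (¬ Nonempty (G ≃g K4) → ¬ Nonempty (G ≃g K33) → rho G < rho K33)

theorem not_Royle : ¬ RoyleStatement := by
  intro h
  obtain ⟨m, G, hconn, hcub, h4, h33, _, hlt⟩ := main (R := 0) (by norm_num)
  exact absurd ((h m G hconn hcub).2 h4 h33) (not_lt.2 hlt.le)

end Pool.Agent.Work.MP_cd2e96_co
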