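import Pool.Agent.Work.MP_cd2e96_co.Coeff

/-!
# The analytic bootstrap

If `φ = exp g` on the disc `|x| < 1/R` with `R < 3`, if the coefficients of `g` are at most
`C0 * R ^ j` and the first `k` coefficients of `φ` are small on the scale `3 ^ i`, then the
`k`-th coefficient of `φ` is tiny on that scale.
-/

namespace Pool.Agent.Work.MP_cd2e96_co

open Filter Topology Metric Finset

/-- `(1 + 1/J)^j ≤ 3` for `j ≤ J`. -/
lemma one_add_inv_pow_le {J j : ℕ} (hJ : 1 ≤ J) (hj : j ≤ J) : (1 + 1 / (J : ℝ)) ^ j ≤ 3 := by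
  have hJ' : (0 : ℝ) < J := by exact_mod_cast hJ
  have h1 : (1 : ℝ) ≤ 1 + 1 / J := by
    have : 0 < 1 / (J : ℝ) := by positivity
    linarith
  calc (1 + 1 / (J : ℝ)) ^ j ≤ (1 + 1 / (J : ℝ)) ^ J := pow_le_pow_right₀ h1 hj
    _ ≤ (Real.exp (1 / J)) ^ J := by
        apply pow_le_pow_left₀ (by positivity)
        linarith [Real.add_one_le_exp (1 / (J : ℝ))]
    _ = Real.exp 1 := by
        rw [← Real.exp_nat_mul]
        congr 1
        field_simp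
    _ ≤ 3 := Real.exp_one_lt_three.le

structure Setup where
  R : ℝ
  θ : ℝ
  C0 : ℝ
  b : ℕ → ℂ
  ζ : ℕ → ℂ
  g : ℂ → ℂ
  φ : ℂ → ℂ
  J : ℕ
  k : ℕ
  U : ℝ
  hR1 : 1 ≤ R
  hJ : 1 ≤ J
  hθ0 : 0 < θ
  hθ1 : θ < 1
  hθ : R * ((1 / 3) * (1 + 1 / (J : ℝ))) ≤ θ
  hC0 : 0 ≤ C0
  hg : ∀ x : ℂ, ‖x‖ < 1 / R → HasSum (fun i => b i * x ^ i) (g x)
  hb0 : b 0 = 0
  hφ : ∀ x : ℂ, ‖x‖ < 1 / R → HasSum (fun i => ζ i * x ^ i) (φ x)
  hexp : ∀ x : ℂ, ‖x‖ < 1 / R → φ x = Complex.exp (g x)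
  hb : ∀ j, ‖b j‖ ≤ C0 * R ^ j
  htail : C0 * θ ^ (J + 1) / (1 - θ) ≤ 1
  hU1 : 1 ≤ U
  hU : ∑ i ∈ range (k + 1), ‖ζ i‖ * (1 / 3) ^ i ≤ U

namespace Setup

variable (S : Setup)

lemma Jpos : (0 : ℝ) < S.J := by exact_mod_cast S.hJ

lemma Rpos : 0 < S.R := lt_of_lt_of_le one_pos S.hR1

/-- the radius `s (1 + 1/J)` is admissible -/
lemma radius_ok {s : ℝ} (hs0 : 0 ≤ s) (hs : s ≤ 1 / 3) :
    S.R * (s * (1 + 1 / (S.J : ℝ))) ≤ S.θ := by
  refine le_trans ?_ S.hθ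
  have h := S.Jpos
  have h2 : 0 < S.R := S.Rpos
  gcongr

lemma radius_lt {s : ℝ} (hs0 : 0 ≤ s) (hs : s ≤ 1 / 3) :
    s * (1 + 1 / (S.J : ℝ)) < 1 / S.R := by
  rw [lt_div_iff₀ S.Rpos, mul_comm]
  exact lt_of_le_of_lt (S.radius_ok hs0 hs) S.hθ1

/-- Step 1 -/
lemma norm_g_le {s M : ℝ} (hs0 : 0 ≤ s) (hs : s ≤ 1 / 3) (hM0 : 0 ≤ M)
    (hM : ∀ j, 1 ≤ j → j ≤ S.J → ‖S.b j‖ * s ^ j ≤ M) (x : ℂ)
    (hx : ‖x‖ ≤ s * (1 + 1 / (S.J : ℝ))) : ‖S.g x‖ ≤ 3 * S.J * M + 1 := by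
  have hJ := S.Jpos
  have hxR : ‖x‖ < 1 / S.R := lt_of_le_of_lt hx (S.radius_lt hs0 hs)
  have hsum := S.hg x hxR
  -- domination
  have hdom : ∀ j, ‖S.b j * x ^ j‖ ≤ S.C0 * S.θ ^ j := by
    intro j
    rw [norm_mul, norm_pow]
    calc ‖S.b j‖ * ‖x‖ ^ j ≤ (S.C0 * S.R ^ j) * (s * (1 + 1 / (S.J : ℝ))) ^ j := by
          have := S.hb j
          have := S.hC0
          have := S.Rpos
          gcongr
      _ = S.C0 * (S.R * (s * (1 + 1 / (S.J : ℝ)))) ^ j := by rw [mul_assoc, ← mul_pow]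
      _ ≤ S.C0 * S.θ ^ j := by
          have h1 := S.radius_ok hs0 hs
          have h2 := S.hC0
          have h3 : 0 ≤ S.R * (s * (1 + 1 / (S.J : ℝ))) := by
            have := S.Rpos
            positivity
          gcongr
  have hgeo : Summable fun j => S.C0 * S.θ ^ j :=
    (summable_geometric_of_lt_one S.hθ0.le S.hθ1).mul_left _
  have hsumm : Summable fun j => ‖S.b j * x ^ j‖ :=
    Summable.of_nonneg_of_le (fun _ => norm_nonneg _) hdom hgeo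
  rw [← hsum.tsum_eq]
  refine (norm_tsum_le_tsum_norm hsumm).trans ?_
  rw [← hsumm.sum_add_tsum_nat_add (S.J + 1)]
  have h1 : ∑ j ∈ range (S.J + 1), ‖S.b j * x ^ j‖ ≤ 3 * S.J * M := by
    rw [Finset.sum_range_succ']
    simp only [S.hb0, zero_mul, norm_zero, add_zero]
    calc ∑ j ∈ range S.J, ‖S.b (j + 1) * x ^ (j + 1)‖
        ≤ ∑ j ∈ range S.J, 3 * M := by
          refine Finset.sum_le_sum fun j hj => ?_
          rw [Finset.mem_range] at hj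
          rw [norm_mul, norm_pow]
          have h3 := hM (j + 1) (by omega) (by omega)
          have h4 := one_add_inv_pow_le S.hJ (show j + 1 ≤ S.J by omega)
          calc ‖S.b (j + 1)‖ * ‖x‖ ^ (j + 1)
              ≤ ‖S.b (j + 1)‖ * (s * (1 + 1 / (S.J : ℝ))) ^ (j + 1) := by gcongr
            _ = (‖S.b (j + 1)‖ * s ^ (j + 1)) * (1 + 1 / (S.J : ℝ)) ^ (j + 1) := by
                rw [mul_pow]; ring
            _ ≤ M * 3 := by gcongr
            _ = 3 * M := by ring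
      _ = 3 * S.J * M := by
          rw [Finset.sum_const, Finset.card_range, nsmul_eq_mul]; ring
  have h2 : ∑' j, ‖S.b (j + (S.J + 1)) * x ^ (j + (S.J + 1))‖ ≤ 1 := by
    have hs1 : Summable fun j => ‖S.b (j + (S.J + 1)) * x ^ (j + (S.J + 1))‖ :=
      (summable_nat_add_iff (f := fun j => ‖S.b j * x ^ j‖) (S.J + 1)).2 hsumm
    have hs2 : Summable fun j => S.C0 * S.θ ^ (S.J + 1) * S.θ ^ j :=
      (summable_geometric_of_lt_one S.hθ0.le S.hθ1).mul_left _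
    calc ∑' j, ‖S.b (j + (S.J + 1)) * x ^ (j + (S.J + 1))‖
        ≤ ∑' j, S.C0 * S.θ ^ (S.J + 1) * S.θ ^ j := by
          refine hs1.tsum_le_tsum (fun j => ?_) hs2
          refine (hdom _).trans (le_of_eq ?_)
          rw [pow_add]; ring
      _ = S.C0 * S.θ ^ (S.J + 1) / (1 - S.θ) := by
          rw [tsum_mul_left, tsum_geometric_of_lt_one S.hθ0.le S.hθ1]; rfl
      _ ≤ 1 := S.htail
  linarith

/-- Step 2 -/
lemma coeff_φ_le {s M : ℝ} (hs0 : 0 < s) (hs : s ≤ 1 / 3) (hM0 : 0 ≤ M)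
    (hM : ∀ j, 1 ≤ j → j ≤ S.J → ‖S.b j‖ * s ^ j ≤ M) (i : ℕ) :
    ‖S.ζ i‖ * (s * (1 + 1 / (S.J : ℝ))) ^ i ≤ Real.exp (3 * S.J * M + 1) := by
  have hJ := S.Jpos
  refine coeff_bound (by positivity) (S.radius_lt hs0.le hs) S.hφ (fun x hx => ?_) i
  rw [S.hexp x (by rw [hx]; exact S.radius_lt hs0.le hs), Complex.norm_exp]
  apply Real.exp_le_exp.2
  exact (Complex.re_le_norm _).trans (S.norm_g_le hs0.le hs hM0 hM x hx.le)

/-- Step 3 -/
lemma norm_φ_le {s M : ℝ} (hs0 : 0 < s) (hs : s ≤ 1 / 3) (hM0 : 0 ≤ M)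
    (hM : ∀ j, 1 ≤ j → j ≤ S.J → ‖S.b j‖ * s ^ j ≤ M)
    (hc : Real.exp (3 * S.J * M + 1) * (S.J + 1) * ((S.J : ℝ) / (S.J + 1)) ^ (S.k + 1) ≤ 1)
    (x : ℂ) (hx : ‖x‖ ≤ s) : ‖S.φ x‖ ≤ S.U + 1 := by
  have hJ := S.Jpos
  have hfac : 0 < 1 + 1 / (S.J : ℝ) := by positivity
  have hxs : ‖x‖ ≤ s * (1 + 1 / (S.J : ℝ)) := by
    refine hx.trans ?_
    have : 0 < s * (1 / (S.J : ℝ)) := by positivity
    linarith
  have hxR : ‖x‖ < 1 / S.R := lt_of_le_of_lt hxs (S.radius_lt hs0.le hs)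
  have hsum := S.hφ x hxR
  set q : ℝ := (S.J : ℝ) / (S.J + 1) with hq
  have hq0 : 0 < q := by positivity
  have hq1 : q < 1 := by
    rw [hq, div_lt_one (by positivity)]; linarith
  have hqf : q * (1 + 1 / (S.J : ℝ)) = 1 := by
    rw [hq]; field_simp
  set E := Real.exp (3 * S.J * M + 1) with hE
  have hE0 : 0 < E := Real.exp_pos _
  have hterm : ∀ i, ‖S.ζ i * x ^ i‖ ≤ E * q ^ i := by
    intro i
    have h1 := S.coeff_φ_le hs0 hs hM0 hM i
    rw [norm_mul, norm_pow]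
    have h2 : ‖S.ζ i‖ * s ^ i ≤ E * q ^ i := by
      have h3 : ‖S.ζ i‖ * s ^ i = (‖S.ζ i‖ * (s * (1 + 1 / (S.J : ℝ))) ^ i) * q ^ i := by
        rw [mul_pow]
        have : (1 + 1 / (S.J : ℝ)) ^ i * q ^ i = 1 := by
          rw [← mul_pow, mul_comm, hqf, one_pow]
        calc ‖S.ζ i‖ * s ^ i = ‖S.ζ i‖ * s ^ i * ((1 + 1 / (S.J : ℝ)) ^ i * q ^ i) := by
              rw [this, mul_one]
          _ = _ := by ring
      rw [h3]
      gcongr
    calc ‖S.ζ i‖ * ‖x‖ ^ i ≤ ‖S.ζ i‖ * s ^ i := by gcongr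
      _ ≤ _ := h2
  have hgeo : Summable fun i => E * q ^ i := (summable_geometric_of_lt_one hq0.le hq1).mul_left _
  have hsumm : Summable fun i => ‖S.ζ i * x ^ i‖ :=
    Summable.of_nonneg_of_le (fun _ => norm_nonneg _) hterm hgeo
  rw [← hsum.tsum_eq]
  refine (norm_tsum_le_tsum_norm hsumm).trans ?_
  rw [← hsumm.sum_add_tsum_nat_add (S.k + 1)]
  have h1 : ∑ i ∈ range (S.k + 1), ‖S.ζ i * x ^ i‖ ≤ S.U := by
    refine le_trans (Finset.sum_le_sum fun i _ => ?_) S.hU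
    rw [norm_mul, norm_pow]
    gcongr
    exact hx.trans hs
  have h2 : ∑' i, ‖S.ζ (i + (S.k + 1)) * x ^ (i + (S.k + 1))‖ ≤ 1 := by
    have hs1 : Summable fun i => ‖S.ζ (i + (S.k + 1)) * x ^ (i + (S.k + 1))‖ :=
      (summable_nat_add_iff (f := fun i => ‖S.ζ i * x ^ i‖) (S.k + 1)).2 hsumm
    have hs2 : Summable fun i => E * q ^ (S.k + 1) * q ^ i :=
      (summable_geometric_of_lt_one hq0.le hq1).mul_left _
    calc ∑' i, ‖S.ζ (i + (S.k + 1)) * x ^ (i + (S.k + 1))‖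
        ≤ ∑' i, E * q ^ (S.k + 1) * q ^ i := by
          refine hs1.tsum_le_tsum (fun i => ?_) hs2
          refine (hterm _).trans (le_of_eq ?_)
          rw [pow_add]; ring
      _ = E * q ^ (S.k + 1) / (1 - q) := by
          rw [tsum_mul_left, tsum_geometric_of_lt_one hq0.le hq1]; rfl
      _ = E * (S.J + 1) * q ^ (S.k + 1) := by
          have : 1 - q = 1 / (S.J + 1) := by rw [hq]; field_simp; ring
          rw [this]; field_simp
      _ ≤ 1 := hc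
  linarith

/-- Step 4 -/
lemma coeff_b_le {s M : ℝ} (hs0 : 0 < s) (hs : s ≤ 1 / 3) (hM0 : 0 ≤ M)
    (hM : ∀ j, 1 ≤ j → j ≤ S.J → ‖S.b j‖ * s ^ j ≤ M)
    (hc : Real.exp (3 * S.J * M + 1) * (S.J + 1) * ((S.J : ℝ) / (S.J + 1)) ^ (S.k + 1) ≤ 1)
    (j : ℕ) (hj : j ≤ S.J) : ‖S.b j‖ * s ^ j ≤ 6 * S.J * Real.log (S.U + 1) := by
  have hJ := S.Jpos
  set Λ := Real.log (S.U + 1) with hΛ
  have hU := S.hU1
  have hΛ0 : 0 < Λ := Real.log_pos (by linarith)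
  have hsR : s < 1 / S.R := by
    refine lt_of_le_of_lt ?_ (S.radius_lt hs0.le hs)
    have : 0 < s * (1 / (S.J : ℝ)) := by positivity
    linarith
  have hball : ∀ x : ℂ, x ∈ ball (0 : ℂ) s → ‖x‖ < s := fun x hx => mem_ball_zero_iff.1 hx
  have hdiff : DifferentiableOn ℂ S.g (ball 0 s) := by
    have := differentiableOn_of_hasSum (by have := S.Rpos; positivity) S.hg
    refine this.mono fun x hx => ?_
    rw [mem_ball_zero_iff] at hx ⊢
    exact hx.trans hsR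
  have hmaps : Set.MapsTo S.g (ball 0 s) {z | z.re ≤ Λ} := by
    intro x hx
    have hx' := hball x hx
    have h1 := S.norm_φ_le hs0 hs hM0 hM hc x hx'.le
    rw [S.hexp x (hx'.trans hsR), Complex.norm_exp] at h1
    change (S.g x).re ≤ Λ
    rw [hΛ, Real.le_log_iff_exp_le (by linarith)]
    exact h1
  have hg0 : S.g 0 = 0 := by
    have h1 := S.hg 0 (by rw [norm_zero]; have := S.Rpos; positivity)
    have h2 : HasSum (fun i => S.b i * (0 : ℂ) ^ i) 0 := by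
      have : (fun i => S.b i * (0 : ℂ) ^ i) = fun _ => 0 := by
        funext i
        by_cases hi : i = 0
        · subst hi; simp [S.hb0]
        · simp [hi]
      rw [this]
      exact hasSum_zero
    exact h1.unique h2
  set r := s * ((S.J : ℝ) / (S.J + 1)) with hr
  have hr0 : 0 < r := by positivity
  have hrs : r < s := by
    rw [hr]
    have : (S.J : ℝ) / (S.J + 1) < 1 := by rw [div_lt_one (by positivity)]; linarith
    nlinarith
  have hbd : ∀ x : ℂ, ‖x‖ = r → ‖S.g x‖ ≤ 2 * Λ * S.J := by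
    intro x hx
    have h1 := Complex.borelCaratheodory_zero hΛ0 hdiff hmaps hs0
      (z := x) (by rw [mem_ball_zero_iff, hx]; exact hrs) hg0
    rw [hx] at h1
    refine h1.trans (le_of_eq ?_)
    rw [hr]
    have hne : s - s * ((S.J : ℝ) / (S.J + 1)) = s / (S.J + 1) := by field_simp; ring
    rw [hne]
    field_simp
  have h2 := coeff_bound hr0 (hrs.trans hsR) S.hg hbd j
  have h3 : ‖S.b j‖ * s ^ j = (‖S.b j‖ * r ^ j) * (1 + 1 / (S.J : ℝ)) ^ j := by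
    rw [mul_assoc, ← mul_pow]
    congr 2
    rw [hr]
    field_simp
  rw [h3]
  have h4 := one_add_inv_pow_le S.hJ hj
  calc (‖S.b j‖ * r ^ j) * (1 + 1 / (S.J : ℝ)) ^ j ≤ (2 * Λ * S.J) * 3 := by gcongr
    _ = 6 * S.J * Λ := by ring

/-- Step 5 and 6: the conclusion. -/
theorem conclusion {M1 : ℝ} (hM1 : 6 * S.J * Real.log (S.U + 1) < M1)
    (hc : Real.exp (3 * S.J * M1 + 1) * (S.J + 1) * ((S.J : ℝ) / (S.J + 1)) ^ (S.k + 1) ≤ 1) :
    ‖S.ζ S.k‖ * (1 / 3) ^ S.k ≤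
      Real.exp (18 * S.J ^ 2 * Real.log (S.U + 1) + 1) * ((S.J : ℝ) / (S.J + 1)) ^ S.k := by
  have hJ := S.Jpos
  have hU := S.hU1
  have hΛ0 : 0 < Real.log (S.U + 1) := Real.log_pos (by linarith)
  have hM1pos : 0 < M1 := lt_trans (by positivity) hM1
  have hne : (Finset.Icc 1 S.J).Nonempty := ⟨1, by simp [S.hJ]⟩
  let Mf : ℝ → ℝ := fun s => (Finset.Icc 1 S.J).sup' hne (fun j => ‖S.b j‖ * s ^ j)
  have hMfc : Continuous Mf := by
    apply Continuous.finset_sup'_apply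
    intro j _
    fun_prop
  have hMf0 : Mf 0 = 0 := by
    apply le_antisymm
    · apply Finset.sup'_le
      intro j hj
      rw [Finset.mem_Icc] at hj
      have : (0 : ℝ) ^ j = 0 := zero_pow (by omega)
      rw [this, mul_zero]
    · have h1 : (1 : ℕ) ∈ Finset.Icc 1 S.J := by simp [S.hJ]
      have := Finset.le_sup' (fun j => ‖S.b j‖ * (0 : ℝ) ^ j) h1
      refine le_trans ?_ this
      simp
  -- from the bound M1 at radius s we get the strong bound at s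
  have hboot : ∀ s : ℝ, 0 < s → s ≤ 1 / 3 → Mf s ≤ M1 →
      Mf s ≤ 6 * S.J * Real.log (S.U + 1) := by
    intro s hs0 hs hMs
    apply Finset.sup'_le
    intro j hj
    rw [Finset.mem_Icc] at hj
    refine S.coeff_b_le hs0 hs hM1pos.le (fun i hi1 hi2 => ?_) hc j hj.2
    refine le_trans ?_ hMs
    exact Finset.le_sup' (fun j => ‖S.b j‖ * s ^ j) (Finset.mem_Icc.2 ⟨hi1, hi2⟩)
  have hthird : Mf (1 / 3) ≤ M1 := by
    by_contra hcon
    push Not at hcon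
    have hivt := intermediate_value_Icc (a := (0 : ℝ)) (b := 1 / 3) (by norm_num)
      hMfc.continuousOn
    have hmem : M1 ∈ Set.Icc (Mf 0) (Mf (1 / 3)) := by
      rw [hMf0]; exact ⟨hM1pos.le, hcon.le⟩
    obtain ⟨s, hs, hsM⟩ := hivt hmem
    have hs0 : 0 < s := by
      rcases eq_or_lt_of_le hs.1 with h | h
      · rw [← h, hMf0] at hsM
        linarith
      · exact h
    have := hboot s hs0 hs.2 hsM.le
    rw [hsM] at this
    linarith
  have hfin := hboot (1 / 3) (by norm_num) le_rfl hthird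
  have hcoef := S.coeff_φ_le (s := 1 / 3) (M := 6 * S.J * Real.log (S.U + 1)) (by norm_num) le_rfl
    (by positivity) (fun j h1 h2 =>
      le_trans (Finset.le_sup' (fun j => ‖S.b j‖ * (1 / 3 : ℝ) ^ j) (Finset.mem_Icc.2 ⟨h1, h2⟩)) hfin)
    S.k
  have hq : ((S.J : ℝ) / (S.J + 1)) * (1 + 1 / (S.J : ℝ)) = 1 := by field_simp
  have h1 : ‖S.ζ S.k‖ * (1 / 3) ^ S.k
      = (‖S.ζ S.k‖ * (1 / 3 * (1 + 1 / (S.J : ℝ))) ^ S.k) * ((S.J : ℝ) / (S.J + 1)) ^ S.k := by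
    rw [mul_assoc, ← mul_pow]
    congr 2
    rw [mul_assoc, mul_comm (1 + 1 / (S.J : ℝ)), hq, mul_one]
  rw [h1]
  have h2 : 3 * S.J * (6 * S.J * Real.log (S.U + 1)) + 1
      = 18 * (S.J : ℝ) ^ 2 * Real.log (S.U + 1) + 1 := by ring
  rw [h2] at hcoef
  gcongr

end Setup

end Pool.Agent.Work.MP_cd2e96_co
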