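import Pool.Agent.Work.MP_cd2e96_co.Decomp

/-!
# Counting cycles in the random model
-/

namespace Pool.Agent.Work.MP_cd2e96_co

open Finset
open scoped Nat

variable {n m : ℕ}

/-- ordered pairs of distinct slots -/
abbrev OP : Type := {p : Fin 3 × Fin 3 // p.1 ≠ p.2}

/-- one side of an oriented rooted cycle through `m + 1` vertices of that side -/
abbrev LD (n m : ℕ) : Type := (Fin (m + 1) ↪ Fin n) × (Fin (m + 1) → OP)

/-- arrival half edge -/
def hA (L : LD n m) (j : Fin (m + 1)) : HE n := (L.1 j, (L.2 j).1.1)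
/-- departure half edge -/
def hD (L : LD n m) (j : Fin (m + 1)) : HE n := (L.1 j, (L.2 j).1.2)

def compat (π : Equiv.Perm (HE n)) (L R : LD n m) : Prop :=
  ∀ j, π (hD L j) = hA R j ∧ π (hA L (j + 1)) = hD R j

instance (π : Equiv.Perm (HE n)) (L R : LD n m) : Decidable (compat π L R) := by
  unfold compat; infer_instance

lemma card_LD : Fintype.card (LD n m) = n.descFactorial (m + 1) * 6 ^ (m + 1) := by
  rw [Fintype.card_prod, Fintype.card_embedding_eq, Fintype.card_fun, Fintype.card_fin,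
    Fintype.card_fin]
  rfl

lemma hA_inj (L : LD n m) {j j' : Fin (m + 1)} (h : (hA L j).1 = (hA L j').1) : j = j' :=
  L.1.injective h

lemma hA_ne_hD (L : LD n m) (j j' : Fin (m + 1)) : hA L j ≠ hD L j' := by
  intro h
  have h1 : j = j' := L.1.injective (congrArg Prod.fst h)
  subst h1
  exact (L.2 j).2 (congrArg Prod.snd h)

/-- extending partial matchings -/
lemma card_ext {α ι : Type} [Fintype α] [DecidableEq α] [Fintype ι] (x y : ι ↪ α) :
    (Fintype.card α - Fintype.card ι)! ≤ #{π : Equiv.Perm α | ∀ t, π (x t) = y t} := by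
  classical
  let e : {a // a ∈ Set.range x} ≃ {a // a ∈ Set.range y} :=
    (Equiv.ofInjective x x.injective).symm.trans (Equiv.ofInjective y y.injective)
  let σ₀ : Equiv.Perm α := e.extendSubtype
  have hσ : ∀ t, σ₀ (x t) = y t := by
    intro t
    have h1 := Equiv.extendSubtype_apply_of_mem e (x t) ⟨t, rfl⟩
    have h2 : e ⟨x t, ⟨t, rfl⟩⟩ = ⟨y t, ⟨t, rfl⟩⟩ := by
      have h3 : (Equiv.ofInjective x x.injective).symm ⟨x t, ⟨t, rfl⟩⟩ = t :=
        Equiv.ofInjective_symm_apply x.injective t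
      simp only [e, Equiv.trans_apply]
      rw [h3]
      rfl
    rw [h2] at h1
    exact h1
  have hcard : Fintype.card (Equiv.Perm {a // ¬ a ∈ Set.range x})
      = (Fintype.card α - Fintype.card ι)! := by
    rw [Fintype.card_perm, Fintype.card_subtype_compl]
    congr 2
    exact (Fintype.card_congr (Equiv.ofInjective x x.injective)).symm
  rw [← hcard, ← Finset.card_univ]
  refine Finset.card_le_card_of_injOn
    (fun ρ => (Equiv.Perm.ofSubtype ρ : Equiv.Perm α).trans σ₀) ?_ ?_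
  · intro ρ _
    simp only [mem_coe, mem_filter, mem_univ, true_and]
    intro t
    rw [Equiv.trans_apply, Equiv.Perm.ofSubtype_apply_of_not_mem ρ (by
      intro h; exact h ⟨t, rfl⟩)]
    exact hσ t
  · intro ρ _ ρ' _ h
    apply Equiv.Perm.ofSubtype_injective
    ext1 a
    have h4 := Equiv.congr_fun h a
    simp only [Equiv.trans_apply] at h4
    exact σ₀.injective h4

lemma card_compat (L R : LD n m) :
    (3 * n - 2 * (m + 1))! ≤ #{π : Equiv.Perm (HE n) | compat π L R} := by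
  let x : Fin (m + 1) ⊕ Fin (m + 1) ↪ HE n :=
    ⟨Sum.elim (fun j => hD L j) (fun j => hA L (j + 1)), by
      rintro (j | j) (j' | j') h
      · simp only [Sum.elim_inl] at h
        rw [L.1.injective (congrArg Prod.fst h)]
      · simp only [Sum.elim_inl, Sum.elim_inr] at h
        exact absurd h.symm (hA_ne_hD L _ _)
      · simp only [Sum.elim_inl, Sum.elim_inr] at h
        exact absurd h (hA_ne_hD L _ _)
      · simp only [Sum.elim_inr] at h
        have h1 : j + 1 = j' + 1 := L.1.injective (congrArg Prod.fst h)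
        rw [add_right_cancel h1]⟩
  let y : Fin (m + 1) ⊕ Fin (m + 1) ↪ HE n :=
    ⟨Sum.elim (fun j => hA R j) (fun j => hD R j), by
      rintro (j | j) (j' | j') h
      · simp only [Sum.elim_inl] at h
        rw [R.1.injective (congrArg Prod.fst h)]
      · simp only [Sum.elim_inl, Sum.elim_inr] at h
        exact absurd h (hA_ne_hD R _ _)
      · simp only [Sum.elim_inl, Sum.elim_inr] at h
        exact absurd h.symm (hA_ne_hD R _ _)
      · simp only [Sum.elim_inr] at h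
        rw [R.1.injective (congrArg Prod.fst h)]⟩
  have h := card_ext x y
  have h1 : Fintype.card (HE n) = 3 * n := by
    rw [Fintype.card_prod, Fintype.card_fin, Fintype.card_fin, mul_comm]
  have h2 : Fintype.card (Fin (m + 1) ⊕ Fin (m + 1)) = 2 * (m + 1) := by
    rw [Fintype.card_sum, Fintype.card_fin]; ring
  rw [h1, h2] at h
  refine h.trans (Finset.card_le_card ?_)
  intro π hπ
  rw [mem_filter] at hπ ⊢
  refine ⟨mem_univ _, fun j => ⟨?_, ?_⟩⟩
  · exact hπ.2 (Sum.inl j)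
  · exact hπ.2 (Sum.inr j)

lemma compat_unique {π : Equiv.Perm (HE n)} {L R L' R' : LD n m} (h : compat π L R)
    (h' : compat π L' R') (h0 : hA L 0 = hA L' 0)
    (hl : ∀ j, hA L j = hA L' j → hD L j = hD L' j)
    (hr : ∀ j, hA R j = hA R' j → hD R j = hD R' j) : L = L' ∧ R = R' := by
  have key : ∀ j, hA L j = hA L' j := by
    intro j
    induction j using Fin.induction with
    | zero => exact h0
    | succ j ih =>
      have h1 := hl _ ih
      have h2 : hA R j.castSucc = hA R' j.castSucc := by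
        rw [← (h _).1, ← (h' _).1, h1]
      have h3 := hr _ h2
      rw [← (h _).2, ← (h' _).2] at h3
      have h4 := π.injective h3
      rw [Fin.coeSucc_eq_succ] at h4
      exact h4
  have keyR : ∀ j, hA R j = hA R' j := by
    intro j
    rw [← (h _).1, ← (h' _).1, hl _ (key j)]
  have gen : ∀ {A B : LD n m}, (∀ j, hA A j = hA B j) → (∀ j, hD A j = hD B j) → A = B := by
    intro A B h1 h2
    apply Prod.ext
    · ext1 j
      exact congrArg Prod.fst (h1 j)
    · funext j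
      apply Subtype.ext
      have h3 : (A.2 j).1.1 = (B.2 j).1.1 := (Prod.ext_iff.1 (h1 j)).2
      have h4 : (A.2 j).1.2 = (B.2 j).1.2 := (Prod.ext_iff.1 (h2 j)).2
      exact Prod.ext h3 h4
  exact ⟨gen key fun j => hl _ (key j), gen keyR fun j => hr _ (keyR j)⟩

/-- compatible pairs -/
noncomputable def CP (π : Equiv.Perm (HE n)) (m : ℕ) : Finset (LD n m × LD n m) :=
  {p | compat π p.1 p.2}

/-- the edge set of a cycle -/
def EE (L : LD n m) : Finset (HE n) := univ.image (hA L) ∪ univ.image (hD L)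

/-- the cycles with `2 (m + 1)` edges -/
noncomputable def Cyc (π : Equiv.Perm (HE n)) (m : ℕ) : Finset (Finset (HE n)) := (CP π m).image fun p => EE p.1

lemma mem_EE {L : LD n m} {e : HE n} : e ∈ EE L ↔ ∃ j, e = hA L j ∨ e = hD L j := by
  unfold EE
  rw [mem_union, mem_image, mem_image]
  constructor
  · rintro (⟨j, _, rfl⟩ | ⟨j, _, rfl⟩)
    · exact ⟨j, Or.inl rfl⟩
    · exact ⟨j, Or.inr rfl⟩
  · rintro ⟨j, rfl | rfl⟩
    · exact Or.inl ⟨j, mem_univ _, rfl⟩
    · exact Or.inr ⟨j, mem_univ _, rfl⟩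

lemma card_CP_le (π : Equiv.Perm (HE n)) (m : ℕ) : #(CP π m) ≤ 3 * n * 4 ^ (m + 1) := by
  let key : LD n m × LD n m → HE n × ((Fin (m + 1) → {x : Fin 3 // x ≠ 0}) ×
      (Fin (m + 1) → {x : Fin 3 // x ≠ 0})) := fun p =>
    (hA p.1 0, (fun j => ⟨(p.1.2 j).1.2 - (p.1.2 j).1.1, sub_ne_zero.2 (p.1.2 j).2.symm⟩,
      fun j => ⟨(p.2.2 j).1.2 - (p.2.2 j).1.1, sub_ne_zero.2 (p.2.2 j).2.symm⟩))
  have hcard : Fintype.card (HE n × ((Fin (m + 1) → {x : Fin 3 // x ≠ 0}) ×
      (Fin (m + 1) → {x : Fin 3 // x ≠ 0}))) = 3 * n * 4 ^ (m + 1) := by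
    have h1 : Fintype.card {x : Fin 3 // x ≠ 0} = 2 := rfl
    simp only [Fintype.card_prod, Fintype.card_fun, Fintype.card_fin, h1]
    rw [show (4 : ℕ) = 2 * 2 from rfl, mul_pow]
    ring
  rw [← hcard, ← Finset.card_univ]
  refine Finset.card_le_card_of_injOn key (fun _ _ => by simp) ?_
  rintro ⟨L, R⟩ h ⟨L', R'⟩ h' heq
  simp only [CP, coe_filter, mem_univ, true_and, Set.mem_ofPred_eq] at h h'
  simp only [key, Prod.mk.injEq] at heq
  obtain ⟨h0, h1, h2⟩ := heq
  have aux : ∀ {A B : LD n m}, ((fun j => (⟨(A.2 j).1.2 - (A.2 j).1.1,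
      sub_ne_zero.2 (A.2 j).2.symm⟩ : {x : Fin 3 // x ≠ 0})) =
      fun j => ⟨(B.2 j).1.2 - (B.2 j).1.1, sub_ne_zero.2 (B.2 j).2.symm⟩) →
      ∀ j, hA A j = hA B j → hD A j = hD B j := by
    intro A B h3 j h4
    have h5 := congrArg Subtype.val (congrFun h3 j)
    simp only at h5
    have h6 : (A.2 j).1.1 = (B.2 j).1.1 := congrArg Prod.snd h4
    rw [h6] at h5
    have h7 : (A.2 j).1.2 = (B.2 j).1.2 := sub_left_injective h5
    have h8 : A.1 j = B.1 j := (Prod.ext_iff.1 h4).1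
    exact Prod.ext h8 h7
  obtain ⟨h8, h9⟩ := compat_unique h h' h0 (aux h1) (aux h2)
  rw [h8, h9]

lemma card_Cyc_le (π : Equiv.Perm (HE n)) (m : ℕ) : #(Cyc π m) ≤ 3 * n * 4 ^ (m + 1) :=
  card_image_le.trans (card_CP_le π m)

lemma card_EE (L : LD n m) : #(EE L) = 2 * (m + 1) := by
  unfold EE
  rw [card_union_of_disjoint, card_image_of_injective, card_image_of_injective, card_univ,
    Fintype.card_fin]
  · ring
  · intro j j' h
    exact L.1.injective (congrArg Prod.fst h)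
  · intro j j' h
    exact L.1.injective (congrArg Prod.fst h)
  · rw [Finset.disjoint_left]
    intro e he he'
    rw [mem_image] at he he'
    obtain ⟨j, _, rfl⟩ := he
    obtain ⟨j', _, h⟩ := he'
    exact hA_ne_hD L j j' h.symm

lemma map_EE {π : Equiv.Perm (HE n)} {L R : LD n m} (h : compat π L R) :
    (EE L).map π.toEmbedding = EE R := by
  ext e
  rw [mem_map]
  constructor
  · rintro ⟨f, hf, rfl⟩
    rw [mem_EE] at hf
    obtain ⟨j, rfl | rfl⟩ := hf
    · rw [mem_EE]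
      refine ⟨j - 1, Or.inr ?_⟩
      rw [← (h _).2, sub_add_cancel]
      rfl
    · rw [mem_EE]
      exact ⟨j, Or.inl (h j).1⟩
  · intro he
    rw [mem_EE] at he
    obtain ⟨j, rfl | rfl⟩ := he
    · exact ⟨hD L j, mem_EE.2 ⟨j, Or.inr rfl⟩, (h j).1⟩
    · exact ⟨hA L (j + 1), mem_EE.2 ⟨j + 1, Or.inl rfl⟩, (h j).2⟩

lemma hD_of_mem {L : LD n m} {e : HE n} {j : Fin (m + 1)} (he : e ∈ EE L) (h1 : e.1 = L.1 j)
    (h2 : e ≠ hA L j) : e = hD L j := by
  rw [mem_EE] at he
  obtain ⟨j', rfl | rfl⟩ := he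
  · have : j' = j := L.1.injective h1
    subst this
    exact absurd rfl h2
  · have : j' = j := L.1.injective h1
    subst this
    rfl

lemma card_CP_le_mul (π : Equiv.Perm (HE n)) (m : ℕ) :
    #(CP π m) ≤ (2 * (m + 1)) * #(Cyc π m) := by
  unfold Cyc
  apply Finset.card_le_mul_card_image
  intro F hF
  rw [mem_image] at hF
  obtain ⟨⟨L₀, R₀⟩, _, rfl⟩ := hF
  simp only
  rw [← card_EE L₀]
  refine Finset.card_le_card_of_injOn (fun p => hA p.1 0) ?_ ?_
  · rintro ⟨L, R⟩ hp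
    simp only [coe_filter, Set.mem_ofPred_eq] at hp
    simp only [mem_coe]
    rw [← hp.2]
    exact mem_EE.2 ⟨0, Or.inl rfl⟩
  · rintro ⟨L, R⟩ h ⟨L', R'⟩ h' h0
    simp only [coe_filter, Set.mem_ofPred_eq, CP, mem_filter, mem_univ, true_and] at h h'
    simp only at h0
    have hEE : EE L = EE L' := h.2.trans h'.2.symm
    have hEE' : EE R = EE R' := by
      rw [← map_EE h.1, ← map_EE h'.1, hEE]
    have aux : ∀ {A B : LD n m}, EE A = EE B → ∀ j, hA A j = hA B j → hD A j = hD B j := by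
      intro A B h3 j h4
      refine hD_of_mem ?_ ?_ ?_
      · rw [← h3]; exact mem_EE.2 ⟨j, Or.inr rfl⟩
      · exact congrArg Prod.fst h4
      · rw [← h4]; exact (hA_ne_hD A j j).symm
    obtain ⟨h8, h9⟩ := compat_unique h.1 h'.1 h0 (aux hEE) (aux hEE')
    rw [h8, h9]

lemma dg_EE (L : LD n m) (v : Fin n) : dg (EE L) v = 0 ∨ dg (EE L) v = 2 := by
  unfold dg
  by_cases hv : ∃ j, L.1 j = v
  · right
    obtain ⟨j, rfl⟩ := hv
    have h1 : (univ.filter fun c : Fin 3 => (L.1 j, c) ∈ EE L)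
        = {(L.2 j).1.1, (L.2 j).1.2} := by
      ext c
      rw [mem_filter, mem_EE, mem_insert, mem_singleton]
      constructor
      · rintro ⟨_, j', h | h⟩
        · have h2 : j = j' := L.1.injective (congrArg Prod.fst h)
          subst h2
          exact Or.inl (congrArg Prod.snd h)
        · have h2 : j = j' := L.1.injective (congrArg Prod.fst h)
          subst h2
          exact Or.inr (congrArg Prod.snd h)
      · rintro (rfl | rfl)
        · exact ⟨mem_univ _, j, Or.inl rfl⟩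
        · exact ⟨mem_univ _, j, Or.inr rfl⟩
    rw [h1, card_pair (L.2 j).2]
  · left
    rw [card_eq_zero, Finset.filter_eq_empty_iff]
    intro c _ h
    rw [mem_EE] at h
    obtain ⟨j, h | h⟩ := h
    · exact hv ⟨j, (congrArg Prod.fst h).symm⟩
    · exact hv ⟨j, (congrArg Prod.fst h).symm⟩

theorem Cyc_prop {π : Equiv.Perm (HE n)} {F : Finset (HE n)} (hF : F ∈ Cyc π m) :
    TwoReg lf (rt π) F ∧ fF lf (rt π) F = (PowerSeries.X * g1) ^ (2 * (m + 1) - 1) := by
  unfold Cyc at hF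
  rw [mem_image] at hF
  obtain ⟨⟨L, R⟩, hp, rfl⟩ := hF
  simp only [CP, mem_filter, mem_univ, true_and] at hp
  simp only
  have hreg : TwoReg lf (rt π) (EE L) := by
    rw [twoReg_iff, map_EE hp]
    exact ⟨dg_EE L, dg_EE R⟩
  refine ⟨hreg, ?_⟩
  have hA_mem : ∀ j, hA L j ∈ EE L := fun j => mem_EE.2 ⟨j, Or.inl rfl⟩
  have hD_mem : ∀ j, hD L j ∈ EE L := fun j => mem_EE.2 ⟨j, Or.inr rfl⟩
  have hloc := hreg.hloc lf (rt π) (lf_ne_rt π)
  have h1 : ∀ j, eqv lf (rt π) (EE L) (hD L j) (hA L j) := by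
    intro j
    refine hloc (Sum.inl (L.1 j)) _ (hD_mem j) _ (hA_mem j) ?_ ?_
    · rw [inc_inl]; rfl
    · rw [inc_inl]; rfl
  have h2 : ∀ j, eqv lf (rt π) (EE L) (hA L (j + 1)) (hD L j) := by
    intro j
    refine hloc (Sum.inr (R.1 j)) _ (hA_mem (j + 1)) _ (hD_mem j) ?_ ?_
    · rw [inc_inr, (hp j).2]; rfl
    · rw [inc_inr, (hp j).1]; rfl
  have h3 : ∀ j, eqv lf (rt π) (EE L) (hA L j) (hA L 0) := by
    intro j
    induction j using Fin.induction with
    | zero => exact eqv_refl _ _ _ _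
    | succ j ih =>
      have h4 := h2 j.castSucc
      rw [Fin.coeSucc_eq_succ] at h4
      exact eqv_trans _ _ h4 (eqv_trans _ _ (h1 _) ih)
  have h5 := fF_single lf (rt π) (lf_ne_rt π) hreg (twoReg_even π hreg) (hA_mem 0) (by
    intro e he
    rw [mem_EE] at he
    obtain ⟨j, rfl | rfl⟩ := he
    · exact h3 j
    · exact eqv_trans _ _ (h1 j) (h3 j))
  rw [h5, card_EE]

/-- lower bound for the total number of cycles -/
theorem sum_Cyc_ge (n m : ℕ) :
    (n.descFactorial (m + 1) * 6 ^ (m + 1)) ^ 2 * (3 * n - 2 * (m + 1))! ≤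
      (2 * (m + 1)) * ∑ π : Equiv.Perm (HE n), #(Cyc π m) := by
  have h1 : ∑ π : Equiv.Perm (HE n), #(CP π m) ≤
      (2 * (m + 1)) * ∑ π : Equiv.Perm (HE n), #(Cyc π m) := by
    rw [Finset.mul_sum]
    exact Finset.sum_le_sum fun π _ => card_CP_le_mul π m
  refine le_trans ?_ h1
  have h2 : ∑ π : Equiv.Perm (HE n), #(CP π m)
      = ∑ p : LD n m × LD n m, #{π : Equiv.Perm (HE n) | compat π p.1 p.2} := by
    unfold CP
    simp only [Finset.card_filter]
    rw [Finset.sum_comm]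
  rw [h2]
  have h3 : ∑ _p : LD n m × LD n m, (3 * n - 2 * (m + 1))!
      = (n.descFactorial (m + 1) * 6 ^ (m + 1)) ^ 2 * (3 * n - 2 * (m + 1))! := by
    rw [Finset.sum_const, card_univ, Fintype.card_prod, card_LD, smul_eq_mul]
    ring
  rw [← h3]
  exact Finset.sum_le_sum fun p _ => card_compat p.1 p.2

/-- numerical form -/
theorem sum_Cyc_ge' {n m : ℕ} (hn : 0 < n) (hm : 4 * (m + 1) ^ 2 ≤ n) :
    (((3 * n)! : ℕ) : ℝ) * (4 ^ (m + 1) / (4 * (m + 1))) ≤
      ∑ π : Equiv.Perm (HE n), (#(Cyc π m) : ℝ) := by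
  set i := m + 1 with hi
  have hn' : (0 : ℝ) < n := by exact_mod_cast hn
  have hi0 : (0 : ℝ) < i := by rw [hi]; positivity
  have h1 := sum_Cyc_ge n m
  rw [← hi] at h1
  have h2 : ((((n.descFactorial i * 6 ^ i) ^ 2 * (3 * n - 2 * i)! : ℕ)) : ℝ) ≤
      (2 * i) * ∑ π : Equiv.Perm (HE n), (#(Cyc π m) : ℝ) := by exact_mod_cast h1
  have hin : i ≤ n := by nlinarith
  -- (3n)! ≤ (3n-2i)! (3n)^(2i)
  have h3 : (((3 * n)! : ℕ) : ℝ) ≤ ((3 * n - 2 * i)! : ℕ) * ((3 * n) ^ (2 * i) : ℝ) := by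
    have h4 := Nat.factorial_mul_descFactorial (n := 3 * n) (k := 2 * i) (by omega)
    have h5 := Nat.descFactorial_le_pow (3 * n) (2 * i)
    have h6 : (3 * n)! ≤ (3 * n - 2 * i)! * (3 * n) ^ (2 * i) := by
      rw [← h4]
      exact Nat.mul_le_mul_left _ h5
    exact_mod_cast h6
  have h7 : (n : ℝ) ^ (2 * i) * (1 / 2) ≤ ((n.descFactorial i : ℕ) : ℝ) ^ 2 := by
    have h8 := Nat.pow_sub_le_descFactorial n i
    have h9 : ((n : ℝ) - i) ^ i ≤ (n.descFactorial i : ℕ) := by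
      have h5 : (((n + 1 - i) ^ i : ℕ) : ℝ) ≤ (n.descFactorial i : ℕ) := by exact_mod_cast h8
      refine le_trans ?_ h5
      push_cast
      rw [Nat.cast_sub (by omega)]
      push_cast
      have h6 : (0 : ℝ) ≤ n - i := by
        rw [sub_nonneg]; exact_mod_cast hin
      gcongr
      linarith
    have h10 : (1 : ℝ) / 2 ≤ (1 + -((i : ℝ) / n)) ^ (2 * i) := by
      have h11 := one_add_mul_le_pow (a := -((i : ℝ) / n)) (by
        have : (i : ℝ) / n ≤ 1 := by
          rw [div_le_one hn']; exact_mod_cast hin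
        linarith) (2 * i)
      refine le_trans ?_ h11
      have h12 : (((2 * i : ℕ)) : ℝ) * ((i : ℝ) / n) ≤ 1 / 2 := by
        rw [← mul_div_assoc, div_le_iff₀ hn']
        have : (4 * (i : ℝ) ^ 2) ≤ n := by exact_mod_cast hm
        push_cast
        nlinarith
      nlinarith
    have h13 : ((n : ℝ) - i) = n * (1 + -((i : ℝ) / n)) := by
      field_simp
      ring
    calc (n : ℝ) ^ (2 * i) * (1 / 2) ≤ n ^ (2 * i) * (1 + -((i : ℝ) / n)) ^ (2 * i) := by gcongr
      _ = (((n : ℝ) - i) ^ i) ^ 2 := by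
          rw [h13, ← mul_pow, ← pow_mul, mul_comm i 2]
      _ ≤ _ := by
          have : (0 : ℝ) ≤ n - i := by
            rw [sub_nonneg]; exact_mod_cast hin
          gcongr
  push_cast at h2
  have h14 : (((3 * n)! : ℕ) : ℝ) * (4 ^ i / 2) ≤
      ((n.descFactorial i : ℕ) * 6 ^ i) ^ 2 * ((3 * n - 2 * i)! : ℕ) := by
    calc (((3 * n)! : ℕ) : ℝ) * (4 ^ i / 2)
        ≤ (((3 * n - 2 * i)! : ℕ) * ((3 * n) ^ (2 * i) : ℝ)) * (4 ^ i / 2) := by gcongr
      _ = ((n : ℝ) ^ (2 * i) * (1 / 2)) * 36 ^ i * ((3 * n - 2 * i)! : ℕ) := by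
          rw [mul_pow, show (36 : ℝ) = 9 * 4 by norm_num, mul_pow 9 4,
            show (9 : ℝ) = 3 ^ 2 by norm_num, ← pow_mul]
          ring
      _ ≤ ((n.descFactorial i : ℕ) : ℝ) ^ 2 * 36 ^ i * ((3 * n - 2 * i)! : ℕ) := by gcongr
      _ = _ := by
          rw [mul_pow, show (36 : ℝ) = 6 ^ 2 by norm_num, ← pow_mul, ← pow_mul, mul_comm 2 i]
  have h15 := h14.trans h2
  have h16 : (((3 * n)! : ℕ) : ℝ) * (4 ^ i / (4 * i)) = (((3 * n)! : ℕ) : ℝ) * (4 ^ i / 2) / (2 * i) := by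
    field_simp
    ring
  have h17 : ((m : ℝ) + 1) = i := by rw [hi]; push_cast; ring
  rw [h17, h16, div_le_iff₀ (by positivity)]
  rw [mul_comm (∑ π : Equiv.Perm (HE n), (#(Cyc π m) : ℝ))]
  exact h15

end Pool.Agent.Work.MP_cd2e96_co
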