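import Pool.Agent.Work.MP_cd2e96_co.Model

/-!
# The random model: labelings and the decomposition of the series
-/

namespace Pool.Agent.Work.MP_cd2e96_co

open Finset PowerSeries

/-- half edges on one side (= edges) -/
abbrev HE (n : ℕ) := Fin n × Fin 3

variable {n : ℕ}

/-- left end -/
def lf (e : HE n) : Fin n ⊕ Fin n := Sum.inl e.1
/-- right end -/
def rt (π : Equiv.Perm (HE n)) (e : HE n) : Fin n ⊕ Fin n := Sum.inr (π e).1

lemma lf_ne_rt' (π : Equiv.Perm (HE n)) (e f : HE n) : lf e ≠ rt π f := by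
  simp [lf, rt]

lemma lf_ne_rt (π : Equiv.Perm (HE n)) (e : HE n) : lf e ≠ rt π e := lf_ne_rt' π e e

/-- degree at a vertex -/
def dg (F : Finset (HE n)) (v : Fin n) : ℕ := #{c : Fin 3 | (v, c) ∈ F}

lemma card_fst (F : Finset (HE n)) (v : Fin n) : #{f ∈ F | f.1 = v} = dg F v := by
  unfold dg
  symm
  refine Finset.card_bij (fun c _ => (v, c)) ?_ ?_ ?_
  · intro c hc
    rw [mem_filter] at hc ⊢
    exact ⟨hc.2, rfl⟩
  · intro c _ c' _ h
    exact (Prod.mk.inj h).2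
  · rintro ⟨v', c⟩ hf
    rw [mem_filter] at hf
    obtain ⟨h1, h2⟩ := hf
    simp only at h2
    subst h2
    exact ⟨c, by rw [mem_filter]; exact ⟨mem_univ _, h1⟩, rfl⟩

lemma dg_le (F : Finset (HE n)) (v : Fin n) : dg F v ≤ 3 := by
  unfold dg
  refine (card_filter_le _ _).trans ?_
  simp

lemma inc_inl (π : Equiv.Perm (HE n)) (f : HE n) (v : Fin n) :
    inc lf (rt π) f (Sum.inl v) ↔ f.1 = v := by
  simp [inc, lf, rt]

lemma inc_inr (π : Equiv.Perm (HE n)) (f : HE n) (w : Fin n) :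
    inc lf (rt π) f (Sum.inr w) ↔ (π f).1 = w := by
  simp [inc, lf, rt]

lemma card_inl (π : Equiv.Perm (HE n)) (F : Finset (HE n)) (v : Fin n) :
    #{f ∈ F | inc lf (rt π) f (Sum.inl v)} = dg F v := by
  rw [← card_fst]
  congr 1
  ext f
  simp only [mem_filter, inc_inl]

lemma card_inr (π : Equiv.Perm (HE n)) (F : Finset (HE n)) (w : Fin n) :
    #{f ∈ F | inc lf (rt π) f (Sum.inr w)} = dg (F.map π.toEmbedding) w := by
  rw [← card_fst]
  refine Finset.card_bij (fun f _ => π f) ?_ ?_ ?_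
  · intro f hf
    rw [mem_filter, inc_inr] at hf
    rw [mem_filter]
    exact ⟨mem_map_of_mem _ hf.1, hf.2⟩
  · intro f _ f' _ h
    exact π.injective h
  · intro g hg
    rw [mem_filter, mem_map] at hg
    obtain ⟨⟨f, hf, rfl⟩, h2⟩ := hg
    refine ⟨f, ?_, rfl⟩
    rw [mem_filter, inc_inr]
    exact ⟨hf, h2⟩

lemma card_eq_sum_dg (F : Finset (HE n)) : #F = ∑ v, dg F v := by
  rw [Finset.card_eq_sum_card_fiberwise (f := Prod.fst) (t := univ) (fun _ _ => by simp)]
  exact Finset.sum_congr rfl fun v _ => card_fst F v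

/-- labelings -/
abbrev Lbl (n : ℕ) := HE n → Option (Fin 6)

def okH (a : Lbl n) : Prop := ∀ v, okLoc (fun c => a (v, c))
def supp (a : Lbl n) : Finset (HE n) := {e | a e ≠ none}
def has3 (a : Lbl n) : Prop := ∃ v, isThree (fun c => a (v, c))

instance (a : Lbl n) : Decidable (okH a) := by unfold okH; infer_instance
instance (a : Lbl n) : Decidable (has3 a) := by unfold has3; infer_instance

/-- admissible labelings -/
def Lab (k : ℕ) (π : Equiv.Perm (HE n)) : Finset (Lbl n) :=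
  {a | okH a ∧ okH (a ∘ π.symm) ∧ #(supp a) ≤ 3 * k}

noncomputable def LL (k : ℕ) (π : Equiv.Perm (HE n)) : ℝ :=
  ∑ a ∈ Lab k π, (1 / 2) ^ #(supp a)

noncomputable def LL3 (k : ℕ) (π : Equiv.Perm (HE n)) : ℝ :=
  ∑ a ∈ (Lab k π).filter (fun a => has3 a ∨ has3 (a ∘ π.symm)), (1 / 2) ^ #(supp a)

lemma mem_supp (a : Lbl n) (e : HE n) : e ∈ supp a ↔ a e ≠ none := by
  simp [supp]

lemma six_pow_le (π : Equiv.Perm (HE n)) {F T : Finset (HE n)}
    (h1 : ∀ v, dg F v ≠ 1) (h2 : ∀ w, dg (F.map π.toEmbedding) w ≠ 1) (hT : T ⊆ F)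
    (hrep : ∀ e ∈ F, ∃ t ∈ T, eqv lf (rt π) F e t)
    (hinj : ∀ t ∈ T, ∀ t' ∈ T, eqv lf (rt π) F t t' → t = t') :
    6 ^ #T ≤ #{a : Lbl n | okH a ∧ okH (a ∘ π.symm) ∧ supp a = F} := by
  choose rp hrpT hrp using hrep
  have hcard : Fintype.card ({x // x ∈ T} → Fin 6) = 6 ^ #T := by
    rw [Fintype.card_fun, Fintype.card_fin, Fintype.card_coe]
  rw [← hcard, ← Finset.card_univ]
  have hrpe : ∀ e (he : e ∈ F) e' (he' : e' ∈ F), eqv lf (rt π) F e e' →
      rp e he = rp e' he' := by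
    intro e he e' he' h
    exact hinj _ (hrpT e he) _ (hrpT e' he')
      (eqv_trans _ _ (eqv_symm _ _ (hrp e he)) (eqv_trans _ _ h (hrp e' he')))
  refine Finset.card_le_card_of_injOn
    (fun lam => fun e => if h : e ∈ F then some (lam ⟨rp e h, hrpT e h⟩) else none) ?_ ?_
  · intro lam _
    have hne : ∀ e, ((if h : e ∈ F then some (lam ⟨rp e h, hrpT e h⟩) else none) : Option (Fin 6))
        ≠ none ↔ e ∈ F := by
      intro e
      by_cases h : e ∈ F
      · simp [h]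
      · simp [h]
    have heq : ∀ e (he : e ∈ F) e' (he' : e' ∈ F), eqv lf (rt π) F e e' →
        ((if h : e ∈ F then some (lam ⟨rp e h, hrpT e h⟩) else none) : Option (Fin 6))
        = if h : e' ∈ F then some (lam ⟨rp e' h, hrpT e' h⟩) else none := by
      intro e he e' he' h
      rw [dif_pos he, dif_pos he']
      congr 2
      exact Subtype.ext (hrpe e he e' he' h)
    simp only [mem_coe, mem_filter, mem_univ, true_and]
    refine ⟨fun v => ?_, fun w => ?_, ?_⟩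
    · apply okLoc_of
      · simp only [hne]
        exact h1 v
      · intro hcard2 i j hi hj
        rw [hne] at hi hj
        refine heq _ hi _ hj ?_
        refine eqv_of_card_two _ _ (lf_ne_rt π) (v := Sum.inl v) ?_ hi hj ?_ ?_
        · rw [card_inl]
          simp only [hne] at hcard2
          exact hcard2
        · rw [inc_inl]
        · rw [inc_inl]
    · have hmem : ∀ c, π.symm (w, c) ∈ F ↔ (w, c) ∈ F.map π.toEmbedding := by
        intro c
        rw [mem_map_equiv]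
      apply okLoc_of
      · simp only [Function.comp_apply, hne]
        simp only [hmem]
        exact h2 w
      · intro hcard2 i j hi hj
        simp only [Function.comp_apply] at hi hj hcard2 ⊢
        rw [hne] at hi hj
        refine heq _ hi _ hj ?_
        refine eqv_of_card_two _ _ (lf_ne_rt π) (v := Sum.inr w) ?_ hi hj ?_ ?_
        · rw [card_inr]
          simp only [hne] at hcard2
          simp only [hmem] at hcard2
          exact hcard2
        · rw [inc_inr, Equiv.apply_symm_apply]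
        · rw [inc_inr, Equiv.apply_symm_apply]
    · ext e
      rw [mem_supp, hne]
  · intro lam _ lam' _ h
    funext t
    have h3 := congrFun h t.1
    have htF : t.1 ∈ F := hT t.2
    simp only [dif_pos htF] at h3
    have h4 : (⟨rp t.1 htF, hrpT t.1 htF⟩ : {x // x ∈ T}) = t := by
      apply Subtype.ext
      exact (hinj _ t.2 _ (hrpT _ _) (hrp t.1 htF)).symm
    rw [h4] at h3
    exact Option.some_injective _ h3

lemma tn_fF_le_lab (k : ℕ) (π : Equiv.Perm (HE n)) {F : Finset (HE n)}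
    (h1 : ∀ v, dg F v ≠ 1) (h2 : ∀ w, dg (F.map π.toEmbedding) w ≠ 1) :
    tn k (fF lf (rt π) F) ≤
      ∑ a ∈ univ.filter (fun a : Lbl n => okH a ∧ okH (a ∘ π.symm) ∧ supp a = F),
        (1 / 2) ^ #(supp a) := by
  obtain ⟨T, hT, hrep, hinj⟩ := exists_reps lf (rt π) F
  have h3 := six_pow_le π h1 h2 hT hrep hinj
  refine (tn_fF_le lf (rt π) k hT hrep).trans ?_
  have h4 : ∑ a ∈ univ.filter (fun a : Lbl n => okH a ∧ okH (a ∘ π.symm) ∧ supp a = F),
        ((1 : ℝ) / 2) ^ #(supp a) =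
      #{a : Lbl n | okH a ∧ okH (a ∘ π.symm) ∧ supp a = F} * (1 / 2) ^ #F := by
    rw [← nsmul_eq_mul, ← Finset.sum_const]
    refine Finset.sum_congr rfl fun a ha => ?_
    rw [mem_filter] at ha
    rw [ha.2.2.2]
  rw [h4, mul_comm]
  have h5 : ((6 : ℝ)) ^ #T ≤ (#{a : Lbl n | okH a ∧ okH (a ∘ π.symm) ∧ supp a = F} : ℝ) := by
    exact_mod_cast h3
  gcongr

lemma tn_fF_deg_one (π : Equiv.Perm (HE n)) {F : Finset (HE n)}
    (h : (∃ v, dg F v = 1) ∨ ∃ w, dg (F.map π.toEmbedding) w = 1) :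
    fF lf (rt π) F = 0 := by
  have h1 : HH lf (rt π) F = 0 := by
    rcases h with ⟨v, hv⟩ | ⟨w, hw⟩
    · exact HH_vanish_deg_one _ _ (lf_ne_rt π) (v := Sum.inl v) (by rw [card_inl]; exact hv)
    · exact HH_vanish_deg_one _ _ (lf_ne_rt π) (v := Sum.inr w) (by rw [card_inr]; exact hw)
  unfold fF
  rw [h1]
  simp

lemma tn_fF_large {k : ℕ} (π : Equiv.Perm (HE n)) {F : Finset (HE n)} (h : 3 * k < #F) :
    tn k (fF lf (rt π) F) = 0 := by
  apply fF_tn_zero
  have h1 := card_image_le_rk lf (rt π) (lf_ne_rt' π) F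
  have h2 : #F ≤ 3 * #(F.image lf) := by
    apply Finset.card_le_mul_card_image
    intro b hb
    rw [mem_image] at hb
    obtain ⟨e, _, rfl⟩ := hb
    have h3 : F.filter (fun a => lf a = lf e) = F.filter (fun a => a.1 = e.1) := by
      ext f
      simp [lf]
    rw [h3, card_fst]
    exact dg_le F e.1
  omega

/-- summing over a family of edge sets -/
lemma sum_tn_le (k : ℕ) (π : Equiv.Perm (HE n)) (𝓕 : Finset (Finset (HE n))) (S : Finset (Lbl n))
    (h : ∀ F ∈ 𝓕, (∀ v, dg F v ≠ 1) ∧ ∀ w, dg (F.map π.toEmbedding) w ≠ 1)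
    (hS : ∀ a : Lbl n, okH a → okH (a ∘ π.symm) → supp a ∈ 𝓕 → a ∈ S) :
    ∑ F ∈ 𝓕, tn k (fF lf (rt π) F) ≤ ∑ a ∈ S, (1 / 2) ^ #(supp a) := by
  have h1 : ∑ F ∈ 𝓕, tn k (fF lf (rt π) F) ≤
      ∑ F ∈ 𝓕, ∑ a ∈ univ.filter (fun a : Lbl n => okH a ∧ okH (a ∘ π.symm) ∧ supp a = F),
        (1 / 2) ^ #(supp a) :=
    Finset.sum_le_sum fun F hF => tn_fF_le_lab k π (h F hF).1 (h F hF).2
  refine h1.trans ?_
  have h2 : ∑ F ∈ 𝓕, ∑ a ∈ univ.filter (fun a : Lbl n => okH a ∧ okH (a ∘ π.symm) ∧ supp a = F),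
        ((1 : ℝ) / 2) ^ #(supp a)
      = ∑ F ∈ 𝓕, ∑ a ∈ (univ.filter (fun a : Lbl n =>
          okH a ∧ okH (a ∘ π.symm) ∧ supp a ∈ 𝓕)).filter (fun a => supp a = F),
        ((1 : ℝ) / 2) ^ #(supp a) := by
    refine Finset.sum_congr rfl fun F hF => ?_
    refine Finset.sum_congr ?_ fun _ _ => rfl
    ext a
    simp only [mem_filter, mem_univ, true_and]
    constructor
    · rintro ⟨h3, h4, h5⟩
      exact ⟨⟨h3, h4, h5 ▸ hF⟩, h5⟩
    · rintro ⟨⟨h3, h4, _⟩, h5⟩
      exact ⟨h3, h4, h5⟩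
  rw [h2, Finset.sum_fiberwise_of_maps_to]
  · refine Finset.sum_le_sum_of_subset_of_nonneg ?_ (fun _ _ _ => by positivity)
    intro a ha
    rw [mem_filter] at ha
    exact hS a ha.2.1 ha.2.2.1 ha.2.2.2
  · intro a ha
    rw [mem_filter] at ha
    exact ha.2.2.2

theorem tn_ZZ_le (k : ℕ) (π : Equiv.Perm (HE n)) : tn k (ZZ lf (rt π)) ≤ LL k π := by
  classical
  rw [ZZ_eq]
  refine (tn_sum _ _ _).trans ?_
  set 𝓕 : Finset (Finset (HE n)) := univ.powerset.filter (fun F =>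
    ((∀ v, dg F v ≠ 1) ∧ ∀ w, dg (F.map π.toEmbedding) w ≠ 1) ∧ #F ≤ 3 * k) with h𝓕
  have h1 : ∑ F ∈ (univ : Finset (HE n)).powerset, tn k (fF lf (rt π) F)
      = ∑ F ∈ 𝓕, tn k (fF lf (rt π) F) := by
    symm
    refine Finset.sum_subset (filter_subset _ _) fun F hF hF' => ?_
    rw [h𝓕, mem_filter] at hF'
    by_cases h3 : #F ≤ 3 * k
    · have h4 : (∃ v, dg F v = 1) ∨ ∃ w, dg (F.map π.toEmbedding) w = 1 := by
        by_contra hcon
        push Not at hcon
        exact hF' ⟨hF, ⟨hcon.1, hcon.2⟩, h3⟩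
      rw [tn_fF_deg_one π h4, tn_zero]
    · exact tn_fF_large π (by omega)
  rw [h1]
  refine sum_tn_le k π 𝓕 (Lab k π) (fun F hF => (mem_filter.1 hF).2.1) ?_
  intro a h3 h4 h5
  rw [h𝓕, mem_filter] at h5
  rw [Lab, mem_filter]
  exact ⟨mem_univ _, h3, h4, h5.2.2⟩

lemma twoReg_iff (π : Equiv.Perm (HE n)) (F : Finset (HE n)) : TwoReg lf (rt π) F ↔
    (∀ v, dg F v = 0 ∨ dg F v = 2) ∧
      ∀ w, dg (F.map π.toEmbedding) w = 0 ∨ dg (F.map π.toEmbedding) w = 2 := by
  unfold TwoReg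
  rw [Sum.forall]
  simp only [card_inl, card_inr]

lemma twoReg_even (π : Equiv.Perm (HE n)) {F : Finset (HE n)} (h : TwoReg lf (rt π) F) :
    Even #F := by
  rw [twoReg_iff] at h
  rw [card_eq_sum_dg]
  apply Finset.even_sum
  intro v _
  rcases h.1 v with h1 | h1
  · rw [h1]; exact Even.zero
  · rw [h1]; exact even_two

theorem coeff_ZZ_ge {k i : ℕ} (hi : 1 ≤ i) (hik : 2 * i - 1 ≤ k) (π : Equiv.Perm (HE n))
    (𝒞 : Finset (Finset (HE n)))
    (h𝒞 : ∀ F ∈ 𝒞, TwoReg lf (rt π) F ∧ fF lf (rt π) F = (X * g1) ^ (2 * i - 1)) :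
    (#𝒞 : ℝ) * ((k - 1).choose (2 * i - 2) : ℕ) * (1 / 3) ^ k ≤
      |((coeff k (ZZ lf (rt π)) : ℤ) : ℝ)| * (1 / 3) ^ k + LL3 k π := by
  classical
  set P : Finset (Finset (HE n)) := univ.powerset with hP
  have hsplit : coeff k (ZZ lf (rt π)) = ∑ F ∈ P.filter (fun F => TwoReg lf (rt π) F),
      coeff k (fF lf (rt π) F) + ∑ F ∈ P.filter (fun F => ¬ TwoReg lf (rt π) F),
      coeff k (fF lf (rt π) F) := by
    rw [ZZ_eq, map_sum, Finset.sum_filter_add_sum_filter_not]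
  have h1 : ((#𝒞 : ℤ)) * ((k - 1).choose (2 * i - 2) : ℕ) ≤
      ∑ F ∈ P.filter (fun F => TwoReg lf (rt π) F), coeff k (fF lf (rt π) F) := by
    have h2 : ((#𝒞 : ℤ)) * ((k - 1).choose (2 * i - 2) : ℕ)
        = ∑ F ∈ 𝒞, coeff k (fF lf (rt π) F) := by
      rw [← nsmul_eq_mul, ← Finset.sum_const]
      refine Finset.sum_congr rfl fun F hF => ?_
      rw [(h𝒞 F hF).2]
      obtain ⟨m, hm⟩ : ∃ m, 2 * i - 1 = m + 1 := ⟨2 * i - 2, by omega⟩
      rw [hm, coeff_Xg1_pow_succ, if_pos (by omega)]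
      have : 2 * i - 2 = m := by omega
      rw [this]
    rw [h2]
    refine Finset.sum_le_sum_of_subset_of_nonneg ?_ ?_
    · intro F hF
      rw [mem_filter]
      exact ⟨by simp [hP], (h𝒞 F hF).1⟩
    · intro F hF _
      rw [mem_filter] at hF
      exact fF_twoReg_nonneg _ _ (lf_ne_rt π) hF.2 (twoReg_even π hF.2) k
  have h3 : |((∑ F ∈ P.filter (fun F => ¬ TwoReg lf (rt π) F),
      coeff k (fF lf (rt π) F) : ℤ) : ℝ)| * (1 / 3) ^ k ≤ LL3 k π := by
    rw [Int.cast_sum]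
    have h4 : |∑ F ∈ P.filter (fun F => ¬ TwoReg lf (rt π) F),
        ((coeff k (fF lf (rt π) F) : ℤ) : ℝ)| * (1 / 3) ^ k ≤
        ∑ F ∈ P.filter (fun F => ¬ TwoReg lf (rt π) F), tn k (fF lf (rt π) F) := by
      calc _ ≤ (∑ F ∈ P.filter (fun F => ¬ TwoReg lf (rt π) F),
          |((coeff k (fF lf (rt π) F) : ℤ) : ℝ)|) * (1 / 3) ^ k := by
            gcongr
            exact Finset.abs_sum_le_sum_abs _ _
        _ = ∑ F ∈ P.filter (fun F => ¬ TwoReg lf (rt π) F),
          |((coeff k (fF lf (rt π) F) : ℤ) : ℝ)| * (1 / 3) ^ k := by rw [Finset.sum_mul]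
        _ ≤ _ := Finset.sum_le_sum fun F _ => abs_coeff_le_tn k _
    refine h4.trans ?_
    set 𝓕 : Finset (Finset (HE n)) := (P.filter (fun F => ¬ TwoReg lf (rt π) F)).filter (fun F =>
      ((∀ v, dg F v ≠ 1) ∧ ∀ w, dg (F.map π.toEmbedding) w ≠ 1) ∧ #F ≤ 3 * k) with h𝓕
    have h5 : ∑ F ∈ P.filter (fun F => ¬ TwoReg lf (rt π) F), tn k (fF lf (rt π) F)
        = ∑ F ∈ 𝓕, tn k (fF lf (rt π) F) := by
      symm
      refine Finset.sum_subset (filter_subset _ _) fun F hF hF' => ?_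
      rw [h𝓕, mem_filter] at hF'
      by_cases h3 : #F ≤ 3 * k
      · have h4 : (∃ v, dg F v = 1) ∨ ∃ w, dg (F.map π.toEmbedding) w = 1 := by
          by_contra hcon
          push Not at hcon
          exact hF' ⟨hF, ⟨hcon.1, hcon.2⟩, h3⟩
        rw [tn_fF_deg_one π h4, tn_zero]
      · exact tn_fF_large π (by omega)
    rw [h5]
    unfold LL3
    refine sum_tn_le k π 𝓕 _ (fun F hF => (mem_filter.1 hF).2.1) ?_
    intro a ha1 ha2 ha3
    rw [h𝓕, mem_filter, mem_filter] at ha3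
    rw [mem_filter, Lab, mem_filter]
    refine ⟨⟨mem_univ _, ha1, ha2, ha3.2.2⟩, ?_⟩
    have h6 := ha3.1.2
    rw [twoReg_iff] at h6
    by_contra hcon
    push Not at hcon
    obtain ⟨hc1, hc2⟩ := hcon
    apply h6
    constructor
    · intro v
      have h7 := ha3.2.1.1 v
      have h8 := dg_le (supp a) v
      have h9 : dg (supp a) v ≠ 3 := by
        intro h10
        apply hc1
        refine ⟨v, fun c => ?_⟩
        unfold dg at h10
        have h11 : (univ.filter (fun c : Fin 3 => (v, c) ∈ supp a)) = univ := by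
          apply Finset.eq_univ_of_card
          rw [h10]; rfl
        have h12 : c ∈ univ.filter (fun c : Fin 3 => (v, c) ∈ supp a) := by
          rw [h11]; exact mem_univ c
        rw [mem_filter, mem_supp] at h12
        exact h12.2
      omega
    · intro w
      have h7 := ha3.2.1.2 w
      have h8 := dg_le ((supp a).map π.toEmbedding) w
      have h9 : dg ((supp a).map π.toEmbedding) w ≠ 3 := by
        intro h10
        apply hc2
        refine ⟨w, fun c => ?_⟩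
        unfold dg at h10
        have h11 : (univ.filter (fun c : Fin 3 => (w, c) ∈ (supp a).map π.toEmbedding)) = univ := by
          apply Finset.eq_univ_of_card
          rw [h10]; rfl
        have h12 : c ∈ univ.filter (fun c : Fin 3 => (w, c) ∈ (supp a).map π.toEmbedding) := by
          rw [h11]; exact mem_univ c
        rw [mem_filter, mem_map_equiv, mem_supp] at h12
        exact h12.2
      omega
  rw [hsplit]
  push_cast at h1 h3 ⊢
  set A : ℝ := ∑ F ∈ P.filter (fun F => TwoReg lf (rt π) F),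
    ((coeff k (fF lf (rt π) F) : ℤ) : ℝ) with hA
  set B : ℝ := ∑ F ∈ P.filter (fun F => ¬ TwoReg lf (rt π) F),
    ((coeff k (fF lf (rt π) F) : ℤ) : ℝ) with hB
  have h1' : (#𝒞 : ℝ) * ((k - 1).choose (2 * i - 2) : ℕ) ≤ A := by
    rw [hA]
    exact_mod_cast h1
  have h6 : A ≤ |A + B| + |B| := by
    have := abs_add_le (A + B) (-B)
    rw [abs_neg] at this
    have h7 : A + B + -B = A := by ring
    rw [h7] at this
    exact (le_abs_self A).trans this
  have h7 : (0 : ℝ) < (1 / 3) ^ k := by positivity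
  calc (#𝒞 : ℝ) * ((k - 1).choose (2 * i - 2) : ℕ) * (1 / 3) ^ k ≤ A * (1 / 3) ^ k := by gcongr
    _ ≤ (|A + B| + |B|) * (1 / 3) ^ k := by gcongr
    _ = |A + B| * (1 / 3) ^ k + |B| * (1 / 3) ^ k := by ring
    _ ≤ _ := by gcongr

end Pool.Agent.Work.MP_cd2e96_co
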