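import Pool.Agent.Work.MP_cd2e96_co.Analytic
import Pool.Agent.Work.MP_cd2e96_co.Decomp

/-!
# From the chromatic roots to the analytic set-up
-/

namespace Pool.Agent.Work.MP_cd2e96_co

open Finset

lemma hs_congr {f g : ℕ → ℂ} {a : ℂ} (h : ∀ i, f i = g i) (hf : HasSum f a) : HasSum g a := by
  have h1 : f = g := funext h
  rwa [← h1]

lemma hasSum_g1_pow (m : ℕ) {x : ℂ} (hx : ‖x‖ < 1) :
    HasSum (fun i => ((PowerSeries.coeff i (g1 ^ m) : ℤ) : ℂ) * x ^ i) (1 / (1 - x) ^ m) := by
  rcases m with _ | m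
  · have h : (fun i => ((PowerSeries.coeff i (g1 ^ 0) : ℤ) : ℂ) * x ^ i)
        = fun i => if i = 0 then 1 else 0 := by
      funext i
      rw [pow_zero, PowerSeries.coeff_one]
      split_ifs with hi
      · subst hi; simp
      · simp
    rw [h, pow_zero, div_one]
    exact hasSum_ite_eq 0 1
  · have h := hasSum_choose_mul_geometric_of_norm_lt_one m hx
    refine hs_congr (fun i => ?_) h
    rw [g1, PowerSeries.mk_one_pow_eq_mk_choose_add, PowerSeries.coeff_mk, add_comm i m]
    simp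

lemma hasSum_poly_mul (p : Polynomial ℤ) (f : PowerSeries ℤ) {x F : ℂ}
    (hf : HasSum (fun i => ((PowerSeries.coeff i f : ℤ) : ℂ) * x ^ i) F) :
    HasSum (fun i => ((PowerSeries.coeff i ((p : PowerSeries ℤ) * f) : ℤ) : ℂ) * x ^ i)
      (Polynomial.aeval x p * F) := by
  induction p using Polynomial.induction_on' with
  | add p q hp hq =>
    rw [map_add, add_mul]
    refine hs_congr (fun i => ?_) (hp.add hq)
    rw [Polynomial.coe_add, add_mul, map_add]
    push_cast
    ring
  | monomial k a =>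
    rw [Polynomial.aeval_monomial]
    rw [← hasSum_nat_add_iff' k]
    have h0 : ∑ i ∈ range k, ((PowerSeries.coeff i (((Polynomial.monomial k a : Polynomial ℤ) :
        PowerSeries ℤ) * f) : ℤ) : ℂ) * x ^ i = 0 := by
      refine Finset.sum_eq_zero fun i hi => ?_
      rw [mem_range] at hi
      have : PowerSeries.coeff i (((Polynomial.monomial k a : Polynomial ℤ) :
          PowerSeries ℤ) * f) = 0 := by
        rw [← Polynomial.C_mul_X_pow_eq_monomial, Polynomial.coe_mul, Polynomial.coe_pow,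
          Polynomial.coe_X, Polynomial.coe_C, mul_assoc, PowerSeries.coeff_C_mul,
          PowerSeries.coeff_X_pow_mul', if_neg (by omega), mul_zero]
      rw [this]
      simp
    rw [h0, sub_zero]
    have h1 : (algebraMap ℤ ℂ) a * x ^ k * F = ((a : ℂ) * x ^ k) * F := by simp
    rw [h1]
    refine hs_congr (fun i => ?_) (hf.mul_left ((a : ℂ) * x ^ k))
    have : PowerSeries.coeff (i + k) (((Polynomial.monomial k a : Polynomial ℤ) :
        PowerSeries ℤ) * f) = a * PowerSeries.coeff i f := by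
      rw [← Polynomial.C_mul_X_pow_eq_monomial, Polynomial.coe_mul, Polynomial.coe_pow,
        Polynomial.coe_X, Polynomial.coe_C, mul_assoc, PowerSeries.coeff_C_mul,
        PowerSeries.coeff_X_pow_mul', if_pos (Nat.le_add_left k i), Nat.add_sub_cancel]
    rw [this]
    push_cast
    rw [pow_add]
    ring

/-- coefficients of the logarithm -/
noncomputable def bs (s : Multiset ℂ) (i : ℕ) : ℂ := -((s.map fun a => a ^ i).sum) / i

lemma hasSum_log {R : ℝ} (hR : 0 < R) (s : Multiset ℂ) (hs : ∀ a ∈ s, ‖a‖ ≤ R) {x : ℂ}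
    (hx : ‖x‖ < 1 / R) :
    HasSum (fun i => bs s i * x ^ i) ((s.map fun a => Complex.log (1 - a * x)).sum) := by
  induction s using Multiset.induction_on with
  | empty =>
    simp only [bs, Multiset.map_zero, Multiset.sum_zero, neg_zero, zero_div, zero_mul]
    exact hasSum_zero
  | cons a s ih =>
    have ha : ‖a * x‖ < 1 := by
      rw [norm_mul]
      have h1 := hs a (Multiset.mem_cons_self a s)
      rw [lt_div_iff₀ hR] at hx
      calc ‖a‖ * ‖x‖ ≤ R * ‖x‖ := by gcongr
        _ < 1 := by rw [mul_comm]; exact hx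
    have h2 := (Complex.hasSum_taylorSeries_neg_log ha).neg
    rw [neg_neg] at h2
    have h3 := ih fun b hb => hs b (Multiset.mem_cons_of_mem hb)
    rw [Multiset.map_cons, Multiset.sum_cons]
    refine hs_congr (fun i => ?_) (h2.add h3)
    simp only [bs, Multiset.map_cons, Multiset.sum_cons]
    rw [mul_pow]
    ring

lemma norm_sum_pow_le {R : ℝ} (s : Multiset ℂ) (hs : ∀ a ∈ s, ‖a‖ ≤ R) (j : ℕ) :
    ‖(s.map fun a => a ^ j).sum‖ ≤ s.card * R ^ j := by
  induction s using Multiset.induction_on with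
  | empty => simp
  | cons a s ih =>
    rw [Multiset.map_cons, Multiset.sum_cons, Multiset.card_cons]
    have h1 := hs a (Multiset.mem_cons_self a s)
    have h3 := ih fun b hb => hs b (Multiset.mem_cons_of_mem hb)
    refine (norm_add_le _ _).trans ?_
    rw [norm_pow]
    have h4 : ‖a‖ ^ j ≤ R ^ j := by gcongr
    push_cast
    linarith

section model

variable {n : ℕ} (π : Equiv.Perm (HE n))

/-- the complex roots -/
noncomputable def rts : Multiset ℂ := ((chromP lf (rt π)).map (Int.castRingHom ℂ)).roots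

lemma mem_rts {z : ℂ} (h : z ∈ rts π) : Polynomial.aeval z (chromP lf (rt π)) = 0 := by
  unfold rts at h
  have h1 := (Polynomial.mem_roots'.1 h).2
  rw [Polynomial.IsRoot.def, Polynomial.eval_map] at h1
  rw [Polynomial.aeval_def]
  exact h1

lemma card_V : Fintype.card (Fin n ⊕ Fin n) = 2 * n := by
  rw [Fintype.card_sum, Fintype.card_fin]; ring

lemma card_rts : (rts π).card = 2 * n := by
  have h := chromP_monic lf (rt π) (lf_ne_rt π)
  have h1 : ((chromP lf (rt π)).map (Int.castRingHom ℂ)).natDegree = 2 * n := by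
    rw [h.1.natDegree_map, h.2, card_V]
  unfold rts
  rw [← (IsAlgClosed.splits _).natDegree_eq_card_roots, h1]

lemma eval_rts (y : ℂ) : Polynomial.aeval y (chromP lf (rt π))
    = ((rts π).map fun a => y - a).prod := by
  have h := chromP_monic lf (rt π) (lf_ne_rt π)
  have h1 : ((chromP lf (rt π)).map (Int.castRingHom ℂ)).Monic := h.1.map _
  have h2 := (IsAlgClosed.splits ((chromP lf (rt π)).map
    (Int.castRingHom ℂ))).eq_prod_roots_of_monic h1
  have h3 : Polynomial.aeval y (chromP lf (rt π))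
      = ((chromP lf (rt π)).map (Int.castRingHom ℂ)).eval y := by
    rw [Polynomial.eval_map, Polynomial.aeval_def]
    rfl
  rw [h3, h2, Polynomial.eval_multiset_prod, Multiset.map_map]
  unfold rts
  congr 1
  refine Multiset.map_congr rfl fun a _ => ?_
  simp

lemma aeval_Rev (x : ℂ) : Polynomial.aeval x (Rev lf (rt π))
    = ∑ A ∈ (univ : Finset (HE n)).powerset, (-1) ^ #A * x ^ rk lf (rt π) A := by
  unfold Rev
  rw [map_sum]
  refine Finset.sum_congr rfl fun A _ => ?_
  simp

lemma Rev_eval (x : ℂ) : Polynomial.aeval x (Rev lf (rt π))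
    = ((rts π).map fun a => 1 - a * x).prod := by
  by_cases hx : x = 0
  · subst hx
    rw [aeval_Rev]
    have h1 : ∀ A ∈ (univ : Finset (HE n)).powerset, ((-1 : ℂ)) ^ #A * 0 ^ rk lf (rt π) A
        = if A = ∅ then 1 else 0 := by
      intro A _
      split_ifs with hA
      · subst hA
        rw [rk_empty]
        simp
      · obtain ⟨e, he⟩ := Finset.nonempty_iff_ne_empty.2 hA
        have := rk_pos lf (rt π) he (lf_ne_rt π e)
        rw [zero_pow (by omega), mul_zero]
    rw [Finset.sum_congr rfl h1, Finset.sum_ite_eq', if_pos (by simp)]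
    simp
  · have h2 : Polynomial.aeval x (Rev lf (rt π))
        = x ^ (2 * n) * Polynomial.aeval (1 / x) (chromP lf (rt π)) := by
      rw [aeval_Rev]
      unfold chromP
      rw [map_sum, Finset.mul_sum]
      refine Finset.sum_congr rfl fun A _ => ?_
      simp only [map_mul, map_pow, map_neg, map_one, Polynomial.aeval_X]
      have h3 := rk_add_cc lf (rt π) A
      rw [card_V] at h3
      rw [← h3, pow_add]
      have h4 : x ^ cc lf (rt π) A * (1 / x) ^ cc lf (rt π) A = 1 := by
        rw [← mul_pow, mul_one_div_cancel hx, one_pow]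
      calc (-1 : ℂ) ^ #A * x ^ rk lf (rt π) A
          = (-1 : ℂ) ^ #A * x ^ rk lf (rt π) A *
            (x ^ cc lf (rt π) A * (1 / x) ^ cc lf (rt π) A) := by rw [h4, mul_one]
        _ = _ := by ring
    rw [h2, eval_rts, ← card_rts π]
    generalize rts π = s
    induction s using Multiset.induction_on with
    | empty => simp
    | cons a s ih =>
      rw [Multiset.map_cons, Multiset.prod_cons, Multiset.map_cons, Multiset.prod_cons, ← ih,
        Multiset.card_cons, pow_succ]
      have : x * (1 / x - a) = 1 - a * x := by field_simp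
      rw [← this]
      ring

/-- the logarithm -/
noncomputable def gg (x : ℂ) : ℂ :=
  ((rts π).map fun a => Complex.log (1 - a * x)).sum +
    ((3 * n : ℕ) : ℂ) * (-Complex.log (1 - x))

/-- its coefficients -/
noncomputable def bg (i : ℕ) : ℂ := bs (rts π) i + ((3 * n : ℕ) : ℂ) * (1 / i)

noncomputable def ph (x : ℂ) : ℂ := Polynomial.aeval x (Rev lf (rt π)) * (1 / (1 - x) ^ (3 * n))

variable {R : ℝ}

lemma norm_lt_one_of {R : ℝ} (hR : 1 ≤ R) {x : ℂ} (hx : ‖x‖ < 1 / R) : ‖x‖ < 1 := by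
  refine lt_of_lt_of_le hx ?_
  rw [div_le_one (by linarith)]
  exact hR

lemma hasSum_gg (hR : 1 ≤ R) (h : ∀ a ∈ rts π, ‖a‖ ≤ R) {x : ℂ} (hx : ‖x‖ < 1 / R) :
    HasSum (fun i => bg π i * x ^ i) (gg π x) := by
  have h1 := hasSum_log (by linarith) (rts π) h hx
  have h2 := (Complex.hasSum_taylorSeries_neg_log (norm_lt_one_of hR hx)).mul_left
    (((3 * n : ℕ) : ℂ))
  refine hs_congr (fun i => ?_) (h1.add h2)
  unfold bg
  ring

lemma hasSum_ph (hR : 1 ≤ R) {x : ℂ} (hx : ‖x‖ < 1 / R) :
    HasSum (fun i => ((PowerSeries.coeff i (ZZ lf (rt π)) : ℤ) : ℂ) * x ^ i) (ph π x) := by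
  have h1 := hasSum_g1_pow (3 * n) (norm_lt_one_of hR hx)
  have h2 := hasSum_poly_mul (Rev lf (rt π)) _ h1
  have h3 : Fintype.card (HE n) = 3 * n := by
    rw [Fintype.card_prod, Fintype.card_fin, Fintype.card_fin, mul_comm]
  unfold ZZ ph
  rw [h3]
  exact h2

lemma ph_eq_exp (hR : 1 ≤ R) (h : ∀ a ∈ rts π, ‖a‖ ≤ R) {x : ℂ} (hx : ‖x‖ < 1 / R) :
    ph π x = Complex.exp (gg π x) := by
  unfold ph gg
  rw [Rev_eval, Complex.exp_add, Complex.exp_multiset_sum, Multiset.map_map]
  have hne : ∀ y : ℂ, ‖y‖ < 1 → (1 : ℂ) - y ≠ 0 := by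
    intro y hy h0
    rw [sub_eq_zero] at h0
    rw [← h0] at hy
    simp at hy
  congr 1
  · congr 1
    refine Multiset.map_congr rfl fun a ha => ?_
    rw [Function.comp_apply, Complex.exp_log]
    apply hne
    rw [norm_mul]
    have h1 := h a ha
    have hR0 : 0 < R := by linarith
    rw [lt_div_iff₀ hR0] at hx
    calc ‖a‖ * ‖x‖ ≤ R * ‖x‖ := by gcongr
      _ < 1 := by rw [mul_comm]; exact hx
  · rw [Complex.exp_nat_mul, Complex.exp_neg, Complex.exp_log (hne x (norm_lt_one_of hR hx)),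
      inv_pow, one_div]

lemma norm_bg_le (hR : 1 ≤ R) (h : ∀ a ∈ rts π, ‖a‖ ≤ R) (j : ℕ) :
    ‖bg π j‖ ≤ (5 * n : ℝ) * R ^ j := by
  rcases Nat.eq_zero_or_pos j with rfl | hj
  · unfold bg bs
    simp only [Nat.cast_zero, div_zero, mul_zero, add_zero, norm_zero, pow_zero, mul_one]
    positivity
  · have h1 := norm_sum_pow_le (rts π) h j
    rw [card_rts] at h1
    have hj1 : (1 : ℝ) ≤ j := by exact_mod_cast hj
    have hR1 : (1 : ℝ) ≤ R ^ j := one_le_pow₀ hR
    have h2 : bg π j = (((3 * n : ℕ) : ℂ) - ((rts π).map fun a => a ^ j).sum) / j := by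
      unfold bg bs
      ring
    rw [h2, norm_div]
    have h3 : ‖(j : ℂ)‖ = j := by simp
    rw [h3, div_le_iff₀ (by linarith)]
    have h4 : ‖((3 * n : ℕ) : ℂ) - ((rts π).map fun a => a ^ j).sum‖ ≤ 3 * n + 2 * n * R ^ j := by
      refine (norm_sub_le _ _).trans ?_
      have h5 : ‖((3 * n : ℕ) : ℂ)‖ = 3 * n := by
        rw [Complex.norm_natCast]; push_cast; ring
      rw [h5]
      push_cast at h1
      linarith
    refine h4.trans ?_
    have hn : (0 : ℝ) ≤ n := by positivity
    have h6 : (3 * n : ℝ) ≤ 3 * n * R ^ j := by nlinarith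
    calc (3 * n + 2 * n * R ^ j : ℝ) ≤ 5 * n * R ^ j := by linarith
      _ ≤ 5 * n * R ^ j * j := by
          have : (0 : ℝ) ≤ 5 * n * R ^ j := by positivity
          nlinarith

lemma bg_zero : bg π 0 = 0 := by
  unfold bg bs
  simp

/-- the bootstrap applied to the model -/
theorem model_conclusion {J k : ℕ} {U θ M1 : ℝ} (hR1 : 1 ≤ R)
    (h : ∀ a ∈ rts π, ‖a‖ ≤ R) (hJ : 1 ≤ J) (hθ0 : 0 < θ) (hθ1 : θ < 1)
    (hθ : R * ((1 / 3) * (1 + 1 / (J : ℝ))) ≤ θ)
    (htail : (5 * n : ℝ) * θ ^ (J + 1) / (1 - θ) ≤ 1) (hU1 : 1 ≤ U)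
    (hU : tn k (ZZ lf (rt π)) ≤ U) (hM1 : 6 * J * Real.log (U + 1) < M1)
    (hc : Real.exp (3 * J * M1 + 1) * (J + 1) * ((J : ℝ) / (J + 1)) ^ (k + 1) ≤ 1) :
    |((PowerSeries.coeff k (ZZ lf (rt π)) : ℤ) : ℝ)| * (1 / 3) ^ k ≤
      Real.exp (18 * J ^ 2 * Real.log (U + 1) + 1) * ((J : ℝ) / (J + 1)) ^ k := by
  have hnorm : ∀ i, ‖((PowerSeries.coeff i (ZZ lf (rt π)) : ℤ) : ℂ)‖
      = |((PowerSeries.coeff i (ZZ lf (rt π)) : ℤ) : ℝ)| := by
    intro i
    rw [Complex.norm_intCast]
  let S : Setup :=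
    { R := R
      θ := θ
      C0 := 5 * n
      b := bg π
      ζ := fun i => ((PowerSeries.coeff i (ZZ lf (rt π)) : ℤ) : ℂ)
      g := gg π
      φ := ph π
      J := J
      k := k
      U := U
      hR1 := hR1
      hJ := hJ
      hθ0 := hθ0
      hθ1 := hθ1
      hθ := hθ
      hC0 := by positivity
      hg := fun x hx => hasSum_gg π hR1 h hx
      hb0 := bg_zero π
      hφ := fun x hx => hasSum_ph π hR1 hx
      hexp := fun x hx => ph_eq_exp π hR1 h hx
      hb := fun j => norm_bg_le π hR1 h j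
      htail := htail
      hU1 := hU1
      hU := by
        simp only [hnorm]
        exact hU }
  have := S.conclusion hM1 hc
  have h2 : ‖S.ζ S.k‖ = |((PowerSeries.coeff k (ZZ lf (rt π)) : ℤ) : ℝ)| := hnorm k
  rw [h2] at this
  exact this

end model

end Pool.Agent.Work.MP_cd2e96_co
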