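import Pool.Agent.Work.MP_cd2e96_co.Params
import Pool.Agent.Work.MP_cd2e96_co.Cycles
import Pool.Agent.Work.MP_cd2e96_co.Link

/-!
# Existence of chromatic roots near the circle of radius three
-/

namespace Pool.Agent.Work.MP_cd2e96_co

open Finset
open scoped Nat

/-- a large even term of the binomial expansion of `3 ^ N` -/
lemma even_term {N : ℕ} (hN : 1 ≤ N) : ∃ m, 2 * m ≤ N ∧
    ((3 : ℝ) ^ N - 1) / (2 * (N + 1)) ≤ 4 ^ m * (N.choose (2 * m) : ℕ) := by
  by_contra hcon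
  push Not at hcon
  have h1 := add_pow (2 : ℝ) 1 N
  have h2 := add_pow (-2 : ℝ) 1 N
  have h3 : (2 + 1 : ℝ) = 3 := by norm_num
  have h4 : (-2 + 1 : ℝ) = -1 := by norm_num
  rw [h3] at h1
  rw [h4] at h2
  have h3N : (1 : ℝ) < 3 ^ N := one_lt_pow₀ (by norm_num) (by omega)
  have h5 : ∑ j ∈ range (N + 1), ((2 : ℝ) ^ j * 1 ^ (N - j) * (N.choose j : ℕ) +
      (-2 : ℝ) ^ j * 1 ^ (N - j) * (N.choose j : ℕ)) <
      ∑ _j ∈ range (N + 1), ((3 : ℝ) ^ N - 1) / (N + 1) := by
    refine Finset.sum_lt_sum_of_nonempty ⟨0, by simp⟩ fun j hj => ?_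
    rw [mem_range] at hj
    rcases Nat.even_or_odd j with he | ho
    · obtain ⟨m, hm⟩ := he
      have hm2 : j = 2 * m := by omega
      subst hm2
      have h6 := hcon m (by omega)
      have h7 : (-2 : ℝ) ^ (2 * m) = 4 ^ m := by
        rw [pow_mul]; norm_num
      have h8 : (2 : ℝ) ^ (2 * m) = 4 ^ m := by
        rw [pow_mul]; norm_num
      rw [h7, h8, one_pow, mul_one]
      have h9 : ((3 : ℝ) ^ N - 1) / (N + 1) = 2 * (((3 : ℝ) ^ N - 1) / (2 * (N + 1))) := by
        field_simp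
      rw [h9]
      linarith
    · have h6 : (-2 : ℝ) ^ j = -(2 : ℝ) ^ j := ho.neg_pow 2
      rw [h6]
      have h7 : (2 : ℝ) ^ j * 1 ^ (N - j) * (N.choose j : ℕ) +
        -(2 : ℝ) ^ j * 1 ^ (N - j) * (N.choose j : ℕ) = 0 := by ring
      rw [h7]
      apply div_pos
      · linarith
      · positivity
  rw [Finset.sum_add_distrib, ← h1, ← h2, Finset.sum_const, card_range, nsmul_eq_mul] at h5
  have h6 : ((N + 1 : ℕ) : ℝ) * (((3 : ℝ) ^ N - 1) / (N + 1)) = 3 ^ N - 1 := by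
    push_cast
    field_simp
  rw [h6] at h5
  have h7 : (-1 : ℝ) ≤ (-1) ^ N := by
    rcases neg_one_pow_eq_or ℝ N with h | h
    · rw [h]; norm_num
    · rw [h]
  linarith

/-- For every `R < 3` one of the multigraphs has a chromatic root of modulus bigger than `R`. -/
theorem exists_big_root {R : ℝ} (hR3 : R < 3) : ∃ n : ℕ, 0 < n ∧ ∃ π : Equiv.Perm (HE n),
    ∃ z : ℂ, Polynomial.aeval z (chromP lf (rt π)) = 0 ∧ R < ‖z‖ := by
  by_contra hcon
  push Not at hcon
  set R' := max R 1 with hR'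
  have hR1 : 1 ≤ R' := le_max_right _ _
  have hR'3 : R' < 3 := max_lt hR3 (by norm_num)
  obtain ⟨J, k, n, hJ, hk2, hn, hkn1, hkn2, hkn3, hθR, htail, hc, hfin⟩ :=
    params (θ := (1 + R' / 3) / 2) hR1 hR'3 rfl
  set θ := (1 + R' / 3) / 2 with hθ
  have hθ0 : 0 < θ := by rw [hθ]; linarith
  have hθ1 : θ < 1 := by rw [hθ]; linarith
  have hn' : (0 : ℝ) < n := by exact_mod_cast hn
  have hk' : (0 : ℝ) < k := by exact_mod_cast (by omega : 0 < k)
  have hroots : ∀ π : Equiv.Perm (HE n), ∀ a ∈ rts π, ‖a‖ ≤ R' := fun π a ha =>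
    (hcon n hn π a (mem_rts π ha)).trans (le_max_left _ _)
  obtain ⟨m, hm1, hm2⟩ := even_term (N := k - 1) (by omega)
  set U : ℝ := Real.exp ((J : ℝ) ^ 4) with hU
  have hU1 : 1 ≤ U := Real.one_le_exp (by positivity)
  have hlog : Real.log (U + 1) ≤ (J : ℝ) ^ 4 + 1 := by
    rw [Real.log_le_iff_le_exp (by linarith), Real.exp_add]
    have h1 : (2 : ℝ) ≤ Real.exp 1 := by
      have := Real.add_one_le_exp (1 : ℝ)
      linarith
    have h2 : Real.exp ((J : ℝ) ^ 4) = U := rfl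
    rw [h2]
    nlinarith
  have hlog0 : 0 ≤ Real.log (U + 1) := Real.log_nonneg (by linarith)
  set T1 : ℝ := Real.exp (18 * J ^ 2 * ((J : ℝ) ^ 4 + 1) + 1) * ((J : ℝ) / (J + 1)) ^ k with hT1
  have hT10 : 0 ≤ T1 := by rw [hT1]; positivity
  set cst : ℝ := ((k - 1).choose (2 * m) : ℕ) * (1 / 3) ^ k with hcst
  have hcst0 : 0 ≤ cst := by rw [hcst]; positivity
  have hLL0 : ∀ π : Equiv.Perm (HE n), 0 ≤ LL k π := fun π =>
    Finset.sum_nonneg fun a _ => by positivity
  have hLL30 : ∀ π : Equiv.Perm (HE n), 0 ≤ LL3 k π := fun π =>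
    Finset.sum_nonneg fun a _ => by positivity
  have hpt : ∀ π : Equiv.Perm (HE n), (#(Cyc π m) : ℝ) * cst ≤
      T1 + LL3 k π + 4 * n * (LL k π * Real.exp (-((J : ℝ) ^ 4))) := by
    intro π
    by_cases hg : LL k π ≤ U
    · have h1 := coeff_ZZ_ge (k := k) (i := m + 1) (by omega) (by omega) π (Cyc π m)
        (fun F hF => Cyc_prop hF)
      have h2 : 2 * (m + 1) - 2 = 2 * m := by omega
      rw [h2, mul_assoc] at h1
      have h3 := model_conclusion π (J := J) (k := k) (U := U) (θ := θ)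
        (M1 := 6 * J * ((J : ℝ) ^ 4 + 1) + 1) hR1 (hroots π) hJ hθ0 hθ1 hθR htail hU1
        ((tn_ZZ_le k π).trans hg) (by
          have : 6 * (J : ℝ) * Real.log (U + 1) ≤ 6 * J * ((J : ℝ) ^ 4 + 1) := by gcongr
          linarith) hc
      have h4 : Real.exp (18 * J ^ 2 * Real.log (U + 1) + 1) * ((J : ℝ) / (J + 1)) ^ k ≤ T1 := by
        rw [hT1]
        gcongr
      have h5 : 0 ≤ 4 * n * (LL k π * Real.exp (-((J : ℝ) ^ 4))) := by
        have := hLL0 π
        positivity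
      calc (#(Cyc π m) : ℝ) * cst ≤ _ := h1
        _ ≤ T1 + LL3 k π := by linarith [h3.trans h4]
        _ ≤ _ := by linarith
    · push Not at hg
      have h1 := card_Cyc_le π m
      have h2 : (#(Cyc π m) : ℝ) * cst ≤ 4 * n := by
        have h3 : (#(Cyc π m) : ℝ) ≤ 3 * n * 4 ^ (m + 1) := by exact_mod_cast h1
        have h4 : (4 : ℝ) ^ m * ((k - 1).choose (2 * m) : ℕ) ≤ 3 ^ (k - 1) := by
          have h5 := add_pow (2 : ℝ) 1 (k - 1)
          have h6 : (2 + 1 : ℝ) = 3 := by norm_num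
          rw [h6] at h5
          rw [h5]
          have h7 := Finset.single_le_sum (f := fun j => (2 : ℝ) ^ j * 1 ^ (k - 1 - j) *
            ((k - 1).choose j : ℕ)) (s := range (k - 1 + 1)) (fun j _ => by positivity)
            (mem_range.2 (show 2 * m < k - 1 + 1 by omega))
          refine le_trans (le_of_eq ?_) h7
          rw [one_pow, mul_one, pow_mul]
          norm_num
        have h8 : (3 : ℝ) ^ k = 3 * 3 ^ (k - 1) := by
          rw [← pow_succ']
          congr 1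
          omega
        calc (#(Cyc π m) : ℝ) * cst ≤ (3 * n * 4 ^ (m + 1)) * cst := by gcongr
          _ = 12 * n * (4 ^ m * ((k - 1).choose (2 * m) : ℕ)) * (1 / 3) ^ k := by
              rw [hcst]; ring
          _ ≤ 12 * n * 3 ^ (k - 1) * (1 / 3) ^ k := by gcongr
          _ = 4 * n := by
              rw [one_div, inv_pow, h8]
              field_simp
              norm_num
      have h9 : 1 ≤ LL k π * Real.exp (-((J : ℝ) ^ 4)) := by
        rw [Real.exp_neg, ← div_eq_mul_inv, le_div_iff₀ (Real.exp_pos _), one_mul]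
        exact hg.le
      have h10 : 4 * (n : ℝ) * 1 ≤ 4 * n * (LL k π * Real.exp (-((J : ℝ) ^ 4))) := by gcongr
      have := hLL30 π
      linarith
  clear_value T1
  have hsum := Finset.sum_le_sum fun π (_ : π ∈ (univ : Finset (Equiv.Perm (HE n)))) => hpt π
  rw [← Finset.sum_mul, Finset.sum_add_distrib, Finset.sum_add_distrib, ← Finset.mul_sum,
    ← Finset.sum_mul, Finset.sum_const, card_univ, Fintype.card_perm] at hsum
  have hHE : Fintype.card (HE n) = 3 * n := by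
    rw [Fintype.card_prod, Fintype.card_fin, Fintype.card_fin, mul_comm]
  rw [hHE, nsmul_eq_mul] at hsum
  set M : ℝ := (((3 * n)! : ℕ) : ℝ) with hM
  have hM0 : 0 < M := by rw [hM]; exact_mod_cast Nat.factorial_pos _
  have hL := sum_LL_le hn hkn1 hkn2
  have hL3 := sum_LL3_le hn hkn1 hkn2
  have hmk : m + 1 ≤ k := by omega
  have hC := sum_Cyc_ge' (n := n) (m := m) hn (by
    refine le_trans ?_ hkn3
    gcongr)
  rw [← hM] at hL hL3 hC
  -- lower bound
  have hlow : M * (1 / (12 * (k : ℝ) ^ 2)) ≤ (∑ π : Equiv.Perm (HE n), (#(Cyc π m) : ℝ)) * cst := by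
    have h1 : M * (4 ^ (m + 1) / (4 * (m + 1))) * cst ≤
        (∑ π : Equiv.Perm (HE n), (#(Cyc π m) : ℝ)) * cst := by gcongr
    refine le_trans ?_ h1
    have h2 : M * (4 ^ (m + 1) / (4 * (m + 1))) * cst
        = M * ((4 ^ m * ((k - 1).choose (2 * m) : ℕ)) / ((m + 1) * 3 ^ k)) := by
      rw [hcst, one_div, inv_pow, pow_succ]
      field_simp
    rw [h2]
    have h3 : (((k - 1 : ℕ) : ℝ) + 1) = k := by
      rw [Nat.cast_sub (by omega)]
      push_cast
      ring
    rw [h3] at hm2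
    have h8 : (3 : ℝ) ^ k = 3 * 3 ^ (k - 1) := by
      rw [← pow_succ']
      congr 1
      omega
    have h9 : (3 : ℝ) ≤ 3 ^ (k - 1) := by
      calc (3 : ℝ) = 3 ^ 1 := (pow_one _).symm
        _ ≤ 3 ^ (k - 1) := pow_le_pow_right₀ (by norm_num) (by omega)
    have h10 : 1 / (12 * (k : ℝ) ^ 2) ≤
        (4 ^ m * ((k - 1).choose (2 * m) : ℕ)) / ((m + 1) * 3 ^ k) := by
      have h11 : ((m : ℝ) + 1) ≤ k := by exact_mod_cast hmk
      have h12 : (((3 : ℝ) ^ (k - 1) - 1) / (2 * k)) / (k * 3 ^ k) ≤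
          (4 ^ m * ((k - 1).choose (2 * m) : ℕ)) / ((m + 1) * 3 ^ k) := by
        apply div_le_div₀ (by positivity) hm2 (by positivity)
        gcongr
      refine le_trans ?_ h12
      rw [h8, div_div, div_le_div_iff₀ (by positivity) (by positivity)]
      set t : ℝ := 3 ^ (k - 1) with ht
      have h13 : 1 * (2 * (k : ℝ) * (k * (3 * t))) = (6 * t) * (k : ℝ) ^ 2 := by ring
      have h14 : (t - 1) * (12 * (k : ℝ) ^ 2) = (12 * (t - 1)) * (k : ℝ) ^ 2 := by ring
      rw [h13, h14]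
      have h15 : 6 * t ≤ 12 * (t - 1) := by linarith
      exact mul_le_mul_of_nonneg_right h15 (by positivity)
    gcongr
  have hup : M * T1 + ∑ π : Equiv.Perm (HE n), LL3 k π +
      4 * n * ((∑ π : Equiv.Perm (HE n), LL k π) * Real.exp (-((J : ℝ) ^ 4))) ≤
      M * (T1 + MM k * (360000 * (k : ℝ) ^ 3 / n) +
        4 * n * (MM k * Real.exp (-((J : ℝ) ^ 4)))) := by
    have h1 : 4 * n * ((∑ π : Equiv.Perm (HE n), LL k π) * Real.exp (-((J : ℝ) ^ 4))) ≤
        4 * n * ((M * MM k) * Real.exp (-((J : ℝ) ^ 4))) := by gcongr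
    calc _ ≤ M * T1 + M * (MM k * (360000 * (k : ℝ) ^ 3 / n)) +
          4 * n * ((M * MM k) * Real.exp (-((J : ℝ) ^ 4))) := by linarith
      _ = _ := by ring
  have hcontra := (hlow.trans hsum).trans hup
  have hlt : M * (T1 + MM k * (360000 * (k : ℝ) ^ 3 / n) +
        4 * n * (MM k * Real.exp (-((J : ℝ) ^ 4)))) < M * (1 / (12 * (k : ℝ) ^ 2)) := by
    gcongr
  linarith

end Pool.Agent.Work.MP_cd2e96_co
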