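import Mathlib

/-!
# Coefficient estimates for power series
-/

namespace Pool.Agent.Work.MP_cd2e96_co

open Filter Topology Metric

/-- a convergent power series on the disc of radius `R` gives an analytic function -/
theorem hasFPS {a : ℕ → ℂ} {f : ℂ → ℂ} {R : ℝ} (hR : 0 < R)
    (h : ∀ x : ℂ, ‖x‖ < R → HasSum (fun i => a i * x ^ i) (f x)) :
    HasFPowerSeriesOnBall f (FormalMultilinearSeries.ofScalars ℂ a) 0 (ENNReal.ofReal R) where
  r_le := by
    refine ENNReal.le_of_forall_nnreal_lt fun r hr => ?_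
    have hr' : (r : ℝ) < R := by
      rw [ENNReal.ofReal, ENNReal.coe_lt_coe] at hr
      rw [← NNReal.coe_lt_coe] at hr
      rwa [Real.coe_toNNReal _ hR.le] at hr
    have hs := (h (r : ℂ) (by simpa using hr')).summable
    have ht := hs.tendsto_atTop_zero.norm
    refine FormalMultilinearSeries.le_radius_of_tendsto _ (l := 0) ?_
    simpa [FormalMultilinearSeries.ofScalars_norm] using ht
  r_pos := by simpa using hR
  hasSum := by
    intro y hy
    have hy' : ‖y‖ < R := by
      rw [Metric.eball_ofReal, mem_ball_zero_iff] at hy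
      exact hy
    have := h y hy'
    simpa [FormalMultilinearSeries.ofScalars_apply_eq, mul_comm] using this

theorem differentiableOn_of_hasSum {a : ℕ → ℂ} {f : ℂ → ℂ} {R : ℝ} (hR : 0 < R)
    (h : ∀ x : ℂ, ‖x‖ < R → HasSum (fun i => a i * x ^ i) (f x)) :
    DifferentiableOn ℂ f (ball 0 R) := by
  have := (hasFPS hR h).differentiableOn
  rwa [Metric.eball_ofReal] at this

/-- Cauchy's estimate for the coefficients of a power series. -/
theorem coeff_bound {a : ℕ → ℂ} {f : ℂ → ℂ} {r R C : ℝ} (hr : 0 < r) (hrR : r < R)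
    (h : ∀ x : ℂ, ‖x‖ < R → HasSum (fun i => a i * x ^ i) (f x))
    (hC : ∀ x : ℂ, ‖x‖ = r → ‖f x‖ ≤ C) (i : ℕ) : ‖a i‖ * r ^ i ≤ C := by
  have hR : 0 < R := hr.trans hrR
  have h1 := (hasFPS hR h).hasFPowerSeriesAt
  have hd := differentiableOn_of_hasSum hR h
  have hd' : DifferentiableOn ℂ f (closedBall 0 r) := by
    refine hd.mono fun x hx => ?_
    rw [mem_closedBall_zero_iff] at hx
    rw [mem_ball_zero_iff]
    exact lt_of_le_of_lt hx hrR
  have h2 := (DifferentiableOn.hasFPowerSeriesOnBall (R := ⟨r, hr.le⟩) hd' hr).hasFPowerSeriesAt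
  have h3 : FormalMultilinearSeries.ofScalars ℂ a = cauchyPowerSeries f 0 r :=
    h1.eq_formalMultilinearSeries h2
  have h4 : ‖a i‖ = ‖cauchyPowerSeries f 0 r i‖ := by
    have := congrArg (fun p : FormalMultilinearSeries ℂ ℂ ℂ => ‖p i‖) h3
    simpa [FormalMultilinearSeries.ofScalars_norm] using this
  have h5 := norm_cauchyPowerSeries_le f 0 r i
  have h6 : (2 * Real.pi)⁻¹ * ∫ θ : ℝ in (0 : ℝ)..2 * Real.pi, ‖f (circleMap 0 r θ)‖ ≤ C := by
    have hle : ∫ θ : ℝ in (0 : ℝ)..2 * Real.pi, ‖f (circleMap 0 r θ)‖ ≤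
        ∫ _ : ℝ in (0 : ℝ)..2 * Real.pi, C := by
      apply intervalIntegral.integral_mono_on (by positivity)
      · apply Continuous.intervalIntegrable
        have hc : ContinuousOn f (closedBall 0 r) := hd'.continuousOn
        refine Continuous.norm ?_
        refine hc.comp_continuous (continuous_circleMap 0 r) fun θ => ?_
        exact sphere_subset_closedBall (circleMap_mem_sphere 0 hr.le θ)
      · exact intervalIntegrable_const
      · intro θ _
        apply hC
        simpa using circleMap_mem_sphere 0 hr.le θ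
    rw [intervalIntegral.integral_const] at hle
    have hpi : 0 < 2 * Real.pi := by positivity
    calc (2 * Real.pi)⁻¹ * ∫ θ : ℝ in (0 : ℝ)..2 * Real.pi, ‖f (circleMap 0 r θ)‖
        ≤ (2 * Real.pi)⁻¹ * ((2 * Real.pi - 0) • C) := by gcongr
      _ = C := by
        rw [sub_zero, smul_eq_mul]
        field_simp
  rw [h4]
  have habs : |r| = r := abs_of_pos hr
  rw [habs] at h5
  calc ‖cauchyPowerSeries f 0 r i‖ * r ^ i
      ≤ (((2 * Real.pi)⁻¹ * ∫ θ : ℝ in (0 : ℝ)..2 * Real.pi, ‖f (circleMap 0 r θ)‖)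
          * r⁻¹ ^ i) * r ^ i := by gcongr
    _ = (2 * Real.pi)⁻¹ * ∫ θ : ℝ in (0 : ℝ)..2 * Real.pi, ‖f (circleMap 0 r θ)‖ := by
        rw [mul_assoc, ← mul_pow, inv_mul_cancel₀ hr.ne', one_pow, mul_one]
    _ ≤ C := h6

end Pool.Agent.Work.MP_cd2e96_co
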