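import Pool.Agent.Work.MP_cd2e96_co.Decomp

/-!
# Counting labelings and permutations
-/

namespace Pool.Agent.Work.MP_cd2e96_co

open Finset
open scoped Nat

variable {n : ℕ}

/-- number of vertices with two equal labels -/
def iit (a : Lbl n) (g : Fin 6) : ℕ := #{v | isTwo g (fun c => a (v, c))}
/-- number of vertices with three labels -/
def bb (a : Lbl n) : ℕ := #{v | isThree (fun c => a (v, c))}
/-- multiplicity of a label -/
def mm (a : Lbl n) (o : Option (Fin 6)) : ℕ := #{e | a e = o}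

lemma loc_count : ∀ c : Fin 3 → Option (Fin 6), okLoc c →
    #{i | c i ≠ none} = 2 * ∑ g, (if isTwo g c then 1 else 0) +
      3 * (if isThree c then 1 else 0) := by
  decide +kernel

lemma card_sum_fib (P : HE n → Prop) [DecidablePred P] :
    #{e | P e} = ∑ v, #{c | P (v, c)} := by
  simp only [Finset.card_filter]
  rw [Fintype.sum_prod_type]

lemma two_iit_le (a : Lbl n) (g : Fin 6) : 2 * iit a g ≤ mm a (some g) := by
  unfold iit mm
  rw [card_sum_fib, Finset.card_filter, Finset.mul_sum]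
  refine Finset.sum_le_sum fun v _ => ?_
  split_ifs with h
  · rw [mul_one]
    exact le_of_eq h.1.symm
  · simp

lemma card_supp {a : Lbl n} (ha : okH a) : #(supp a) = 2 * ∑ g, iit a g + 3 * bb a := by
  unfold iit bb supp
  rw [card_sum_fib]
  simp only [Finset.card_filter _ (univ : Finset (Fin n))]
  rw [Finset.sum_comm, Finset.mul_sum, Finset.mul_sum, ← Finset.sum_add_distrib]
  refine Finset.sum_congr rfl fun v _ => ?_
  exact loc_count _ (ha v)

lemma sum_mm (a : Lbl n) : ∑ o, mm a o = 3 * n := by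
  unfold mm
  rw [← Finset.card_eq_sum_card_fiberwise (f := a) (s := univ) (t := univ)
    (fun _ _ => by simp)]
  rw [card_univ, Fintype.card_prod, Fintype.card_fin, Fintype.card_fin, mul_comm]

lemma card_supp_add (a : Lbl n) : mm a none + #(supp a) = 3 * n := by
  have h : #(supp a) + #{e | a e = none} = 3 * n := by
    unfold supp
    have := Finset.card_filter_add_card_filter_not (s := (univ : Finset (HE n)))
      (fun e => a e = none)
    rw [card_univ, Fintype.card_prod, Fintype.card_fin, Fintype.card_fin] at this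
    simp only [ne_eq]
    omega
  unfold mm
  omega

lemma card_supp_eq_sum_mm (a : Lbl n) : #(supp a) = ∑ g, mm a (some g) := by
  have h1 := sum_mm a
  rw [Fintype.sum_option] at h1
  have h2 := card_supp_add a
  omega

/-! ### the factorial bound -/

lemma fact_aux : ∀ i : ℕ, 1 ≤ i → ((i ! : ℕ) : ℝ) ≤
    Real.exp 1 * i * (i ^ i * Real.exp (-i)) := by
  intro i hi
  induction i, hi using Nat.le_induction with
  | base =>
    have : Real.exp 1 * Real.exp (-1) = 1 := by rw [← Real.exp_add]; simp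
    simp only [Nat.factorial_one, Nat.cast_one, mul_one, one_pow, one_mul]
    rw [this]
  | succ i hi ih =>
    have hi0 : (0 : ℝ) < i := by exact_mod_cast hi
    have h1 : ((i : ℝ) / (i + 1)) ^ (i + 1) ≤ Real.exp (-1) := by
      have h2 : (i : ℝ) / (i + 1) ≤ Real.exp (-(1 / (i + 1))) := by
        have h3 := Real.one_sub_le_exp_neg (1 / ((i : ℝ) + 1))
        have h4 : 1 - 1 / ((i : ℝ) + 1) = i / (i + 1) := by field_simp; ring
        rwa [h4] at h3
      calc ((i : ℝ) / (i + 1)) ^ (i + 1) ≤ (Real.exp (-(1 / (i + 1)))) ^ (i + 1) := by gcongr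
        _ = Real.exp (-1) := by
          rw [← Real.exp_nat_mul]
          congr 1
          push_cast
          field_simp
    have h5 : (i : ℝ) ^ (i + 1) ≤ Real.exp (-1) * (i + 1) ^ (i + 1) := by
      rw [div_pow, div_le_iff₀ (by positivity)] at h1
      exact h1
    rw [Nat.factorial_succ]
    push_cast
    calc ((i : ℝ) + 1) * (i ! : ℕ) ≤ (i + 1) * (Real.exp 1 * i * (i ^ i * Real.exp (-i))) := by
          gcongr
      _ = Real.exp 1 * (i + 1) * (i ^ (i + 1) * Real.exp (-i)) := by ring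
      _ ≤ Real.exp 1 * (i + 1) * ((Real.exp (-1) * (i + 1) ^ (i + 1)) * Real.exp (-i)) := by
          gcongr
      _ = Real.exp 1 * (i + 1) * ((i + 1) ^ (i + 1) * (Real.exp (-1) * Real.exp (-i))) := by ring
      _ = _ := by
          rw [← Real.exp_add]
          congr 3
          ring

lemma fact_le (i : ℕ) : ((i ! : ℕ) : ℝ) ≤ Real.exp 1 * (i + 1) * (i ^ i * Real.exp (-i)) := by
  rcases Nat.eq_zero_or_pos i with rfl | hi
  · simp only [Nat.factorial_zero, Nat.cast_one, Nat.cast_zero, zero_add, mul_one, pow_zero,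
      neg_zero, Real.exp_zero]
    exact Real.one_le_exp (by norm_num)
  · refine (fact_aux i hi).trans ?_
    gcongr
    linarith

/-! ### local weights -/

/-- weight of a local configuration -/
noncomputable def wt (y : Fin 6 → ℝ) (u : ℝ) (c : Fin 3 → Option (Fin 6)) : ℝ :=
  if okLoc c then (∏ g, if isTwo g c then y g else 1) * (if isThree c then u else 1) else 0

lemma wt_nonneg {y : Fin 6 → ℝ} {u : ℝ} (hy : ∀ g, 0 ≤ y g) (hu : 0 ≤ u)
    (c : Fin 3 → Option (Fin 6)) : 0 ≤ wt y u c := by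
  unfold wt
  split_ifs
  · refine mul_nonneg (Finset.prod_nonneg fun g _ => ?_) hu
    split_ifs
    · exact hy g
    · exact zero_le_one
  · refine mul_nonneg (Finset.prod_nonneg fun g _ => ?_) zero_le_one
    split_ifs
    · exact hy g
    · exact zero_le_one
  · exact le_rfl

lemma wt_eq (y : Fin 6 → ℝ) (u : ℝ) (c : Fin 3 → Option (Fin 6)) :
    wt y u c = (if isZero c then 1 else 0) + (∑ g, if isTwo g c then y g else 0)
      + (if isThree c then u else 0) := by
  unfold wt
  by_cases h0 : isZero c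
  · have h2 : ∀ g, ¬ isTwo g c := fun g h => isTwo_not_zero g c h h0
    have h3 : ¬ isThree c := fun h => h 0 (h0 0)
    rw [if_pos (show okLoc c from Or.inl h0)]
    simp [h0, h2, h3]
  · by_cases h2 : ∃ g, isTwo g c
    · obtain ⟨g₀, hg₀⟩ := h2
      have h3 : ¬ isThree c := isTwo_not_three g₀ c hg₀
      have h4 : ∀ g, isTwo g c ↔ g = g₀ := by
        intro g
        constructor
        · intro h; exact isTwo_unique g g₀ c h hg₀
        · rintro rfl; exact hg₀
      rw [if_pos (show okLoc c from Or.inr (Or.inl ⟨g₀, hg₀⟩))]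
      simp [h0, h3, h4]
    · have h2' : ∀ g, ¬ isTwo g c := by
        intro g h; exact h2 ⟨g, h⟩
      by_cases h3 : isThree c
      · rw [if_pos (show okLoc c from Or.inr (Or.inr h3))]
        simp [h0, h2', h3]
      · have h4 : ¬ okLoc c := by
          rintro (h | h | h)
          · exact h0 h
          · exact h2 h
          · exact h3 h
        rw [if_neg h4]
        simp [h0, h2', h3]

lemma sum_wt (y : Fin 6 → ℝ) (u : ℝ) :
    ∑ c, wt y u c = 1 + 3 * ∑ g, y g + 216 * u := by
  simp only [wt_eq]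
  rw [Finset.sum_add_distrib, Finset.sum_add_distrib, Finset.sum_comm]
  have h1 : ∑ c : Fin 3 → Option (Fin 6), (if isZero c then (1 : ℝ) else 0) = 1 := by
    rw [← Finset.sum_filter, Finset.sum_const, card_isZero]
    simp
  have h2 : ∀ g, ∑ c : Fin 3 → Option (Fin 6), (if isTwo g c then y g else 0) = 3 * y g := by
    intro g
    rw [← Finset.sum_filter, Finset.sum_const, card_isTwo]
    simp
  have h3 : ∑ c : Fin 3 → Option (Fin 6), (if isThree c then u else 0) = 216 * u := by
    rw [← Finset.sum_filter, Finset.sum_const, card_isThree]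
    simp
  rw [h1, h3]
  simp only [h2]
  rw [Finset.mul_sum]

lemma sum_prod_wt (y : Fin 6 → ℝ) (u : ℝ) :
    ∑ a : Lbl n, ∏ v, wt y u (fun c => a (v, c)) = (1 + 3 * ∑ g, y g + 216 * u) ^ n := by
  rw [← sum_wt, Fintype.sum_pow]
  refine Fintype.sum_equiv (Equiv.curry (Fin n) (Fin 3) (Option (Fin 6))) _ _ ?_
  intro a
  rfl

lemma prod_wt (y : Fin 6 → ℝ) (u : ℝ) {a : Lbl n} (ha : okH a) :
    ∏ v, wt y u (fun c => a (v, c)) = (∏ g, y g ^ iit a g) * u ^ bb a := by
  have h1 : ∀ v, wt y u (fun c => a (v, c)) =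
      (∏ g, if isTwo g (fun c => a (v, c)) then y g else 1) *
        (if isThree (fun c => a (v, c)) then u else 1) := by
    intro v
    unfold wt
    rw [if_pos (ha v)]
  simp only [h1]
  rw [Finset.prod_mul_distrib, Finset.prod_comm]
  congr 1
  · refine Finset.prod_congr rfl fun g _ => ?_
    rw [Finset.prod_ite, prod_const, prod_const_one, mul_one]
    rfl
  · rw [Finset.prod_ite, prod_const, prod_const_one, mul_one]
    rfl

/-- normalised weight of a labeling -/
noncomputable def WW (a : Lbl n) : ℝ :=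
  (∏ g, ((iit a g) ! : ℝ)) / ((3 * n) ^ (∑ g, iit a g) * (600 * n) ^ bb a)

lemma WW_nonneg (a : Lbl n) : 0 ≤ WW a := by
  unfold WW
  positivity

/-- admissible labelings of one side -/
def AA (n k : ℕ) : Finset (Lbl n) := {a | okH a ∧ #(supp a) ≤ 3 * k}

lemma iit_le {a : Lbl n} {k : ℕ} (ha : a ∈ AA n k) (g : Fin 6) : iit a g ≤ 3 * k := by
  rw [AA, mem_filter] at ha
  have h1 := two_iit_le a g
  have h2 := card_supp_eq_sum_mm a
  have h3 : mm a (some g) ≤ ∑ g, mm a (some g) :=
    Finset.single_le_sum (f := fun g => mm a (some g)) (fun _ _ => Nat.zero_le _) (mem_univ g)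
  omega

theorem sum_WW_le (hn : 0 < n) (k : ℕ) :
    ∑ a ∈ AA n k, WW a ≤ Real.exp 7 * ((3 * k : ℕ) + 1) ^ 12 := by
  set D := 3 * k with hD
  have hn' : (0 : ℝ) < n := by exact_mod_cast hn
  have h1 : ∀ a ∈ AA n k, WW a ≤ (Real.exp 1 * (D + 1)) ^ 6 *
      ∑ y : Fin 6 → Fin (D + 1), (∏ g, Real.exp (-((y g : ℕ) : ℝ))) *
        ∏ v, wt (fun g => ((y g : ℕ) : ℝ) / (3 * n)) (1 / (600 * n)) (fun c => a (v, c)) := by
    intro a ha
    have hok : okH a := by
      rw [AA, mem_filter] at ha
      exact ha.2.1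
    have hle := fun g => iit_le ha g
    have h2 : ∏ g, ((iit a g) ! : ℝ) ≤ (Real.exp 1 * (D + 1)) ^ 6 *
        ∏ g, ((iit a g : ℝ) ^ iit a g * Real.exp (-(iit a g : ℝ))) := by
      have h3 : (Real.exp 1 * ((D : ℝ) + 1)) ^ 6 = ∏ _g : Fin 6, (Real.exp 1 * ((D : ℝ) + 1)) := by
        rw [prod_const]; rfl
      rw [h3, ← Finset.prod_mul_distrib]
      refine Finset.prod_le_prod (fun g _ => by positivity) fun g _ => ?_
      refine (fact_le _).trans ?_
      have : (iit a g : ℝ) ≤ D := by exact_mod_cast hle g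
      gcongr
    let y₀ : Fin 6 → Fin (D + 1) := fun g => ⟨iit a g, Nat.lt_succ_of_le (hle g)⟩
    have h4 : WW a ≤ (Real.exp 1 * (D + 1)) ^ 6 * ((∏ g, Real.exp (-((y₀ g : ℕ) : ℝ))) *
        ∏ v, wt (fun g => ((y₀ g : ℕ) : ℝ) / (3 * n)) (1 / (600 * n)) (fun c => a (v, c))) := by
      rw [prod_wt _ _ hok]
      unfold WW
      rw [div_le_iff₀ (by positivity)]
      refine h2.trans (le_of_eq ?_)
      simp only [y₀]
      rw [Finset.prod_mul_distrib]
      simp only [div_pow]
      rw [Finset.prod_div_distrib, Finset.prod_pow_eq_pow_sum]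
      field_simp
      ring
    refine h4.trans ?_
    gcongr
    refine Finset.single_le_sum (f := fun y : Fin 6 → Fin (D + 1) =>
      (∏ g, Real.exp (-((y g : ℕ) : ℝ))) *
        ∏ v, wt (fun g => ((y g : ℕ) : ℝ) / (3 * n)) (1 / (600 * n)) (fun c => a (v, c)))
      (fun y _ => ?_) (mem_univ y₀)
    refine mul_nonneg (by positivity) (Finset.prod_nonneg fun v _ => ?_)
    exact wt_nonneg (fun g => by positivity) (by positivity) _
  refine (Finset.sum_le_sum h1).trans ?_
  rw [← Finset.mul_sum, Finset.sum_comm]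
  have h5 : ∀ y : Fin 6 → Fin (D + 1), ∑ a ∈ AA n k, (∏ g, Real.exp (-((y g : ℕ) : ℝ))) *
        ∏ v, wt (fun g => ((y g : ℕ) : ℝ) / (3 * n)) (1 / (600 * n)) (fun c => a (v, c))
      ≤ Real.exp (9 / 25) := by
    intro y
    rw [← Finset.mul_sum]
    have h6 : ∑ a ∈ AA n k,
        ∏ v, wt (fun g => ((y g : ℕ) : ℝ) / (3 * n)) (1 / (600 * n)) (fun c => a (v, c))
        ≤ (1 + 3 * ∑ g, (((y g : ℕ) : ℝ) / (3 * n)) + 216 * (1 / (600 * n))) ^ n := by
      rw [← sum_prod_wt]
      refine Finset.sum_le_sum_of_subset_of_nonneg (subset_univ _) fun a _ _ => ?_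
      refine Finset.prod_nonneg fun v _ => ?_
      exact wt_nonneg (fun g => by positivity) (by positivity) _
    have h7 : (1 + 3 * ∑ g, (((y g : ℕ) : ℝ) / (3 * n)) + 216 * (1 / (600 * n))) ^ n
        ≤ Real.exp (∑ g, ((y g : ℕ) : ℝ) + 9 / 25) := by
      set t : ℝ := ∑ g, ((y g : ℕ) : ℝ) + 9 / 25 with ht
      have h8 : 1 + 3 * ∑ g, (((y g : ℕ) : ℝ) / (3 * n)) + 216 * (1 / (600 * n)) = t / n + 1 := by
        rw [← Finset.sum_div, ht]
        field_simp
        ring
      rw [h8]
      have h9 : 0 ≤ t := by rw [ht]; positivity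
      calc (t / n + 1) ^ n ≤ (Real.exp (t / n)) ^ n := by
            gcongr
            exact Real.add_one_le_exp _
        _ = Real.exp t := by
            rw [← Real.exp_nat_mul]
            congr 1
            field_simp
    calc (∏ g, Real.exp (-((y g : ℕ) : ℝ))) * ∑ a ∈ AA n k,
          ∏ v, wt (fun g => ((y g : ℕ) : ℝ) / (3 * n)) (1 / (600 * n)) (fun c => a (v, c))
        ≤ (∏ g, Real.exp (-((y g : ℕ) : ℝ))) * Real.exp (∑ g, ((y g : ℕ) : ℝ) + 9 / 25) := by
          gcongr
          exact h6.trans h7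
      _ = Real.exp (9 / 25) := by
          rw [← Real.exp_sum, ← Real.exp_add, Finset.sum_neg_distrib]
          congr 1
          ring
  calc (Real.exp 1 * ((D : ℝ) + 1)) ^ 6 * ∑ y : Fin 6 → Fin (D + 1), ∑ a ∈ AA n k,
        (∏ g, Real.exp (-((y g : ℕ) : ℝ))) *
        ∏ v, wt (fun g => ((y g : ℕ) : ℝ) / (3 * n)) (1 / (600 * n)) (fun c => a (v, c))
      ≤ (Real.exp 1 * ((D : ℝ) + 1)) ^ 6 * ∑ _y : Fin 6 → Fin (D + 1), Real.exp (9 / 25) := by
        gcongr with y _
        exact h5 y
    _ = (Real.exp 1 ^ 6 * Real.exp (9 / 25)) * ((D : ℝ) + 1) ^ 12 := by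
        rw [Finset.sum_const, card_univ, Fintype.card_fun, Fintype.card_fin, Fintype.card_fin,
          nsmul_eq_mul]
        push_cast
        ring
    _ ≤ Real.exp 7 * ((D : ℝ) + 1) ^ 12 := by
        gcongr
        rw [← Real.exp_nat_mul, ← Real.exp_add]
        apply Real.exp_le_exp.2
        norm_num

end Pool.Agent.Work.MP_cd2e96_co
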