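import Pool.Agent.Work.MP_cd2e96_co.Config

/-!
# First moments over random permutations
-/

namespace Pool.Agent.Work.MP_cd2e96_co

open Finset
open scoped Nat

variable {n : ℕ}

lemma card_transport (a a' : Lbl n) :
    #{π : Equiv.Perm (HE n) | a' ∘ π = a} ≤ ∏ o, (mm a o)! := by
  rcases Finset.eq_empty_or_nonempty (univ.filter fun π : Equiv.Perm (HE n) => a' ∘ π = a) with h | h
  · rw [h, card_empty]; exact Nat.zero_le _
  · obtain ⟨π₀, hπ₀⟩ := h
    rw [mem_filter] at hπ₀
    have h1 := DomMulAct.stabilizer_card a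
    have h2 : Fintype.card {g : Equiv.Perm (HE n) // a ∘ g = a} = ∏ o, (mm a o)! := by
      rw [h1]
      refine Finset.prod_congr rfl fun o _ => ?_
      rw [mm, Fintype.card_subtype]
    rw [← h2, Fintype.card_subtype]
    refine Finset.card_le_card_of_injOn (fun π => π.trans π₀.symm) ?_ ?_
    · intro π hπ
      simp only [mem_coe, mem_filter, mem_univ, true_and] at hπ ⊢
      funext x
      simp only [Function.comp_apply, Equiv.trans_apply]
      have h3 := congrFun hπ₀.2 (π₀.symm (π x))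
      simp only [Function.comp_apply, Equiv.apply_symm_apply] at h3
      rw [← h3]
      exact congrFun hπ x
    · intro π _ π' _ h
      ext1 x
      have h4 := Equiv.congr_fun h x
      simp only [Equiv.trans_apply] at h4
      exact π₀.symm.injective h4

lemma mm_eq_of_transport {a a' : Lbl n} {π : Equiv.Perm (HE n)} (h : a' ∘ π = a)
    (o : Option (Fin 6)) : mm a o = mm a' o := by
  unfold mm
  refine Finset.card_bij (fun e _ => π e) ?_ ?_ ?_
  · intro e he
    rw [mem_filter] at he ⊢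
    refine ⟨mem_univ _, ?_⟩
    rw [← he.2, ← h]
    rfl
  · intro e _ e' _ h
    exact π.injective h
  · intro e he
    rw [mem_filter] at he
    refine ⟨π.symm e, ?_, by simp⟩
    rw [mem_filter]
    refine ⟨mem_univ _, ?_⟩
    rw [← h, Function.comp_apply, Equiv.apply_symm_apply]
    exact he.2

lemma supp_eq_of_transport {a a' : Lbl n} {π : Equiv.Perm (HE n)} (h : a' ∘ π = a) :
    #(supp a) = #(supp a') := by
  have h1 := card_supp_add a
  have h2 := card_supp_add a'
  have h3 := mm_eq_of_transport h none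
  omega

lemma desc_bound {N s : ℕ} (hN : 0 < N) (hs : 2 * s ^ 2 ≤ N) :
    (((N - s) ! : ℕ) : ℝ) * N ^ s ≤ 2 * (N ! : ℕ) := by
  have hN' : (0 : ℝ) < N := by exact_mod_cast hN
  have hsN : s ≤ N := by nlinarith
  have h1 := Nat.factorial_mul_descFactorial hsN
  have h2 := Nat.pow_sub_le_descFactorial N s
  have h3 : (N : ℝ) ^ s ≤ 2 * (N.descFactorial s : ℕ) := by
    have h4 : ((N : ℝ) - s) ^ s ≤ (N.descFactorial s : ℕ) := by
      have h5 : (((N + 1 - s) ^ s : ℕ) : ℝ) ≤ (N.descFactorial s : ℕ) := by exact_mod_cast h2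
      refine le_trans ?_ h5
      push_cast
      rw [Nat.cast_sub (by omega)]
      push_cast
      have h6 : (0 : ℝ) ≤ N - s := by
        rw [sub_nonneg]; exact_mod_cast hsN
      gcongr
      linarith
    have h7 : (1 : ℝ) / 2 ≤ (1 + -((s : ℝ) / N)) ^ s := by
      have h8 := one_add_mul_le_pow (a := -((s : ℝ) / N)) (by
        have : (s : ℝ) / N ≤ 1 := by
          rw [div_le_one hN']; exact_mod_cast hsN
        linarith) s
      refine le_trans ?_ h8
      have h9 : (s : ℝ) * ((s : ℝ) / N) ≤ 1 / 2 := by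
        rw [← mul_div_assoc, div_le_iff₀ hN']
        have : (2 * (s : ℝ) ^ 2) ≤ N := by exact_mod_cast hs
        nlinarith
      nlinarith
    have h10 : ((N : ℝ) - s) = N * (1 + -((s : ℝ) / N)) := by
      field_simp
      ring
    rw [h10, mul_pow] at h4
    have h11 : (N : ℝ) ^ s * (1 / 2) ≤ N ^ s * (1 + -((s : ℝ) / N)) ^ s := by gcongr
    linarith
  calc (((N - s) ! : ℕ) : ℝ) * N ^ s ≤ ((N - s) ! : ℕ) * (2 * (N.descFactorial s : ℕ)) := by gcongr
    _ = 2 * (((N - s) ! * N.descFactorial s : ℕ) : ℝ) := by push_cast; ring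
    _ = _ := by rw [h1]

lemma fact_split {s i i' D : ℕ} (h1 : 2 * i ≤ s) (h2 : 2 * i' ≤ s) (h3 : s ≤ D) :
    s ! ≤ 2 ^ s * (i ! * i' !) * D ^ (s - i - i') := by
  have h4 : i ≤ s := by omega
  have h5 : i' ≤ s - i := by omega
  have h6 := Nat.choose_mul_factorial_mul_factorial h4
  have h7 : s.choose i ≤ 2 ^ s := Nat.choose_le_two_pow s i
  have h8 : (s - i) ! ≤ i' ! * D ^ (s - i - i') := by
    have h9 := Nat.factorial_mul_descFactorial (n := s - i) (k := s - i - i') (by omega)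
    have h10 : s - i - (s - i - i') = i' := by omega
    rw [h10] at h9
    rw [← h9]
    have h11 := Nat.descFactorial_le_pow (s - i) (s - i - i')
    have h12 : (s - i) ^ (s - i - i') ≤ D ^ (s - i - i') := Nat.pow_le_pow_left (by omega) _
    exact Nat.mul_le_mul_left _ (h11.trans h12)
  calc s ! = s.choose i * i ! * (s - i) ! := h6.symm
    _ ≤ 2 ^ s * i ! * (i' ! * D ^ (s - i - i')) := by gcongr
    _ = _ := by ring

lemma pair_bound (hn : 0 < n) {k : ℕ} (hk : 2 * (3 * k) ^ 2 ≤ 3 * n) {a a' : Lbl n}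
    (ha : a ∈ AA n k) (ha' : a' ∈ AA n k) {π : Equiv.Perm (HE n)} (hπ : a' ∘ π = a) :
    ∃ d, bb a + bb a' = 2 * d ∧
      (#{π : Equiv.Perm (HE n) | a' ∘ π = a} : ℝ) * (1 / 2) ^ #(supp a) ≤
      (((3 * n) ! : ℕ) : ℝ) * (2 * WW a * WW a' * (360000 * k ^ 3 / n) ^ d) := by
  have hn' : (0 : ℝ) < n := by exact_mod_cast hn
  have hok : okH a ∧ #(supp a) ≤ 3 * k := by rw [AA, mem_filter] at ha; exact ha.2
  have hok' : okH a' ∧ #(supp a') ≤ 3 * k := by rw [AA, mem_filter] at ha'; exact ha'.2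
  have hs := card_supp hok.1
  have hs' := card_supp hok'.1
  have hss := supp_eq_of_transport hπ
  set s := #(supp a) with hsdef
  set i := ∑ g, iit a g with hidef
  set i' := ∑ g, iit a' g with hi'def
  obtain ⟨d, hd⟩ : ∃ d, bb a + bb a' = 2 * d := ⟨(bb a + bb a') / 2, by omega⟩
  refine ⟨d, hd, ?_⟩
  have hsd : s = i + i' + 3 * d := by omega
  -- number of permutations
  have h1 : (#{π : Equiv.Perm (HE n) | a' ∘ π = a} : ℝ) ≤
      ((3 * n - s) ! : ℕ) * ∏ g, (((mm a (some g)) ! : ℕ) : ℝ) := by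
    have h2 := card_transport a a'
    rw [Fintype.prod_option] at h2
    have h3 : mm a none = 3 * n - s := by
      have := card_supp_add a
      omega
    rw [h3] at h2
    exact_mod_cast h2
  have h4 : ∏ g, (((mm a (some g)) ! : ℕ) : ℝ) ≤
      2 ^ s * ((∏ g, ((iit a g) ! : ℝ)) * (∏ g, ((iit a' g) ! : ℝ))) * ((3 * k : ℕ) : ℝ) ^ (3 * d) := by
    have h5 : ∀ g, (((mm a (some g)) ! : ℕ) : ℝ) ≤ 2 ^ (mm a (some g)) *
        (((iit a g) ! : ℝ) * ((iit a' g) ! : ℝ)) *
        ((3 * k : ℕ) : ℝ) ^ (mm a (some g) - iit a g - iit a' g) := by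
      intro g
      have h6 := two_iit_le a g
      have h7 := two_iit_le a' g
      rw [← mm_eq_of_transport hπ] at h7
      have h8 : mm a (some g) ≤ 3 * k := by
        have h9 : mm a (some g) ≤ ∑ g, mm a (some g) :=
          Finset.single_le_sum (f := fun g => mm a (some g)) (fun _ _ => Nat.zero_le _) (mem_univ g)
        rw [← card_supp_eq_sum_mm] at h9
        exact h9.trans hok.2
      have h10 := fact_split h6 h7 h8
      exact_mod_cast h10
    have h11 : ∑ g, (mm a (some g) - iit a g - iit a' g) = 3 * d := by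
      have h12 : ∑ g, (mm a (some g) - iit a g - iit a' g) + (i + i') = s := by
        rw [hidef, hi'def, ← Finset.sum_add_distrib, ← Finset.sum_add_distrib, hsdef,
          card_supp_eq_sum_mm]
        refine Finset.sum_congr rfl fun g _ => ?_
        have h6 := two_iit_le a g
        have h7 := two_iit_le a' g
        rw [← mm_eq_of_transport hπ] at h7
        omega
      omega
    calc ∏ g, (((mm a (some g)) ! : ℕ) : ℝ) ≤ ∏ g, (2 ^ (mm a (some g)) *
        (((iit a g) ! : ℝ) * ((iit a' g) ! : ℝ)) *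
        ((3 * k : ℕ) : ℝ) ^ (mm a (some g) - iit a g - iit a' g)) :=
          Finset.prod_le_prod (fun _ _ => by positivity) fun g _ => h5 g
      _ = _ := by
          rw [Finset.prod_mul_distrib, Finset.prod_mul_distrib, Finset.prod_mul_distrib,
            Finset.prod_pow_eq_pow_sum, Finset.prod_pow_eq_pow_sum, h11, hsdef,
            card_supp_eq_sum_mm]
  have h13 : (((3 * n - s) ! : ℕ) : ℝ) * ((3 * n : ℕ) : ℝ) ^ s ≤ 2 * ((3 * n) ! : ℕ) := by
    apply desc_bound (by omega)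
    refine le_trans ?_ hk
    have := hok.2
    gcongr
  set PI : ℝ := ∏ g, ((iit a g) ! : ℝ) with hPI
  set PI' : ℝ := ∏ g, ((iit a' g) ! : ℝ) with hPI'
  have hPI0 : 0 ≤ PI := by rw [hPI]; positivity
  have hPI0' : 0 ≤ PI' := by rw [hPI']; positivity
  set M : ℝ := (((3 * n) ! : ℕ) : ℝ) with hM
  have hM0 : 0 < M := by rw [hM]; exact_mod_cast Nat.factorial_pos _
  have h14 : (((3 * n - s) ! : ℕ) : ℝ) ≤ 2 * M / (3 * n) ^ s := by
    rw [le_div_iff₀ (by positivity)]
    push_cast at h13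
    exact h13
  have h15 : (2 : ℝ) ^ s * (1 / 2) ^ s = 1 := by rw [← mul_pow]; norm_num
  calc (#{π : Equiv.Perm (HE n) | a' ∘ π = a} : ℝ) * (1 / 2) ^ s
      ≤ ((2 * M / (3 * n) ^ s) * (2 ^ s * (PI * PI') * ((3 * k : ℕ) : ℝ) ^ (3 * d))) *
          (1 / 2) ^ s := by
        gcongr
        refine h1.trans ?_
        gcongr
    _ = (2 * M / (3 * n) ^ s) * ((PI * PI') * ((3 * k : ℕ) : ℝ) ^ (3 * d)) *
          (2 ^ s * (1 / 2) ^ s) := by ring
    _ = (2 * M / (3 * n) ^ s) * ((PI * PI') * ((3 * k : ℕ) : ℝ) ^ (3 * d)) := by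
        rw [h15, mul_one]
    _ = M * (2 * WW a * WW a' * (360000 * k ^ 3 / n) ^ d) := by
        unfold WW
        rw [← hPI, ← hPI', ← hidef, ← hi'def, hsd]
        have h16 : (360000 * (k : ℝ) ^ 3 / n) ^ d =
            (600 * n) ^ (bb a + bb a') * ((3 * k : ℕ) : ℝ) ^ (3 * d) / (3 * n) ^ (3 * d) := by
          rw [hd, pow_mul, pow_mul, pow_mul, ← mul_pow, ← div_pow]
          congr 1
          push_cast
          field_simp
          ring
        rw [h16, pow_add, pow_add, pow_add]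
        field_simp

/-- the first moment of weighted labelings -/
theorem sum_general (hn : 0 < n) {k : ℕ} (hk : 2 * (3 * k) ^ 2 ≤ 3 * n)
    (Q : Lbl n → Lbl n → Prop) [DecidableRel Q] {c : ℝ} (hc0 : 0 ≤ c)
    (hc : ∀ (a a' : Lbl n) (d : ℕ), Q a a' → bb a + bb a' = 2 * d →
      (360000 * (k : ℝ) ^ 3 / n) ^ d ≤ c) :
    ∑ π : Equiv.Perm (HE n), ∑ a ∈ (Lab k π).filter (fun a => Q a (a ∘ π.symm)),
      (1 / 2 : ℝ) ^ #(supp a) ≤
      (((3 * n) ! : ℕ) : ℝ) * (2 * (Real.exp 7 * ((3 * k : ℕ) + 1) ^ 12) ^ 2 * c) := by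
  have hW := sum_WW_le hn k
  set M : ℝ := (((3 * n) ! : ℕ) : ℝ) with hM
  have hM0 : 0 ≤ M := by rw [hM]; positivity
  have h1 : ∀ π : Equiv.Perm (HE n), ∑ a ∈ (Lab k π).filter (fun a => Q a (a ∘ π.symm)),
      (1 / 2 : ℝ) ^ #(supp a) ≤
      ∑ a ∈ AA n k, ∑ a' ∈ AA n k, if a' ∘ π = a ∧ Q a a' then (1 / 2 : ℝ) ^ #(supp a) else 0 := by
    intro π
    have hsub : (Lab k π).filter (fun a => Q a (a ∘ π.symm)) ⊆ AA n k := by
      intro a ha
      rw [mem_filter, Lab, mem_filter] at ha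
      rw [AA, mem_filter]
      exact ⟨mem_univ _, ha.1.2.1, ha.1.2.2.2⟩
    refine le_trans (Finset.sum_le_sum fun a ha => ?_)
      (Finset.sum_le_sum_of_subset_of_nonneg hsub fun a _ _ =>
        Finset.sum_nonneg fun a' _ => ?_)
    · rw [mem_filter, Lab, mem_filter] at ha
      have h2 : (a ∘ π.symm) ∘ π = a := by
        funext x
        simp
      have h3 : a ∘ π.symm ∈ AA n k := by
        rw [AA, mem_filter]
        refine ⟨mem_univ _, ha.1.2.2.1, ?_⟩
        rw [← supp_eq_of_transport h2]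
        exact ha.1.2.2.2
      have h4 := Finset.single_le_sum (f := fun a' => if a' ∘ π = a ∧ Q a a' then
        (1 / 2 : ℝ) ^ #(supp a) else 0) (s := AA n k) (fun a' _ => by
          split_ifs <;> positivity) h3
      refine le_trans (le_of_eq ?_) h4
      rw [if_pos ⟨h2, ha.2⟩]
    · split_ifs <;> positivity
  refine (Finset.sum_le_sum fun π _ => h1 π).trans ?_
  rw [Finset.sum_comm]
  have h5 : ∀ a ∈ AA n k, ∑ π : Equiv.Perm (HE n), ∑ a' ∈ AA n k,
      (if a' ∘ π = a ∧ Q a a' then (1 / 2 : ℝ) ^ #(supp a) else 0)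
      ≤ ∑ a' ∈ AA n k, M * (2 * WW a * WW a' * c) := by
    intro a ha
    rw [Finset.sum_comm]
    refine Finset.sum_le_sum fun a' ha' => ?_
    have hnn : 0 ≤ M * (2 * WW a * WW a' * c) := by
      have := WW_nonneg a
      have := WW_nonneg a'
      positivity
    by_cases hQ : Q a a'
    · simp only [hQ, and_true]
      rw [← Finset.sum_filter, Finset.sum_const, nsmul_eq_mul]
      by_cases hex : ∃ π : Equiv.Perm (HE n), a' ∘ π = a
      · obtain ⟨π, hπ⟩ := hex
        obtain ⟨d, hd, hb⟩ := pair_bound hn hk ha ha' hπ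
        refine hb.trans ?_
        have := hc a a' d hQ hd
        have := WW_nonneg a
        have := WW_nonneg a'
        gcongr
      · have : (univ.filter fun π : Equiv.Perm (HE n) => a' ∘ π = a) = ∅ := by
          rw [Finset.filter_eq_empty_iff]
          intro π _ h
          exact hex ⟨π, h⟩
        rw [this, card_empty, Nat.cast_zero, zero_mul]
        exact hnn
    · simp only [hQ, and_false, if_false, Finset.sum_const_zero]
      exact hnn
  refine (Finset.sum_le_sum h5).trans ?_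
  have h6 : ∑ a ∈ AA n k, ∑ a' ∈ AA n k, M * (2 * WW a * WW a' * c)
      = M * (2 * (∑ a ∈ AA n k, WW a) ^ 2 * c) := by
    rw [sq, Finset.sum_mul_sum]
    simp only [Finset.mul_sum, Finset.sum_mul]
    refine Finset.sum_congr rfl fun a _ => Finset.sum_congr rfl fun a' _ => ?_
    ring
  rw [h6]
  have h7 : 0 ≤ ∑ a ∈ AA n k, WW a := Finset.sum_nonneg fun a _ => WW_nonneg a
  gcongr

/-- the polynomial factor -/
noncomputable def MM (k : ℕ) : ℝ := 2 * (Real.exp 7 * ((3 * k : ℕ) + 1) ^ 12) ^ 2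

theorem sum_LL_le (hn : 0 < n) {k : ℕ} (hk : 2 * (3 * k) ^ 2 ≤ 3 * n)
    (hq : 360000 * k ^ 3 ≤ n) :
    ∑ π : Equiv.Perm (HE n), LL k π ≤ (((3 * n) ! : ℕ) : ℝ) * MM k := by
  have hn' : (0 : ℝ) < n := by exact_mod_cast hn
  have h := sum_general hn hk (fun _ _ => True) (c := 1) zero_le_one (by
    intro a a' d _ _
    apply pow_le_one₀ (by positivity)
    rw [div_le_one hn']
    exact_mod_cast hq)
  simp only [Finset.filter_true] at h
  rw [mul_one] at h
  exact h

theorem sum_LL3_le (hn : 0 < n) {k : ℕ} (hk : 2 * (3 * k) ^ 2 ≤ 3 * n)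
    (hq : 360000 * k ^ 3 ≤ n) :
    ∑ π : Equiv.Perm (HE n), LL3 k π ≤ (((3 * n) ! : ℕ) : ℝ) * (MM k * (360000 * (k : ℝ) ^ 3 / n)) := by
  have hn' : (0 : ℝ) < n := by exact_mod_cast hn
  have hb : ∀ a : Lbl n, has3 a → 1 ≤ bb a := by
    rintro a ⟨v, hv⟩
    unfold bb
    rw [Nat.one_le_iff_ne_zero, Finset.card_ne_zero]
    exact ⟨v, by rw [mem_filter]; exact ⟨mem_univ _, hv⟩⟩
  have h := sum_general hn hk (fun a a' => has3 a ∨ has3 a') (c := 360000 * (k : ℝ) ^ 3 / n)
    (by positivity) (by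
    intro a a' d hQ hd
    have hd1 : 1 ≤ d := by
      rcases hQ with h | h
      · have := hb a h; omega
      · have := hb a' h; omega
    calc (360000 * (k : ℝ) ^ 3 / n) ^ d ≤ (360000 * (k : ℝ) ^ 3 / n) ^ 1 := by
          apply pow_le_pow_of_le_one (by positivity) _ hd1
          rw [div_le_one hn']
          exact_mod_cast hq
      _ = _ := pow_one _)
  exact h

end Pool.Agent.Work.MP_cd2e96_co
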