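import Mathlib

/-!
# Chromatic roots of finite simple graphs
-/

namespace Pool.Agent.Work.MP_cd2e96_co

open Polynomial

/-- `p` is the chromatic polynomial of `G`: for every number `l ≥ 1` of colours, `p(l)` is the
number of proper vertex colourings of `G` with at most `l` colours. -/
def IsChromaticPolynomial {V : Type} (G : SimpleGraph V) (p : ℤ[X]) : Prop :=
  ∀ l : ℕ, 0 < l → p.eval (l : ℤ) = (Nat.card (G.Coloring (Fin l)) : ℤ)

/-- `z` is a root of the chromatic polynomial of `G`. -/
def IsChromaticRoot {V : Type} (G : SimpleGraph V) (z : ℂ) : Prop :=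
  ∃ p : ℤ[X], IsChromaticPolynomial G p ∧ aeval z p = 0

/-- The set of the moduli of the chromatic roots of `G`. -/
def chromaticModuli {V : Type} (G : SimpleGraph V) : Set ℝ :=
  {r | ∃ z : ℂ, IsChromaticRoot G z ∧ r = ‖z‖}

/-- `ρ(G)`, the largest modulus of a chromatic root of `G` (for a finite graph with at least one
vertex this supremum is a maximum, see `rho_isGreatest`). -/
noncomputable def rho {V : Type} (G : SimpleGraph V) : ℝ := sSup (chromaticModuli G)

/-- `G` is 3-regular. -/
def IsCubic {V : Type} (G : SimpleGraph V) : Prop := ∀ v, (G.neighborSet v).ncard = 3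

/-- the complete graph on four vertices -/
abbrev K4 : SimpleGraph (Fin 4) := ⊤

/-- the complete bipartite graph with parts of size three -/
abbrev K33 : SimpleGraph (Fin 3 ⊕ Fin 3) := completeBipartiteGraph (Fin 3) (Fin 3)

end Pool.Agent.Work.MP_cd2e96_co
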