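import Pool.Agent.Work.MP_cd2e96_co.Simple

/-!
# Completing a graph of maximum degree three to a cubic graph
-/

namespace Pool.Agent.Work.MP_cd2e96_co

open Polynomial Finset

/-- adjacency in the gadget -/
def Wadj (i j : Fin 5) : Prop :=
  (i.val, j.val) ∈ ([(0, 1), (1, 0), (0, 2), (2, 0), (1, 3), (3, 1), (1, 4), (4, 1), (2, 3), (3, 2),
    (2, 4), (4, 2), (3, 4), (4, 3)] : List (ℕ × ℕ))

instance (i j : Fin 5) : Decidable (Wadj i j) := by unfold Wadj; infer_instance

/-- the gadget -/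
def WW5 : SimpleGraph (Fin 5) where
  Adj := Wadj
  symm := ⟨by decide⟩
  loopless := ⟨by decide⟩

instance (i j : Fin 5) : Decidable (WW5.Adj i j) := inferInstanceAs (Decidable (Wadj i j))

section

variable {V : Type} (G : SimpleGraph V)

/-- missing half edges -/
abbrev Slot : Type := Σ v : V, Fin (3 - (G.neighborSet v).ncard)

/-- the completed graph -/
def compl3 : SimpleGraph (V ⊕ (Slot G × Fin 5)) where
  Adj x y := match x, y with
    | .inl u, .inl v => G.Adj u v
    | .inl u, .inr p => p.1.1 = u ∧ p.2 = 0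
    | .inr p, .inl u => p.1.1 = u ∧ p.2 = 0
    | .inr p, .inr q => p.1 = q.1 ∧ WW5.Adj p.2 q.2
  symm := ⟨by
    rintro (u | p) (v | q) h
    · exact G.symm.symm _ _ h
    · exact h
    · exact h
    · exact ⟨h.1.symm, h.2.symm⟩⟩
  loopless := ⟨by
    rintro (u | p) h
    · exact G.loopless.irrefl _ h
    · exact WW5.loopless.irrefl _ h.2⟩

lemma compl3_cubic [Finite V] (hdeg : ∀ v, (G.neighborSet v).ncard ≤ 3) : IsCubic (compl3 G) := by
  rintro (u | ⟨s, i⟩)
  · have h1 : (compl3 G).neighborSet (Sum.inl u) = (Sum.inl '' G.neighborSet u) ∪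
        ((fun j : Fin (3 - (G.neighborSet u).ncard) =>
          (Sum.inr (⟨u, j⟩, 0) : V ⊕ (Slot G × Fin 5))) '' Set.univ) := by
      ext x
      rcases x with v | ⟨⟨v, j⟩, i⟩
      · simp [SimpleGraph.mem_neighborSet, compl3]
      · simp only [SimpleGraph.mem_neighborSet, compl3, Set.mem_union, Set.mem_image,
          reduceCtorEq, and_false, exists_false, Set.mem_univ, true_and, false_or]
        constructor
        · rintro ⟨rfl, rfl⟩
          exact ⟨j, rfl⟩
        · rintro ⟨j', h⟩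
          simp only [Sum.inr.injEq, Prod.mk.injEq, Sigma.mk.injEq] at h
          exact ⟨h.1.1.symm, h.2.symm⟩
    rw [h1, Set.ncard_union_eq, Set.ncard_image_of_injective _ Sum.inl_injective,
      Set.ncard_image_of_injective, Set.ncard_univ, Nat.card_eq_fintype_card, Fintype.card_fin]
    · have := hdeg u
      omega
    · intro a b h
      simpa using h
    · rw [Set.disjoint_left]
      rintro _ ⟨v, _, rfl⟩ ⟨j, _, h⟩
      simp at h
  · rw [Set.ncard_eq_three]
    have key : ∀ (a b : V ⊕ (Slot G × Fin 5)), a = b ∨ a ≠ b := fun a b => em _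
    fin_cases i
    · refine ⟨Sum.inl s.1, Sum.inr (s, 1), Sum.inr (s, 2), by simp, by simp, by simp, ?_⟩
      ext x
      rcases x with v | ⟨t, j⟩
      · simp only [SimpleGraph.mem_neighborSet, compl3, Set.mem_insert_iff, Sum.inl.injEq,
          reduceCtorEq, Set.mem_singleton_iff, or_false]
        constructor
        · rintro ⟨h, _⟩; exact h.symm
        · rintro rfl; exact ⟨rfl, rfl⟩
      · simp only [SimpleGraph.mem_neighborSet, compl3, Set.mem_insert_iff, Sum.inr.injEq,
          reduceCtorEq, Set.mem_singleton_iff, false_or, Prod.mk.injEq]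
        have hW : ∀ j : Fin 5, WW5.Adj 0 j ↔ j = 1 ∨ j = 2 := by decide
        have := hW j
        constructor
        · rintro ⟨h1, h2⟩
          rcases this.1 h2 with h | h
          · exact Or.inl ⟨h1.symm, h⟩
          · exact Or.inr ⟨h1.symm, h⟩
        · rintro (⟨h1, h2⟩ | ⟨h1, h2⟩)
          · exact ⟨h1.symm, this.2 (Or.inl h2)⟩
          · exact ⟨h1.symm, this.2 (Or.inr h2)⟩
    · refine ⟨Sum.inr (s, 0), Sum.inr (s, 3), Sum.inr (s, 4), by simp, by simp, by simp, ?_⟩
      ext x
      rcases x with v | ⟨t, j⟩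
      · simp [SimpleGraph.mem_neighborSet, compl3]
      · simp only [SimpleGraph.mem_neighborSet, compl3, Set.mem_insert_iff, Sum.inr.injEq,
          Set.mem_singleton_iff, Prod.mk.injEq]
        have hW : ∀ j : Fin 5, WW5.Adj 1 j ↔ j = 0 ∨ j = 3 ∨ j = 4 := by decide
        have := hW j
        constructor
        · rintro ⟨h1, h2⟩
          rcases this.1 h2 with h | h | h
          · exact Or.inl ⟨h1.symm, h⟩
          · exact Or.inr (Or.inl ⟨h1.symm, h⟩)
          · exact Or.inr (Or.inr ⟨h1.symm, h⟩)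
        · rintro (⟨h1, h2⟩ | ⟨h1, h2⟩ | ⟨h1, h2⟩)
          · exact ⟨h1.symm, this.2 (Or.inl h2)⟩
          · exact ⟨h1.symm, this.2 (Or.inr (Or.inl h2))⟩
          · exact ⟨h1.symm, this.2 (Or.inr (Or.inr h2))⟩
    · refine ⟨Sum.inr (s, 0), Sum.inr (s, 3), Sum.inr (s, 4), by simp, by simp, by simp, ?_⟩
      ext x
      rcases x with v | ⟨t, j⟩
      · simp [SimpleGraph.mem_neighborSet, compl3]
      · simp only [SimpleGraph.mem_neighborSet, compl3, Set.mem_insert_iff, Sum.inr.injEq,
          Set.mem_singleton_iff, Prod.mk.injEq]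
        have hW : ∀ j : Fin 5, WW5.Adj 2 j ↔ j = 0 ∨ j = 3 ∨ j = 4 := by decide
        have := hW j
        constructor
        · rintro ⟨h1, h2⟩
          rcases this.1 h2 with h | h | h
          · exact Or.inl ⟨h1.symm, h⟩
          · exact Or.inr (Or.inl ⟨h1.symm, h⟩)
          · exact Or.inr (Or.inr ⟨h1.symm, h⟩)
        · rintro (⟨h1, h2⟩ | ⟨h1, h2⟩ | ⟨h1, h2⟩)
          · exact ⟨h1.symm, this.2 (Or.inl h2)⟩
          · exact ⟨h1.symm, this.2 (Or.inr (Or.inl h2))⟩
          · exact ⟨h1.symm, this.2 (Or.inr (Or.inr h2))⟩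
    · refine ⟨Sum.inr (s, 1), Sum.inr (s, 2), Sum.inr (s, 4), by simp, by simp, by simp, ?_⟩
      ext x
      rcases x with v | ⟨t, j⟩
      · simp [SimpleGraph.mem_neighborSet, compl3]
      · simp only [SimpleGraph.mem_neighborSet, compl3, Set.mem_insert_iff, Sum.inr.injEq,
          Set.mem_singleton_iff, Prod.mk.injEq]
        have hW : ∀ j : Fin 5, WW5.Adj 3 j ↔ j = 1 ∨ j = 2 ∨ j = 4 := by decide
        have := hW j
        constructor
        · rintro ⟨h1, h2⟩
          rcases this.1 h2 with h | h | h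
          · exact Or.inl ⟨h1.symm, h⟩
          · exact Or.inr (Or.inl ⟨h1.symm, h⟩)
          · exact Or.inr (Or.inr ⟨h1.symm, h⟩)
        · rintro (⟨h1, h2⟩ | ⟨h1, h2⟩ | ⟨h1, h2⟩)
          · exact ⟨h1.symm, this.2 (Or.inl h2)⟩
          · exact ⟨h1.symm, this.2 (Or.inr (Or.inl h2))⟩
          · exact ⟨h1.symm, this.2 (Or.inr (Or.inr h2))⟩
    · refine ⟨Sum.inr (s, 1), Sum.inr (s, 2), Sum.inr (s, 3), by simp, by simp, by simp, ?_⟩
      ext x
      rcases x with v | ⟨t, j⟩
      · simp [SimpleGraph.mem_neighborSet, compl3]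
      · simp only [SimpleGraph.mem_neighborSet, compl3, Set.mem_insert_iff, Sum.inr.injEq,
          Set.mem_singleton_iff, Prod.mk.injEq]
        have hW : ∀ j : Fin 5, WW5.Adj 4 j ↔ j = 1 ∨ j = 2 ∨ j = 3 := by decide
        have := hW j
        constructor
        · rintro ⟨h1, h2⟩
          rcases this.1 h2 with h | h | h
          · exact Or.inl ⟨h1.symm, h⟩
          · exact Or.inr (Or.inl ⟨h1.symm, h⟩)
          · exact Or.inr (Or.inr ⟨h1.symm, h⟩)
        · rintro (⟨h1, h2⟩ | ⟨h1, h2⟩ | ⟨h1, h2⟩)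
          · exact ⟨h1.symm, this.2 (Or.inl h2)⟩
          · exact ⟨h1.symm, this.2 (Or.inr (Or.inl h2))⟩
          · exact ⟨h1.symm, this.2 (Or.inr (Or.inr h2))⟩

/-- colourings of the gadget avoiding a colour at the root -/
abbrev GadCol (α : Type) (x : α) : Type :=
  {d : Fin 5 → α // (∀ i j, WW5.Adj i j → d i ≠ d j) ∧ d 0 ≠ x}

/-- colourings of the completed graph -/
def complCol (α : Type) :
    {σ : V ⊕ (Slot G × Fin 5) → α // ∀ u v, (compl3 G).Adj u v → σ u ≠ σ v} ≃
    (Σ c : {c : V → α // ∀ u v, G.Adj u v → c u ≠ c v}, ∀ s : Slot G, GadCol α (c.1 s.1)) where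
  toFun σ := ⟨⟨fun v => σ.1 (Sum.inl v), fun u v h => σ.2 _ _ h⟩,
    fun s => ⟨fun i => σ.1 (Sum.inr (s, i)), fun i j h => σ.2 _ _ ⟨rfl, h⟩,
      fun h => σ.2 (Sum.inr (s, 0)) (Sum.inl s.1) ⟨rfl, rfl⟩ h⟩⟩
  invFun p := ⟨Sum.elim p.1.1 (fun q => (p.2 q.1).1 q.2), by
    rintro (u | ⟨s, i⟩) (v | ⟨t, j⟩) h
    · exact p.1.2 u v h
    · obtain ⟨h1, h2⟩ := h
      simp only at h1 h2
      subst h1 h2
      exact fun h3 => (p.2 t).2.2 h3.symm
    · obtain ⟨h1, h2⟩ := h
      simp only at h1 h2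
      subst h1 h2
      exact (p.2 s).2.2
    · obtain ⟨h1, h2⟩ := h
      simp only at h1 h2
      subst h1
      exact (p.2 s).2.1 i j h2⟩
  left_inv σ := by
    apply Subtype.ext
    funext x
    rcases x with v | ⟨s, i⟩
    · rfl
    · rfl
  right_inv p := by
    rfl

lemma card_gadCol (l : ℕ) (x y : Fin l) : Nat.card (GadCol (Fin l) x)
    = Nat.card (GadCol (Fin l) y) := by
  refine Nat.card_congr
    { toFun := fun d => ⟨fun i => Equiv.swap x y (d.1 i), ?_, ?_⟩
      invFun := fun d => ⟨fun i => Equiv.swap x y (d.1 i), ?_, ?_⟩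
      left_inv := ?_
      right_inv := ?_ }
  · intro i j h h'
    exact d.2.1 i j h ((Equiv.swap x y).injective h')
  · intro h
    apply d.2.2
    have := congrArg (Equiv.swap x y) h
    rw [Equiv.swap_apply_self, Equiv.swap_apply_right] at this
    exact this
  · intro i j h h'
    exact d.2.1 i j h ((Equiv.swap x y).injective h')
  · intro h
    apply d.2.2
    have := congrArg (Equiv.swap x y) h
    rw [Equiv.swap_apply_self, Equiv.swap_apply_left] at this
    exact this
  · intro d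
    apply Subtype.ext
    funext i
    simp
  · intro d
    apply Subtype.ext
    funext i
    simp

/-- the number of colourings of the gadget with a forbidden colour at the root -/
lemma card_gadCol_mul (l : ℕ) (x : Fin l) :
    l * Nat.card (GadCol (Fin l) x) = (l - 1) * Nat.card (WW5.Coloring (Fin l)) := by
  have h1 : l * Nat.card (GadCol (Fin l) x) = Nat.card (Σ y : Fin l, GadCol (Fin l) y) := by
    rw [Nat.card_sigma]
    rw [Finset.sum_congr rfl fun y _ => card_gadCol l y x, Finset.sum_const, card_univ,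
      Fintype.card_fin, smul_eq_mul]
  rw [h1, Nat.card_congr (colEquiv WW5 (Fin l))]
  have h2 : (Σ y : Fin l, GadCol (Fin l) y) ≃
      (Σ d : {d : Fin 5 → Fin l // ∀ i j, WW5.Adj i j → d i ≠ d j}, {y : Fin l // y ≠ d.1 0}) :=
    { toFun := fun p => ⟨⟨p.2.1, p.2.2.1⟩, ⟨p.1, p.2.2.2.symm⟩⟩
      invFun := fun p => ⟨p.2.1, ⟨p.1.1, p.1.2, p.2.2.symm⟩⟩
      left_inv := fun p => rfl
      right_inv := fun p => rfl }
  rw [Nat.card_congr h2, Nat.card_sigma]
  have h3 : ∀ d : {d : Fin 5 → Fin l // ∀ i j, WW5.Adj i j → d i ≠ d j},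
      Nat.card {y : Fin l // y ≠ d.1 0} = l - 1 := by
    intro d
    rw [Nat.card_eq_fintype_card, Fintype.card_subtype_compl, Fintype.card_fin]
    simp
  rw [Finset.sum_congr rfl fun d _ => h3 d, Finset.sum_const, card_univ, smul_eq_mul,
    Nat.card_eq_fintype_card, mul_comm]

theorem compl3_root [Fintype V] {z : ℂ} (hz0 : z ≠ 0) (h : IsChromaticRoot G z) :
    IsChromaticRoot (compl3 G) z := by
  classical
  obtain ⟨p, hp, hz⟩ := h
  obtain ⟨p', hp', _, _⟩ := exists_chromatic (compl3 G)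
  obtain ⟨w, hw, _, _⟩ := exists_chromatic WW5
  set m := Fintype.card (Slot G) with hm
  have key : X ^ m * p' = p * ((X - 1) * w) ^ m := by
    apply poly_ext_pos
    intro l hl
    simp only [eval_mul, eval_pow, eval_sub, eval_X, eval_one, hp', hp l hl, hw]
    let x : Fin l := ⟨0, hl⟩
    have h1 : Nat.card ((compl3 G).Coloring (Fin l))
        = Nat.card (G.Coloring (Fin l)) * (Nat.card (GadCol (Fin l) x)) ^ m := by
      rw [Nat.card_congr (colEquiv (compl3 G) (Fin l)), Nat.card_congr (complCol G (Fin l)),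
        Nat.card_sigma]
      have h2 : ∀ c : {c : V → Fin l // ∀ u v, G.Adj u v → c u ≠ c v},
          Nat.card (∀ s : Slot G, GadCol (Fin l) (c.1 s.1))
          = (Nat.card (GadCol (Fin l) x)) ^ m := by
        intro c
        rw [Nat.card_pi, Finset.prod_congr rfl fun s _ => card_gadCol l (c.1 s.1) x,
          Finset.prod_const, card_univ]
      rw [Finset.sum_congr rfl fun c _ => h2 c, Finset.sum_const, card_univ, smul_eq_mul,
        Nat.card_congr (colEquiv G (Fin l)), Nat.card_eq_fintype_card (α := {c : V → Fin l // _})]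
    have h3 := card_gadCol_mul l x
    have h4 : (l : ℤ) * (Nat.card (GadCol (Fin l) x) : ℤ)
        = ((l : ℤ) - 1) * (Nat.card (WW5.Coloring (Fin l)) : ℤ) := by
      have h5 : ((l - 1 : ℕ) : ℤ) = (l : ℤ) - 1 := by
        rw [Nat.cast_sub (by omega)]
        simp
      rw [← h5]
      exact_mod_cast h3
    rw [h1]
    push_cast
    rw [← h4]
    ring
  refine ⟨p', fun l _ => hp' l, ?_⟩
  have h1 := congrArg (aeval z) key
  rw [map_mul, map_mul, hz, zero_mul, map_pow, aeval_X] at h1
  rcases mul_eq_zero.1 h1 with h2 | h2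
  · exact absurd h2 (pow_ne_zero m hz0)
  · exact h2

end

end Pool.Agent.Work.MP_cd2e96_co
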