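import Pool.Agent.Work.MP_cd2e96_co.Multigraph

/-!
# The polynomials `H_F` and the series reduction
-/

namespace Pool.Agent.Work.MP_cd2e96_co

open Finset Polynomial

variable {V E : Type} (l r : E → V) [Fintype V] [DecidableEq E]

/-- one term -/
noncomputable def trm (F B : Finset E) : ℤ[X] := (-1) ^ #B * X ^ (#(F \ B) + rk l r B)

/-- `H_{F,K}` -/
noncomputable def HK (F K : Finset E) : ℤ[X] := ∑ B ∈ F.powerset with K ⊆ B, trm l r F B

/-- `H_F` -/
noncomputable def HH (F : Finset E) : ℤ[X] := ∑ B ∈ F.powerset, trm l r F B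

lemma HK_empty (F : Finset E) : HK l r F ∅ = HH l r F := by
  simp [HK, HH]

lemma trm_insert {F B : Finset E} {e : E} (heF : e ∈ F) (he : e ∉ B)
    (hs : Sep l r B e) : trm l r F B + trm l r F (insert e B) = 0 := by
  have h1 : #(F \ B) = #(F \ insert e B) + 1 := by
    have : F \ B = insert e (F \ insert e B) := by
      ext x
      simp only [mem_sdiff, mem_insert, not_or]
      constructor
      · rintro ⟨h1, h2⟩
        by_cases hx : x = e
        · exact Or.inl hx
        · exact Or.inr ⟨h1, hx, h2⟩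
      · rintro (rfl | ⟨h1, h2, h3⟩)
        · exact ⟨heF, he⟩
        · exact ⟨h1, h3⟩
    rw [this, card_insert_of_notMem]
    simp
  have h2 := rk_insert_sep l r hs
  rw [trm, trm, card_insert_of_notMem he, h1, h2]
  ring

lemma HK_vanish {F K : Finset E} {e : E} (heF : e ∈ F) (heK : e ∉ K)
    (hs : Sep l r (F.erase e) e) : HK l r F K = 0 := by
  unfold HK
  refine Finset.sum_involution (fun B _ => if e ∈ B then B.erase e else insert e B) ?_ ?_ ?_ ?_
  · intro B hB
    rw [mem_filter, mem_powerset] at hB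
    by_cases he : e ∈ B
    · rw [if_pos he]
      have h1 : Sep l r (B.erase e) e := Sep.mono l r (erase_subset_erase e hB.1) hs
      have h2 := trm_insert l r heF (notMem_erase e B) h1
      rw [insert_erase he] at h2
      rw [add_comm]
      exact h2
    · rw [if_neg he]
      refine trm_insert l r heF he (Sep.mono l r ?_ hs)
      intro x hx
      rw [mem_erase]
      exact ⟨fun h => he (h ▸ hx), hB.1 hx⟩
  · intro B hB _
    by_cases he : e ∈ B
    · rw [if_pos he]
      intro h
      rw [← h] at he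
      exact notMem_erase e B he
    · rw [if_neg he]
      intro h
      rw [← h] at he
      exact he (mem_insert_self e B)
  · intro B hB
    rw [mem_filter, mem_powerset] at hB ⊢
    by_cases he : e ∈ B
    · rw [if_pos he]
      refine ⟨(erase_subset _ _).trans hB.1, fun x hx => ?_⟩
      rw [mem_erase]
      exact ⟨fun h => heK (h ▸ hx), hB.2 hx⟩
    · rw [if_neg he]
      exact ⟨insert_subset heF hB.1, hB.2.trans (subset_insert _ _)⟩
  · intro B hB
    by_cases he : e ∈ B
    · simp [he, insert_erase he]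
    · simp [he, erase_insert he]

/-- an edge which is a bridge of `F` kills `H_F` -/
lemma HH_vanish {F : Finset E} {e : E} (heF : e ∈ F) (hs : Sep l r (F.erase e) e) :
    HH l r F = 0 := by
  rw [← HK_empty]
  exact HK_vanish l r heF (notMem_empty e) hs

lemma HK_move {F K : Finset E} {e : E} (heF : e ∈ F) (heK : e ∉ K) :
    HK l r F K = HK l r F (insert e K) + X * HK l r (F.erase e) K := by
  have h1 : (F.powerset.filter (K ⊆ ·)) = (F.powerset.filter (insert e K ⊆ ·)) ∪
      ((F.erase e).powerset.filter (K ⊆ ·)) := by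
    ext B
    simp only [mem_filter, mem_powerset, mem_union, insert_subset_iff, subset_erase]
    constructor
    · rintro ⟨h1, h2⟩
      by_cases he : e ∈ B
      · exact Or.inl ⟨h1, he, h2⟩
      · exact Or.inr ⟨⟨h1, he⟩, h2⟩
    · rintro (⟨h1, h2, h3⟩ | ⟨⟨h1, h2⟩, h3⟩)
      · exact ⟨h1, h3⟩
      · exact ⟨h1, h3⟩
  have h2 : Disjoint (F.powerset.filter (insert e K ⊆ ·))
      ((F.erase e).powerset.filter (K ⊆ ·)) := by
    rw [Finset.disjoint_left]
    intro B hB hB'
    simp only [mem_filter, mem_powerset, insert_subset_iff, subset_erase] at hB hB'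
    exact hB'.1.2 hB.2.1
  unfold HK
  rw [h1, Finset.sum_union h2, Finset.mul_sum]
  congr 1
  refine Finset.sum_congr rfl fun B hB => ?_
  simp only [mem_filter, mem_powerset, subset_erase] at hB
  have h3 : #(F \ B) = #(F.erase e \ B) + 1 := by
    have : F \ B = insert e (F.erase e \ B) := by
      ext x
      simp only [mem_sdiff, mem_insert, mem_erase]
      constructor
      · rintro ⟨h1, h2⟩
        by_cases hx : x = e
        · exact Or.inl hx
        · exact Or.inr ⟨⟨hx, h1⟩, h2⟩
      · rintro (rfl | ⟨⟨h1, h2⟩, h3⟩)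
        · exact ⟨heF, hB.1.2⟩
        · exact ⟨h2, h3⟩
    rw [this, card_insert_of_notMem]
    simp
  rw [trm, trm, h3]
  ring

/-- the two edges form a cut of `F` (or are equal) -/
def eqv (F : Finset E) (e e' : E) : Prop :=
  ∃ S : V → ZMod 2, ∀ f ∈ F, dd l r S f = (if f = e then 1 else 0) + (if f = e' then 1 else 0)

omit [Fintype V] in
lemma eqv_refl (F : Finset E) (e : E) : eqv l r F e e := by
  refine ⟨0, fun f _ => ?_⟩
  rw [dd_zero]
  split_ifs
  · rfl
  · rfl

omit [Fintype V] in
lemma eqv_symm {F : Finset E} {e e' : E} (h : eqv l r F e e') : eqv l r F e' e := by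
  obtain ⟨S, hS⟩ := h
  exact ⟨S, fun f hf => by rw [hS f hf, add_comm]⟩

omit [Fintype V] in
lemma eqv_trans {F : Finset E} {e e' e'' : E} (h : eqv l r F e e') (h' : eqv l r F e' e'') :
    eqv l r F e e'' := by
  obtain ⟨S, hS⟩ := h
  obtain ⟨T, hT⟩ := h'
  refine ⟨S + T, fun f hf => ?_⟩
  rw [dd_add, hS f hf, hT f hf]
  have : (if f = e' then (1 : ZMod 2) else 0) + (if f = e' then 1 else 0) = 0 :=
    CharTwo.add_self_eq_zero _
  calc _ = (if f = e then (1 : ZMod 2) else 0) + ((if f = e' then (1 : ZMod 2) else 0)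
        + (if f = e' then 1 else 0)) + (if f = e'' then 1 else 0) := by ring
    _ = _ := by rw [this, add_zero]

omit [Fintype V] in
lemma Sep_of_eqv {F B : Finset E} {e e' : E} (h : eqv l r F e e') (heF : e ∈ F) (hne : e ≠ e')
    (hB : B ⊆ F) (he : e ∉ B) (he' : e' ∉ B) : Sep l r B e := by
  obtain ⟨S, hS⟩ := h
  refine ⟨S, fun f hf => ?_, ?_⟩
  · rw [hS f (hB hf), if_neg, if_neg, add_zero]
    · rintro rfl; exact he' hf
    · rintro rfl; exact he hf
  · rw [hS e heF, if_pos rfl, if_neg hne, add_zero]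

/-- the series reduction -/
lemma HH_reduce {F K : Finset E} (hK : K ⊆ F)
    (hp : ∀ e ∈ K, ∃ e' ∈ F \ K, eqv l r F e e') : HH l r F = HK l r F K := by
  have key : ∀ K' : Finset E, K' ⊆ K → HH l r F = HK l r F K' := by
    intro K'
    induction K' using Finset.induction_on with
    | empty => intro _; rw [HK_empty]
    | insert e K' he ih =>
      intro hsub
      have heK : e ∈ K := hsub (mem_insert_self e K')
      have hK'K : K' ⊆ K := (subset_insert e K').trans hsub
      obtain ⟨e', he', heq⟩ := hp e heK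
      rw [mem_sdiff] at he'
      have hne : e' ≠ e := fun h => he'.2 (h ▸ heK)
      rw [ih hK'K, HK_move l r (hK heK) he]
      have hz : HK l r (F.erase e) K' = 0 := by
        refine HK_vanish l r (e := e') ?_ ?_ ?_
        · rw [mem_erase]; exact ⟨hne, he'.1⟩
        · exact fun h => he'.2 (hK'K h)
        · refine Sep_of_eqv l r (eqv_symm l r heq) he'.1 hne ?_ ?_ ?_
          · exact (erase_subset _ _).trans (erase_subset _ _)
          · exact notMem_erase _ _
          · intro h
            exact notMem_erase e F (mem_of_mem_erase h)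
      rw [hz, mul_zero, add_zero]
  exact key K Subset.rfl

/-- The rank of the non-representatives. -/
lemma card_le_rk {F K : Finset E} (hK : K ⊆ F)
    (hp : ∀ e ∈ K, ∃ e' ∈ F \ K, eqv l r F e e') : #K ≤ rk l r K := by
  have key : ∀ K' : Finset E, K' ⊆ K → #K' ≤ rk l r K' := by
    intro K'
    induction K' using Finset.induction_on with
    | empty => intro _; simp
    | insert e K' he ih =>
      intro hsub
      have heK : e ∈ K := hsub (mem_insert_self e K')
      have hK'K : K' ⊆ K := (subset_insert e K').trans hsub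
      obtain ⟨e', he', heq⟩ := hp e heK
      rw [mem_sdiff] at he'
      have hne : e ≠ e' := fun h => he'.2 (h ▸ heK)
      have hs : Sep l r K' e :=
        Sep_of_eqv l r heq (hK heK) hne (hK'K.trans hK) he (fun h => he'.2 (hK'K h))
      rw [card_insert_of_notMem he, rk_insert_sep l r hs]
      have := ih hK'K
      omega
  exact key K Subset.rfl

/-- sets of representatives exist -/
lemma exists_reps (F : Finset E) : ∃ T ⊆ F, (∀ e ∈ F, ∃ t ∈ T, eqv l r F e t) ∧
    (∀ t ∈ T, ∀ t' ∈ T, eqv l r F t t' → t = t') := by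
  classical
  let s : Setoid {e // e ∈ F} :=
    { r := fun e e' => eqv l r F e.1 e'.1
      iseqv := ⟨fun e => eqv_refl l r F _, fun h => eqv_symm l r h,
        fun h h' => eqv_trans l r h h'⟩ }
  refine ⟨(univ : Finset (Quotient s)).image (fun q => (q.out : E)), ?_, ?_, ?_⟩
  · intro x hx
    rw [mem_image] at hx
    obtain ⟨q, _, rfl⟩ := hx
    exact q.out.2
  · intro e he
    refine ⟨((⟦⟨e, he⟩⟧ : Quotient s).out : E), mem_image.2 ⟨_, mem_univ _, rfl⟩, ?_⟩
    have : (⟦⟨e, he⟩⟧ : Quotient s).out ≈ ⟨e, he⟩ := Quotient.mk_out _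
    exact eqv_symm l r this
  · intro t ht t' ht' h
    rw [mem_image] at ht ht'
    obtain ⟨q, _, rfl⟩ := ht
    obtain ⟨q', _, rfl⟩ := ht'
    have h' : q.out ≈ q'.out := h
    have := Quotient.sound h'
    rw [Quotient.out_eq, Quotient.out_eq] at this
    rw [this]

/-- `F` has a set of representatives of size `t` -/
lemma partner_of_reps {F T : Finset E}
    (h : ∀ e ∈ F, ∃ t ∈ T, eqv l r F e t) (hT : T ⊆ F) :
    ∀ e ∈ F \ T, ∃ e' ∈ F \ (F \ T), eqv l r F e e' := by
  intro e he
  rw [mem_sdiff] at he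
  obtain ⟨t, ht, heq⟩ := h e he.1
  refine ⟨t, ?_, heq⟩
  rw [mem_sdiff, mem_sdiff]
  exact ⟨hT ht, fun h => h.2 ht⟩

/-- incidence -/
def inc (f : E) (v : V) : Prop := l f = v ∨ r f = v

instance [DecidableEq V] (f : E) (v : V) : Decidable (inc l r f v) := by
  unfold inc; infer_instance

section twoRegular

variable [DecidableEq V]

omit [Fintype V] [DecidableEq E] in
lemma dd_indicator (hl : ∀ f, l f ≠ r f) (v : V) (f : E) :
    dd l r (fun w => if w = v then 1 else 0) f = if inc l r f v then 1 else 0 := by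
  unfold dd inc
  have := hl f
  by_cases h1 : l f = v <;> by_cases h2 : r f = v
  · exact absurd (h1.trans h2.symm) this
  all_goals simp [h1, h2]

omit [Fintype V] in
/-- two edges meeting at a vertex of degree two are in series -/
lemma eqv_of_deg_two (hl : ∀ f, l f ≠ r f) {F : Finset E} {v : V} {e e' : E} (hne : e ≠ e')
    (he : inc l r e v) (he' : inc l r e' v)
    (hdeg : ∀ f ∈ F, inc l r f v → f = e ∨ f = e') : eqv l r F e e' := by
  refine ⟨fun w => if w = v then 1 else 0, fun f hf => ?_⟩
  rw [dd_indicator l r hl]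
  by_cases h : inc l r f v
  · rw [if_pos h]
    rcases hdeg f hf h with rfl | rfl
    · rw [if_pos rfl, if_neg hne, add_zero]
    · rw [if_neg hne.symm, if_pos rfl, zero_add]
  · rw [if_neg h, if_neg, if_neg, add_zero]
    · rintro rfl; exact h he'
    · rintro rfl; exact h he

/-- parity -/
lemma sum_dd_eq (hl : ∀ f, l f ≠ r f) (F : Finset E) (S : V → ZMod 2) :
    ∑ f ∈ F, dd l r S f = ∑ v, S v * (#{f ∈ F | inc l r f v} : ZMod 2) := by
  have h1 : ∀ f, dd l r S f = ∑ v, S v * (if inc l r f v then 1 else 0) := by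
    intro f
    have h2 : ∀ v, S v * (if inc l r f v then (1 : ZMod 2) else 0)
        = (if l f = v then S v else 0) + (if r f = v then S v else 0) := by
      intro v
      have := hl f
      unfold inc
      by_cases h1 : l f = v <;> by_cases h2 : r f = v
      · exact absurd (h1.trans h2.symm) this
      all_goals simp [h1, h2]
    simp only [h2, Finset.sum_add_distrib, Finset.sum_ite_eq, mem_univ, if_true]
    rfl
  simp only [h1]
  rw [Finset.sum_comm]
  refine Finset.sum_congr rfl fun v _ => ?_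
  rw [← Finset.mul_sum, Finset.card_filter]
  push_cast
  rfl

/-- In a two-regular graph every representative closes a cycle. -/
lemma not_Sep_of_two_regular (hl : ∀ f, l f ≠ r f) {F T : Finset E} (hT : T ⊆ F)
    (heven : ∀ v, Even #{f ∈ F | inc l r f v})
    (hloc : ∀ v, ∀ e ∈ F, ∀ e' ∈ F, inc l r e v → inc l r e' v → eqv l r F e e')
    (hinj : ∀ t ∈ T, ∀ t' ∈ T, eqv l r F t t' → t = t') {e : E} (he : e ∈ T) :
    ¬ Sep l r (F \ T) e := by
  classical
  rintro ⟨S, hS, hSe⟩
  let W : V → Prop := fun v => ∃ f ∈ F, eqv l r F f e ∧ inc l r f v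
  let S' : V → ZMod 2 := fun v => if W v then S v else 0
  have h1 : ∀ f ∈ F, dd l r S' f = if eqv l r F f e then dd l r S f else 0 := by
    intro f hf
    by_cases hfe : eqv l r F f e
    · rw [if_pos hfe]
      have hl' : W (l f) := ⟨f, hf, hfe, Or.inl rfl⟩
      have hr' : W (r f) := ⟨f, hf, hfe, Or.inr rfl⟩
      simp only [dd, S', if_pos hl', if_pos hr']
    · rw [if_neg hfe]
      have hl' : ¬ W (l f) := by
        rintro ⟨g, hg, hge, hgv⟩
        exact hfe (eqv_trans l r (hloc (l f) f hf g hg (Or.inl rfl) hgv) hge)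
      have hr' : ¬ W (r f) := by
        rintro ⟨g, hg, hge, hgv⟩
        exact hfe (eqv_trans l r (hloc (r f) f hf g hg (Or.inr rfl) hgv) hge)
      simp only [dd, S', if_neg hl', if_neg hr', add_zero]
  have h2 : ∑ f ∈ F, dd l r S' f = 0 := by
    rw [sum_dd_eq l r hl]
    apply Finset.sum_eq_zero
    intro v _
    obtain ⟨m, hm⟩ := heven v
    rw [hm]
    push_cast
    rw [CharTwo.add_self_eq_zero, mul_zero]
  have h3 : ∑ f ∈ F, dd l r S' f = 1 := by
    rw [Finset.sum_congr rfl h1, Finset.sum_eq_single_of_mem e (hT he)]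
    · rw [if_pos (eqv_refl l r F e), hSe]
    · intro f hf hne
      by_cases hfe : eqv l r F f e
      · rw [if_pos hfe]
        apply hS
        rw [mem_sdiff]
        exact ⟨hf, fun h => hne (hinj f h e he hfe)⟩
      · rw [if_neg hfe]
  rw [h2] at h3
  exact absurd h3 (by decide)

/-- exact value of `H_F` for two-regular `F` -/
theorem HH_two_regular (hl : ∀ f, l f ≠ r f) {F T : Finset E} (hT : T ⊆ F)
    (hrep : ∀ e ∈ F, ∃ t ∈ T, eqv l r F e t)
    (hinj : ∀ t ∈ T, ∀ t' ∈ T, eqv l r F t t' → t = t')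
    (heven : ∀ v, Even #{f ∈ F | inc l r f v})
    (hloc : ∀ v, ∀ e ∈ F, ∀ e' ∈ F, inc l r e v → inc l r e' v → eqv l r F e e')
    (hF : Even #F) : HH l r F = (X : ℤ[X]) ^ #(F \ T) * ((1 : ℤ[X]) - X) ^ #T := by
  set K := F \ T with hK
  have hKF : K ⊆ F := sdiff_subset
  have hpart := partner_of_reps l r hrep hT
  have hFK : F \ K = T := by
    rw [hK, Finset.sdiff_sdiff_eq_self hT]
  have hrk1 : #K ≤ rk l r K := card_le_rk l r hKF hpart
  -- the rank does not grow
  have hrk2 : ∀ T' : Finset E, T' ⊆ T → rk l r (K ∪ T') = rk l r K := by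
    intro T'
    induction T' using Finset.induction_on with
    | empty => simp
    | insert e T' he ih =>
      intro hsub
      rw [union_insert, rk_insert_not, ih ((subset_insert e T').trans hsub)]
      intro hs
      exact not_Sep_of_two_regular l r hl hT heven hloc hinj (hsub (mem_insert_self e T'))
        (Sep.mono l r subset_union_left hs)
  have hrk3 : rk l r K ≤ #K := by
    have := (rk_union_le l r (∅ : Finset E) K).2
    rw [rk_empty, zero_add, empty_union] at this
    exact this
  have hrkK : rk l r K = #K := le_antisymm hrk3 hrk1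
  rw [HH_reduce l r hKF hpart, HK]
  have hbij : ∑ B ∈ F.powerset with K ⊆ B, trm l r F B
      = ∑ B₀ ∈ T.powerset, trm l r F (K ∪ B₀) := by
    symm
    refine Finset.sum_bij' (fun B₀ _ => K ∪ B₀) (fun B _ => B \ K) ?_ ?_ ?_ ?_ ?_
    · intro B₀ hB₀
      rw [mem_powerset] at hB₀
      rw [mem_filter, mem_powerset]
      exact ⟨union_subset hKF (hB₀.trans hT), subset_union_left⟩
    · intro B hB
      rw [mem_filter, mem_powerset] at hB
      rw [mem_powerset, ← hFK]
      exact sdiff_subset_sdiff hB.1 Subset.rfl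
    · intro B₀ hB₀
      rw [mem_powerset] at hB₀
      ext x
      simp only [mem_sdiff, mem_union, hK]
      constructor
      · rintro ⟨h1 | h1, h2⟩
        · exact absurd h1 h2
        · exact h1
      · intro h1
        exact ⟨Or.inr h1, fun h2 => h2.2 (hB₀ h1)⟩
    · intro B hB
      rw [mem_filter, mem_powerset] at hB
      exact union_sdiff_of_subset hB.2
    · intro B₀ _
      rfl
  rw [hbij]
  have hterm : ∀ B₀ ∈ T.powerset, trm l r F (K ∪ B₀)
      = ((-1 : ℤ[X]) ^ #K * X ^ #K) * ((-1 : ℤ[X]) ^ #B₀ * X ^ (#T - #B₀)) := by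
    intro B₀ hB₀
    rw [mem_powerset] at hB₀
    have hdisj : Disjoint K B₀ := by
      rw [hK]
      exact disjoint_sdiff_self_left.mono_right hB₀
    have h1 : #(K ∪ B₀) = #K + #B₀ := card_union_of_disjoint hdisj
    have h2 : #(F \ (K ∪ B₀)) = #T - #B₀ := by
      rw [← card_sdiff_of_subset hB₀]
      congr 1
      ext x
      simp only [mem_sdiff, mem_union, hK, not_or, not_and, not_not]
      constructor
      · rintro ⟨h1, h2, h3⟩
        exact ⟨h2 h1, h3⟩
      · rintro ⟨h1, h2⟩
        exact ⟨hT h1, fun _ => h1, h2⟩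
    rw [trm, h1, h2, hrk2 B₀ hB₀, hrkK, pow_add, pow_add]
    ring
  rw [Finset.sum_congr rfl hterm, ← Finset.mul_sum]
  have hsum : ∑ B₀ ∈ T.powerset, ((-1 : ℤ[X]) ^ #B₀ * X ^ (#T - #B₀)) = ((-1 : ℤ[X]) + X) ^ #T :=
    Finset.sum_pow_mul_eq_add_pow _ _ _
  rw [hsum]
  have hcard : #F = #K + #T := by
    rw [hK, card_sdiff_of_subset hT]
    have := card_le_card hT
    omega
  have h4 : ((-1 : ℤ[X]) + X) ^ #T = (-1 : ℤ[X]) ^ #T * ((1 : ℤ[X]) - X) ^ #T := by
    rw [← mul_pow]
    congr 1
    ring
  rw [h4]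
  have h5 : ((-1 : ℤ[X])) ^ #K * (-1 : ℤ[X]) ^ #T = 1 := by
    rw [← pow_add, ← hcard]
    exact hF.neg_one_pow
  generalize (-1 : ℤ[X]) ^ #K = a at h5 ⊢
  generalize (-1 : ℤ[X]) ^ #T = b at h5 ⊢
  generalize (X : ℤ[X]) ^ #K = c
  generalize ((1 : ℤ[X]) - X) ^ #T = d
  calc a * c * (b * d) = (a * b) * (c * d) := by ring
    _ = c * d := by rw [h5, one_mul]

end twoRegular

end Pool.Agent.Work.MP_cd2e96_co
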