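import Pool.Agent.Work.MP_cd2e96_co.Series

/-!
# The random model: labelings and the decomposition of the series
-/

namespace Pool.Agent.Work.MP_cd2e96_co

open Finset PowerSeries

section general

variable {V E : Type} (l r : E → V) [Fintype V] [DecidableEq E] [DecidableEq V]

lemma HH_vanish_deg_one (hl : ∀ f, l f ≠ r f) {F : Finset E} {v : V}
    (h : #{f ∈ F | inc l r f v} = 1) : HH l r F = 0 := by
  rw [card_eq_one] at h
  obtain ⟨e, he⟩ := h
  have hmem : e ∈ F.filter (fun f => inc l r f v) := by rw [he]; simp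
  rw [mem_filter] at hmem
  refine HH_vanish l r hmem.1 ⟨fun w => if w = v then 1 else 0, fun f hf => ?_, ?_⟩
  · rw [dd_indicator l r hl, if_neg]
    intro hinc
    rw [mem_erase] at hf
    have : f ∈ F.filter (fun f => inc l r f v) := mem_filter.2 ⟨hf.2, hinc⟩
    rw [he, mem_singleton] at this
    exact hf.1 this
  · rw [dd_indicator l r hl, if_pos hmem.2]

omit [Fintype V] in
lemma eqv_of_card_two (hl : ∀ f, l f ≠ r f) {F : Finset E} {v : V}
    (h : #{f ∈ F | inc l r f v} = 2) {e e' : E} (he : e ∈ F) (he' : e' ∈ F)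
    (hi : inc l r e v) (hi' : inc l r e' v) : eqv l r F e e' := by
  by_cases hne : e = e'
  · subst hne; exact eqv_refl l r F e
  · refine eqv_of_deg_two l r hl hne hi hi' fun f hf hfi => ?_
    have h1 : ({e, e'} : Finset E) = F.filter (fun f => inc l r f v) := by
      apply eq_of_subset_of_card_le
      · intro x hx
        rw [mem_insert, mem_singleton] at hx
        rcases hx with rfl | rfl
        · exact mem_filter.2 ⟨he, hi⟩
        · exact mem_filter.2 ⟨he', hi'⟩
      · rw [h, card_pair hne]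
    have h2 : f ∈ ({e, e'} : Finset E) := by
      rw [h1]; exact mem_filter.2 ⟨hf, hfi⟩
    rw [mem_insert, mem_singleton] at h2
    exact h2

/-- two-regular sets of edges -/
def TwoReg (F : Finset E) : Prop :=
  ∀ v, #{f ∈ F | inc l r f v} = 0 ∨ #{f ∈ F | inc l r f v} = 2

omit [Fintype V] in
lemma TwoReg.hloc (hl : ∀ f, l f ≠ r f) {F : Finset E} (h : TwoReg l r F) :
    ∀ v, ∀ e ∈ F, ∀ e' ∈ F, inc l r e v → inc l r e' v → eqv l r F e e' := by
  intro v e he e' he' hi hi'
  refine eqv_of_card_two l r hl (v := v) ?_ he he' hi hi'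
  rcases h v with h1 | h1
  · rw [card_eq_zero] at h1
    have : e ∈ F.filter (fun f => inc l r f v) := mem_filter.2 ⟨he, hi⟩
    rw [h1] at this
    simp at this
  · exact h1

omit [Fintype V] [DecidableEq E] in
lemma TwoReg.heven {F : Finset E} (h : TwoReg l r F) : ∀ v, Even #{f ∈ F | inc l r f v} := by
  intro v
  rcases h v with h1 | h1
  · rw [h1]; exact Even.zero
  · rw [h1]; exact even_two

lemma fF_twoReg_nonneg (hl : ∀ f, l f ≠ r f) {F : Finset E} (h : TwoReg l r F) (hF : Even #F)
    (k : ℕ) : 0 ≤ coeff k (fF l r F) := by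
  obtain ⟨T, hT, hrep, hinj⟩ := exists_reps l r F
  rw [fF_two_regular l r hl hT hrep hinj (h.heven l r) (h.hloc l r hl) hF]
  exact coeff_Xg1_pow_nonneg _ _

lemma fF_single (hl : ∀ f, l f ≠ r f) {F : Finset E} (h : TwoReg l r F) (hF : Even #F)
    {e₀ : E} (he₀ : e₀ ∈ F) (hall : ∀ e ∈ F, eqv l r F e e₀) :
    fF l r F = (X * g1) ^ (#F - 1) := by
  have hT : ({e₀} : Finset E) ⊆ F := by simpa using he₀
  rw [fF_two_regular l r hl hT (fun e he => ⟨e₀, mem_singleton_self _, hall e he⟩)
    (fun t ht t' ht' _ => (mem_singleton.1 ht).trans (mem_singleton.1 ht').symm)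
    (h.heven l r) (h.hloc l r hl) hF]
  rw [card_sdiff_of_subset hT, card_singleton]

end general

/-! ### local configurations -/

def isZero (c : Fin 3 → Option (Fin 6)) : Prop := ∀ i, c i = none
def isTwo (g : Fin 6) (c : Fin 3 → Option (Fin 6)) : Prop :=
  #{i | c i = some g} = 2 ∧ #{i | c i = none} = 1
def isThree (c : Fin 3 → Option (Fin 6)) : Prop := ∀ i, c i ≠ none

instance (c : Fin 3 → Option (Fin 6)) : Decidable (isZero c) := by unfold isZero; infer_instance
instance (g : Fin 6) (c : Fin 3 → Option (Fin 6)) : Decidable (isTwo g c) := by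
  unfold isTwo; infer_instance
instance (c : Fin 3 → Option (Fin 6)) : Decidable (isThree c) := by
  unfold isThree; infer_instance

def okLoc (c : Fin 3 → Option (Fin 6)) : Prop := isZero c ∨ (∃ g, isTwo g c) ∨ isThree c

instance (c : Fin 3 → Option (Fin 6)) : Decidable (okLoc c) := by unfold okLoc; infer_instance

lemma okLoc_of : ∀ c : Fin 3 → Option (Fin 6), #{i | c i ≠ none} ≠ 1 →
    (#{i | c i ≠ none} = 2 → ∀ i j, c i ≠ none → c j ≠ none → c i = c j) → okLoc c := by
  decide +kernel

lemma card_isZero : #{c : Fin 3 → Option (Fin 6) | isZero c} = 1 := by decide +kernel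
lemma card_isTwo : ∀ g, #{c : Fin 3 → Option (Fin 6) | isTwo g c} = 3 := by decide +kernel
lemma card_isThree : #{c : Fin 3 → Option (Fin 6) | isThree c} = 216 := by decide +kernel

lemma isTwo_not_zero : ∀ (g : Fin 6) (c : Fin 3 → Option (Fin 6)), isTwo g c → ¬ isZero c := by
  decide +kernel
lemma isTwo_not_three : ∀ (g : Fin 6) (c : Fin 3 → Option (Fin 6)), isTwo g c → ¬ isThree c := by
  decide +kernel
lemma isTwo_unique : ∀ (g g' : Fin 6) (c : Fin 3 → Option (Fin 6)),
    isTwo g c → isTwo g' c → g = g' := by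
  decide +kernel

end Pool.Agent.Work.MP_cd2e96_co
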