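import Mathlib

/-!
# Multigraphs, components, rank, chromatic polynomial
-/

namespace Pool.Agent.Work.MP_cd2e96_co

open Finset Polynomial

variable {V E : Type} (l r : E → V)

/-- vertices modulo the edges of `A` -/
def Cmp (A : Finset E) : Type := Quot (fun x y : V => ∃ f ∈ A, l f = x ∧ r f = y)

/-- number of connected components of `(V, A)` -/
noncomputable def cc (A : Finset E) : ℕ := Nat.card (Cmp l r A)

/-- functions constant along the edges of `A` -/
def constEquiv (A : Finset E) (β : Type) :
    {σ : V → β // ∀ f ∈ A, σ (l f) = σ (r f)} ≃ (Cmp l r A → β) where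
  toFun σ := Quot.lift σ.1 (by rintro x y ⟨f, hf, rfl, rfl⟩; exact σ.2 f hf)
  invFun τ := ⟨fun v => τ (Quot.mk _ v), by
    intro f hf
    have : (Quot.mk (fun x y : V => ∃ f ∈ A, l f = x ∧ r f = y) (l f)) =
      Quot.mk _ (r f) := Quot.sound ⟨f, hf, rfl, rfl⟩
    exact congrArg τ this⟩
  left_inv σ := by
    apply Subtype.ext
    rfl
  right_inv τ := by
    funext c
    induction c using Quot.ind
    rfl

variable [Fintype V]

instance (A : Finset E) : Finite (Cmp l r A) :=
  Finite.of_surjective (Quot.mk _) (Quot.mk_surjective)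

lemma card_const (A : Finset E) (β : Type) [Finite β] :
    Nat.card {σ : V → β // ∀ f ∈ A, σ (l f) = σ (r f)} = Nat.card β ^ cc l r A := by
  rw [Nat.card_congr (constEquiv l r A β), Nat.card_fun, cc]

lemma cc_le (A : Finset E) : cc l r A ≤ Fintype.card V := by
  rw [cc, ← Nat.card_eq_fintype_card]
  exact Nat.card_le_card_of_surjective (Quot.mk _) Quot.mk_surjective

lemma cc_empty : cc l r (∅ : Finset E) = Fintype.card V := by
  rw [cc, ← Nat.card_eq_fintype_card]
  refine (Nat.card_congr (Equiv.ofBijective (Quot.mk _) ⟨?_, Quot.mk_surjective⟩)).symm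
  intro x y h
  have := Quot.eqvGen_exact h
  have key : ∀ x y : V, Relation.EqvGen (fun x y : V => ∃ f ∈ (∅ : Finset E), l f = x ∧ r f = y) x y
      → x = y := by
    intro x y h
    induction h with
    | rel x y h => obtain ⟨f, hf, _⟩ := h; simp at hf
    | refl x => rfl
    | symm x y _ ih => exact ih.symm
    | trans x y z _ _ ih1 ih2 => exact ih1.trans ih2
  exact key x y this

/-- coboundary modulo 2 -/
def dd (S : V → ZMod 2) (f : E) : ZMod 2 := S (l f) + S (r f)

omit [Fintype V] in
lemma dd_eq_zero_iff (S : V → ZMod 2) (f : E) : dd l r S f = 0 ↔ S (l f) = S (r f) := by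
  unfold dd
  generalize S (l f) = a
  generalize S (r f) = b
  revert a b
  decide

omit [Fintype V] in
lemma dd_add (S T : V → ZMod 2) (f : E) : dd l r (S + T) f = dd l r S f + dd l r T f := by
  simp only [dd, Pi.add_apply]; ring

omit [Fintype V] in
lemma dd_zero (f : E) : dd l r (0 : V → ZMod 2) f = 0 := by simp [dd]

/-- the ends of `e` are separated by a cut avoiding `A` -/
def Sep (A : Finset E) (e : E) : Prop :=
  ∃ S : V → ZMod 2, (∀ f ∈ A, dd l r S f = 0) ∧ dd l r S e = 1

omit [Fintype V] in
lemma Sep.mono {A B : Finset E} (h : A ⊆ B) {e : E} (hs : Sep l r B e) : Sep l r A e := by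
  obtain ⟨S, hS, he⟩ := hs
  exact ⟨S, fun f hf => hS f (h hf), he⟩

/-- rank -/
noncomputable def rk (A : Finset E) : ℕ := Fintype.card V - cc l r A

lemma rk_empty : rk l r (∅ : Finset E) = 0 := by simp [rk, cc_empty]

lemma rk_add_cc (A : Finset E) : rk l r A + cc l r A = Fintype.card V :=
  Nat.sub_add_cancel (cc_le l r A)

lemma card_kernel (A : Finset E) :
    Nat.card {S : V → ZMod 2 // ∀ f ∈ A, dd l r S f = 0} = 2 ^ cc l r A := by
  have h := card_const l r A (ZMod 2)
  rw [Nat.card_zmod] at h
  rw [← h]
  refine Nat.card_congr (Equiv.subtypeEquivRight fun S => ?_)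
  simp only [dd_eq_zero_iff]

variable [DecidableEq E]

lemma cc_insert_sep {A : Finset E} {e : E} (h : Sep l r A e) :
    cc l r A = cc l r (insert e A) + 1 := by
  obtain ⟨S₀, hS₀, he⟩ := h
  let φ : {S : V → ZMod 2 // ∀ f ∈ A, dd l r S f = 0} ≃
      {S : V → ZMod 2 // ∀ f ∈ insert e A, dd l r S f = 0} × ZMod 2 :=
    { toFun := fun S => (⟨S.1 + (dd l r S.1 e) • S₀, by
        intro f hf
        rw [mem_insert] at hf
        have key : dd l r (S.1 + (dd l r S.1 e) • S₀) f
            = dd l r S.1 f + dd l r S.1 e * dd l r S₀ f := by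
          simp only [dd, Pi.add_apply, Pi.smul_apply, smul_eq_mul]; ring
        rw [key]
        rcases hf with rfl | hf
        · rw [he, mul_one]
          exact CharTwo.add_self_eq_zero _
        · rw [S.2 f hf, hS₀ f hf, mul_zero, add_zero]⟩, dd l r S.1 e)
      invFun := fun p => ⟨p.1.1 + p.2 • S₀, by
        intro f hf
        have key : dd l r (p.1.1 + p.2 • S₀) f = dd l r p.1.1 f + p.2 * dd l r S₀ f := by
          simp only [dd, Pi.add_apply, Pi.smul_apply, smul_eq_mul]; ring
        rw [key, p.1.2 f (mem_insert_of_mem hf), hS₀ f hf, mul_zero, add_zero]⟩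
      left_inv := by
        intro S
        apply Subtype.ext
        simp only
        rw [add_assoc, ← add_smul, CharTwo.add_self_eq_zero, zero_smul, add_zero]
      right_inv := by
        rintro ⟨⟨S, hS⟩, c⟩
        have key : dd l r (S + c • S₀) e = c := by
          have : dd l r (S + c • S₀) e = dd l r S e + c * dd l r S₀ e := by
            simp only [dd, Pi.add_apply, Pi.smul_apply, smul_eq_mul]; ring
          rw [this, hS e (mem_insert_self _ _), he, zero_add, mul_one]
        apply Prod.ext
        · apply Subtype.ext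
          simp only
          rw [key, add_assoc, ← add_smul, CharTwo.add_self_eq_zero, zero_smul, add_zero]
        · simp only
          exact key }
  have h1 := Nat.card_congr φ
  rw [Nat.card_prod, card_kernel, card_kernel, Nat.card_zmod, ← pow_succ] at h1
  exact Nat.pow_right_injective le_rfl h1

lemma cc_insert_not {A : Finset E} {e : E} (h : ¬ Sep l r A e) :
    cc l r (insert e A) = cc l r A := by
  have h1 : Nat.card {S : V → ZMod 2 // ∀ f ∈ insert e A, dd l r S f = 0}
      = Nat.card {S : V → ZMod 2 // ∀ f ∈ A, dd l r S f = 0} := by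
    refine Nat.card_congr (Equiv.subtypeEquivRight fun S => ?_)
    constructor
    · intro h f hf
      exact h f (mem_insert_of_mem hf)
    · intro hS f hf
      rw [mem_insert] at hf
      rcases hf with rfl | hf
      · by_contra hne
        have : dd l r S f = 1 := by
          generalize dd l r S f = a at hne
          revert a
          decide
        exact h ⟨S, hS, this⟩
      · exact hS f hf
  rw [card_kernel, card_kernel] at h1
  exact Nat.pow_right_injective le_rfl h1

lemma rk_insert_sep {A : Finset E} {e : E} (h : Sep l r A e) :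
    rk l r (insert e A) = rk l r A + 1 := by
  have h1 := cc_insert_sep l r h
  have h2 := rk_add_cc l r A
  have h3 := rk_add_cc l r (insert e A)
  omega

lemma rk_insert_not {A : Finset E} {e : E} (h : ¬ Sep l r A e) :
    rk l r (insert e A) = rk l r A := by
  have h1 := cc_insert_not l r h
  have h2 := rk_add_cc l r A
  have h3 := rk_add_cc l r (insert e A)
  omega

lemma rk_le_insert (A : Finset E) (e : E) : rk l r A ≤ rk l r (insert e A) := by
  by_cases h : Sep l r A e
  · rw [rk_insert_sep l r h]; omega
  · rw [rk_insert_not l r h]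

lemma rk_insert_le (A : Finset E) (e : E) : rk l r (insert e A) ≤ rk l r A + 1 := by
  by_cases h : Sep l r A e
  · rw [rk_insert_sep l r h]
  · rw [rk_insert_not l r h]; omega

lemma rk_union_le (A B : Finset E) : rk l r A ≤ rk l r (A ∪ B) ∧ rk l r (A ∪ B) ≤ rk l r A + #B := by
  induction B using Finset.induction_on with
  | empty => simp
  | insert e B he ih =>
    rw [union_insert, card_insert_of_notMem he]
    have h1 := rk_le_insert l r (A ∪ B) e
    have h2 := rk_insert_le l r (A ∪ B) e
    omega

lemma rk_mono {A B : Finset E} (h : A ⊆ B) : rk l r A ≤ rk l r B := by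
  have := (rk_union_le l r A B).1
  rwa [union_eq_right.2 h] at this

lemma rk_le_add {A B : Finset E} (h : A ⊆ B) : rk l r B ≤ rk l r A + #(B \ A) := by
  have := (rk_union_le l r A (B \ A)).2
  rwa [union_sdiff_of_subset h] at this

/-- singletons which are not loops have rank one -/
lemma rk_pos [DecidableEq V] {A : Finset E} {e : E} (he : e ∈ A) (hl : l e ≠ r e) :
    1 ≤ rk l r A := by
  have h1 : Sep l r (∅ : Finset E) e := by
    refine ⟨fun v => if v = l e then 1 else 0, by simp, ?_⟩
    simp [dd, hl.symm]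
  have h2 := rk_insert_sep l r h1
  rw [rk_empty] at h2
  have h3 : insert e (∅ : Finset E) ⊆ A := by simpa using he
  have := rk_mono l r h3
  omega

/-- the chromatic polynomial of the multigraph -/
noncomputable def chromP [Fintype E] : ℤ[X] :=
  ∑ A ∈ (univ : Finset E).powerset, (-1) ^ #A * X ^ cc l r A

theorem chromP_eval [Fintype E] [DecidableEq V] (q : ℕ) :
    (chromP l r).eval (q : ℤ) = Nat.card {σ : V → Fin q // ∀ f, σ (l f) ≠ σ (r f)} := by
  have h1 : ∀ A : Finset E, ((q : ℤ)) ^ cc l r A
      = ∑ σ : V → Fin q, ∏ f ∈ A, if σ (l f) = σ (r f) then 1 else 0 := by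
    intro A
    have h := card_const l r A (Fin q)
    rw [Nat.card_eq_fintype_card, Nat.card_eq_fintype_card, Fintype.card_fin] at h
    have h2 : ((q : ℤ)) ^ cc l r A = ((q ^ cc l r A : ℕ) : ℤ) := by push_cast; ring
    rw [h2, ← h, Fintype.card_subtype, Finset.card_filter]
    push_cast
    refine Finset.sum_congr rfl fun σ _ => ?_
    by_cases hσ : ∀ f ∈ A, σ (l f) = σ (r f)
    · rw [if_pos hσ]
      symm
      apply Finset.prod_eq_one
      intro f hf
      rw [if_pos (hσ f hf)]
    · rw [if_neg hσ]
      push Not at hσ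
      obtain ⟨f, hf, hne⟩ := hσ
      symm
      apply Finset.prod_eq_zero hf
      rw [if_neg hne]
  rw [chromP, eval_finsetSum]
  simp only [eval_mul, eval_pow, eval_neg, eval_one, eval_X, h1, Finset.mul_sum]
  rw [Finset.sum_comm]
  have h3 : ∀ σ : V → Fin q, ∑ A ∈ (univ : Finset E).powerset,
      (-1 : ℤ) ^ #A * ∏ f ∈ A, (if σ (l f) = σ (r f) then 1 else 0)
      = if ∀ f, σ (l f) ≠ σ (r f) then 1 else 0 := by
    intro σ
    have h4 := Finset.prod_add (fun f : E => -(if σ (l f) = σ (r f) then (1 : ℤ) else 0))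
      (fun _ => 1) (univ : Finset E)
    have h5 : ∀ A ∈ (univ : Finset E).powerset,
        (-1 : ℤ) ^ #A * ∏ f ∈ A, (if σ (l f) = σ (r f) then 1 else 0)
        = (∏ f ∈ A, -(if σ (l f) = σ (r f) then (1 : ℤ) else 0)) * ∏ f ∈ univ \ A, (1 : ℤ) := by
      intro A _
      rw [Finset.prod_const_one, mul_one, Finset.prod_neg]
    rw [Finset.sum_congr rfl h5, ← h4]
    by_cases hσ : ∀ f, σ (l f) ≠ σ (r f)
    · rw [if_pos hσ]
      apply Finset.prod_eq_one
      intro f _
      rw [if_neg (hσ f)]
      ring
    · rw [if_neg hσ]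
      push Not at hσ
      obtain ⟨f, hf⟩ := hσ
      apply Finset.prod_eq_zero (mem_univ f)
      rw [if_pos hf]
      ring
  rw [Finset.sum_congr rfl fun σ _ => h3 σ]
  rw [Nat.card_eq_fintype_card, Fintype.card_subtype, Finset.card_filter]
  push_cast
  rfl

theorem chromP_monic [Fintype E] [DecidableEq V] (hl : ∀ f, l f ≠ r f) :
    (chromP l r).Monic ∧ (chromP l r).natDegree = Fintype.card V := by
  set N := Fintype.card V with hN
  have h0 : (∅ : Finset E) ∈ (univ : Finset E).powerset := by simp
  have h1 : chromP l r = X ^ N + ∑ A ∈ (univ : Finset E).powerset.erase ∅,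
      (-1) ^ #A * X ^ cc l r A := by
    rw [chromP, ← Finset.add_sum_erase _ _ h0]
    congr 1
    rw [card_empty, pow_zero, one_mul, cc_empty]
  have hlt : ∀ A ∈ (univ : Finset E).powerset.erase ∅, cc l r A < N := by
    intro A hA
    rw [mem_erase] at hA
    obtain ⟨e, he⟩ := Finset.nonempty_iff_ne_empty.2 hA.1
    have h2 := rk_pos l r he (hl e)
    have h3 := rk_add_cc l r A
    omega
  by_cases hNpos : N = 0
  · have hemp : (univ : Finset E).powerset.erase ∅ = ∅ := by
      rw [Finset.eq_empty_iff_forall_notMem]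
      intro A hA
      have := hlt A hA
      omega
    rw [h1, hemp, Finset.sum_empty, add_zero]
    exact ⟨monic_X_pow N, natDegree_X_pow N⟩
  have hdeg : (∑ A ∈ (univ : Finset E).powerset.erase ∅,
      ((-1) ^ #A * X ^ cc l r A : ℤ[X])).degree < N := by
    refine lt_of_le_of_lt (Polynomial.degree_sum_le _ _) ?_
    rw [Finset.sup_lt_iff (by exact WithBot.bot_lt_coe N)]
    intro A hA
    refine lt_of_le_of_lt ?_ (Nat.cast_lt.2 (hlt A hA))
    have : ((-1) ^ #A * X ^ cc l r A : ℤ[X]) = C ((-1) ^ #A) * X ^ cc l r A := by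
      rw [map_pow, map_neg, map_one]
    rw [this]
    exact degree_C_mul_X_pow_le _ _
  rw [h1]
  constructor
  · exact monic_X_pow_add hdeg
  · rw [natDegree_add_eq_left_of_degree_lt, natDegree_X_pow]
    rw [degree_X_pow]
    exact hdeg

end Pool.Agent.Work.MP_cd2e96_co
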