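import Pool.Agent.Work.MP_cd2e96_co.Config2

/-!
# Choice of the parameters
-/

namespace Pool.Agent.Work.MP_cd2e96_co

open Filter Topology

lemma frac_pow_le (J N : ℕ) : ((J : ℝ) / (J + 1)) ^ N ≤ Real.exp (-((N : ℝ) / (J + 1))) := by
  have h1 : (J : ℝ) / (J + 1) ≤ Real.exp (-(1 / ((J : ℝ) + 1))) := by
    have h2 := Real.one_sub_le_exp_neg (1 / ((J : ℝ) + 1))
    have h3 : 1 - 1 / ((J : ℝ) + 1) = J / (J + 1) := by field_simp; ring
    rwa [h3] at h2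
  calc ((J : ℝ) / (J + 1)) ^ N ≤ (Real.exp (-(1 / ((J : ℝ) + 1)))) ^ N := by gcongr
    _ = _ := by
      rw [← Real.exp_nat_mul]
      congr 1
      ring

lemma poly_ineq {x : ℝ} (hx : 100 ≤ x) :
    (18 * x ^ 2 * (x ^ 4 + 1) + 3 * x + 1 + x) * (x + 1) ≤ x ^ 8 := by
  have h0 : 0 ≤ x := by linarith
  have h1 : x + 1 ≤ 2 * x := by linarith
  have h2 : 18 * x ^ 2 * (x ^ 4 + 1) + 3 * x + 1 + x ≤ 20 * x ^ 6 := by
    have h3 : x ^ 2 * 10000 ≤ x ^ 6 := by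
      have : (10000 : ℝ) ≤ x ^ 4 := by
        calc (10000 : ℝ) ≤ 100 ^ 4 := by norm_num
          _ ≤ x ^ 4 := by gcongr
      calc x ^ 2 * 10000 ≤ x ^ 2 * x ^ 4 := by gcongr
        _ = x ^ 6 := by ring
    have h4 : x ≤ x ^ 2 := by nlinarith
    nlinarith
  calc (18 * x ^ 2 * (x ^ 4 + 1) + 3 * x + 1 + x) * (x + 1) ≤ (20 * x ^ 6) * (2 * x) := by
        gcongr
    _ = 40 * x ^ 7 := by ring
    _ ≤ x * x ^ 7 := by
        have : 0 ≤ x ^ 7 := by positivity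
        nlinarith
    _ = x ^ 8 := by ring

lemma MM_le {k : ℕ} (hk : 1 ≤ k) : MM k ≤ 2 * Real.exp 14 * 4 ^ 24 * (k : ℝ) ^ 24 := by
  unfold MM
  have h1 : (1 : ℝ) ≤ k := by exact_mod_cast hk
  have h2 : (((3 * k : ℕ) : ℝ) + 1) ≤ 4 * k := by push_cast; linarith
  calc 2 * (Real.exp 7 * (((3 * k : ℕ) : ℝ) + 1) ^ 12) ^ 2
      ≤ 2 * (Real.exp 7 * (4 * k) ^ 12) ^ 2 := by gcongr
    _ = 2 * (Real.exp 7) ^ 2 * 4 ^ 24 * (k : ℝ) ^ 24 := by ring
    _ = 2 * Real.exp 14 * 4 ^ 24 * (k : ℝ) ^ 24 := by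
        rw [← Real.exp_nat_mul]
        norm_num

lemma MM_nonneg (k : ℕ) : 0 ≤ MM k := by unfold MM; positivity

theorem params {θ R : ℝ} (hR1 : 1 ≤ R) (hR3 : R < 3) (hθ : θ = (1 + R / 3) / 2) :
    ∃ J k n : ℕ, 1 ≤ J ∧ 2 ≤ k ∧ 0 < n ∧ 2 * (3 * k) ^ 2 ≤ 3 * n ∧ 360000 * k ^ 3 ≤ n ∧
      4 * k ^ 2 ≤ n ∧ R * ((1 / 3) * (1 + 1 / (J : ℝ))) ≤ θ ∧
      (5 * n : ℝ) * θ ^ (J + 1) / (1 - θ) ≤ 1 ∧
      Real.exp (3 * J * (6 * J * ((J : ℝ) ^ 4 + 1) + 1) + 1) * (J + 1) *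
        ((J : ℝ) / (J + 1)) ^ (k + 1) ≤ 1 ∧
      Real.exp (18 * J ^ 2 * ((J : ℝ) ^ 4 + 1) + 1) * ((J : ℝ) / (J + 1)) ^ k +
        MM k * (360000 * (k : ℝ) ^ 3 / n) + 4 * n * (MM k * Real.exp (-((J : ℝ) ^ 4)))
        < 1 / (12 * (k : ℝ) ^ 2) := by
  have hθ0 : 0 < θ := by rw [hθ]; linarith
  have hθ1 : θ < 1 := by rw [hθ]; linarith
  set C : ℝ := 2 * Real.exp 14 * 4 ^ 24 with hC
  have hC0 : 0 < C := by rw [hC]; positivity
  -- eventual facts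
  have hcast : Tendsto (fun J : ℕ => (J : ℝ)) atTop atTop := tendsto_natCast_atTop_atTop
  have e1 : ∀ᶠ J : ℕ in atTop, 2 * R / (3 - R) ≤ J := hcast.eventually_ge_atTop _
  have e2 : ∀ᶠ J : ℕ in atTop, (J : ℝ) ^ 320 * θ ^ J < (1 - θ) / 5 := by
    have := tendsto_pow_const_mul_const_pow_of_lt_one 320 hθ0.le hθ1
    exact this.eventually_lt_const (by linarith)
  have e3 : ∀ᶠ J : ℕ in atTop, (100 : ℝ) ≤ J := hcast.eventually_ge_atTop _
  have e4 : ∀ᶠ J : ℕ in atTop, (J : ℝ) ^ 16 * Real.exp (-J) < 1 / 36 := by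
    have := (Real.tendsto_pow_mul_exp_neg_atTop_nhds_zero 16).comp hcast
    exact this.eventually_lt_const (by norm_num)
  have e5 : ∀ᶠ J : ℕ in atTop, 36 * (C * 360000) < J := hcast.eventually_gt_atTop _
  have e6 : ∀ᶠ J : ℕ in atTop, (J : ℝ) ^ 528 * Real.exp (-J) < 1 / (36 * (4 * C)) := by
    have := (Real.tendsto_pow_mul_exp_neg_atTop_nhds_zero 528).comp hcast
    exact this.eventually_lt_const (by positivity)
  obtain ⟨J, h1, h2, h3, h4, h5, h6⟩ := (e1.and (e2.and (e3.and (e4.and (e5.and e6))))).exists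
  have hJ1 : (1 : ℝ) ≤ J := by linarith
  have hJ1' : 1 ≤ J := by exact_mod_cast hJ1
  have hJ0 : (0 : ℝ) < J := by linarith
  have hJ2 : 2 ≤ J := by
    have : (2 : ℝ) ≤ J := by linarith
    exact_mod_cast this
  have hk2 : 2 ≤ J ^ 8 := by
    calc 2 ≤ J := hJ2
      _ = J ^ 1 := (pow_one J).symm
      _ ≤ J ^ 8 := Nat.pow_le_pow_right hJ1' (by norm_num)
  have hkJ : (J : ℝ) ≤ ((J ^ 8 : ℕ) : ℝ) := by
    push_cast
    calc (J : ℝ) = J ^ 1 := (pow_one _).symm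
      _ ≤ (J : ℝ) ^ 8 := pow_le_pow_right₀ hJ1 (by norm_num)
  have hpoly := poly_ineq h3
  refine ⟨J, J ^ 8, (J ^ 8) ^ 40, hJ1', hk2, by positivity, ?_, ?_, ?_, ?_, ?_, ?_, ?_⟩
  · generalize J ^ 8 = k at hk2
    have : 2 ^ 38 ≤ k ^ 38 := Nat.pow_le_pow_left hk2 38
    calc 2 * (3 * k) ^ 2 = k ^ 2 * 18 := by ring
      _ ≤ k ^ 2 * k ^ 38 := Nat.mul_le_mul_left _ (le_trans (by norm_num) this)
      _ = k ^ 40 := by ring
      _ ≤ 3 * k ^ 40 := by omega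
  · generalize J ^ 8 = k at hk2
    have : 2 ^ 37 ≤ k ^ 37 := Nat.pow_le_pow_left hk2 37
    calc 360000 * k ^ 3 = k ^ 3 * 360000 := by ring
      _ ≤ k ^ 3 * k ^ 37 := Nat.mul_le_mul_left _ (le_trans (by norm_num) this)
      _ = k ^ 40 := by ring
  · generalize J ^ 8 = k at hk2
    have : 2 ^ 38 ≤ k ^ 38 := Nat.pow_le_pow_left hk2 38
    calc 4 * k ^ 2 = k ^ 2 * 4 := by ring
      _ ≤ k ^ 2 * k ^ 38 := Nat.mul_le_mul_left _ (le_trans (by norm_num) this)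
      _ = k ^ 40 := by ring
  · rw [hθ]
    rw [div_le_iff₀ (by linarith)] at h1
    have h7 : R * ((1 / 3) * (1 + 1 / (J : ℝ))) = R / 3 + R / (3 * J) := by
      field_simp
    rw [h7]
    have h8 : R / (3 * J) ≤ (1 - R / 3) / 2 := by
      rw [div_le_iff₀ (by positivity)]
      nlinarith
    linarith
  · rw [div_le_one (by linarith)]
    push_cast
    have h7 : ((J : ℝ) ^ 8) ^ 40 = (J : ℝ) ^ 320 := by rw [← pow_mul]
    rw [h7]
    calc 5 * (J : ℝ) ^ 320 * θ ^ (J + 1) = 5 * ((J : ℝ) ^ 320 * θ ^ J) * θ := by ring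
      _ ≤ 5 * ((1 - θ) / 5) * 1 := by
          have : (0 : ℝ) ≤ 1 - θ := by linarith
          gcongr
      _ = 1 - θ := by ring
  · have h7 := frac_pow_le J (J ^ 8 + 1)
    have h8 : (J : ℝ) + 1 ≤ Real.exp J := Real.add_one_le_exp _
    calc Real.exp (3 * J * (6 * J * ((J : ℝ) ^ 4 + 1) + 1) + 1) * (J + 1) *
        ((J : ℝ) / (J + 1)) ^ (J ^ 8 + 1)
        ≤ Real.exp (3 * J * (6 * J * ((J : ℝ) ^ 4 + 1) + 1) + 1) * Real.exp J *
          Real.exp (-(((J ^ 8 + 1 : ℕ) : ℝ) / (J + 1))) := by gcongr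
      _ = Real.exp (3 * J * (6 * J * ((J : ℝ) ^ 4 + 1) + 1) + 1 + J +
          (-(((J ^ 8 + 1 : ℕ) : ℝ) / (J + 1)))) := by
          rw [← Real.exp_add, ← Real.exp_add]
      _ ≤ Real.exp 0 := by
          apply Real.exp_le_exp.2
          have h9 : 18 * (J : ℝ) ^ 2 * ((J : ℝ) ^ 4 + 1) + 3 * J + 1 + J ≤
              ((J ^ 8 + 1 : ℕ) : ℝ) / (J + 1) := by
            rw [le_div_iff₀ (by positivity)]
            push_cast
            linarith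
          have h10 : 3 * J * (6 * J * ((J : ℝ) ^ 4 + 1) + 1) + 1 + J
              = 18 * (J : ℝ) ^ 2 * ((J : ℝ) ^ 4 + 1) + 3 * J + 1 + J := by ring
          rw [h10]
          linarith
      _ = 1 := Real.exp_zero
  · set k : ℕ := J ^ 8 with hk
    have hkr : (k : ℝ) = (J : ℝ) ^ 8 := by rw [hk]; push_cast; ring
    have hk0 : (0 : ℝ) < k := by rw [hkr]; positivity
    have hk1 : 1 ≤ k := by omega
    have hMM := MM_le hk1
    rw [← hC] at hMM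
    have hMM0 := MM_nonneg k
    -- T1
    have t1 : Real.exp (18 * J ^ 2 * ((J : ℝ) ^ 4 + 1) + 1) * ((J : ℝ) / (J + 1)) ^ k
        < 1 / (36 * (k : ℝ) ^ 2) := by
      have h7 := frac_pow_le J k
      have h11 : Real.exp (18 * J ^ 2 * ((J : ℝ) ^ 4 + 1) + 1) * ((J : ℝ) / (J + 1)) ^ k
          ≤ Real.exp (-J) := by
        calc _ ≤ Real.exp (18 * J ^ 2 * ((J : ℝ) ^ 4 + 1) + 1) *
              Real.exp (-((k : ℝ) / (J + 1))) := by gcongr
          _ = Real.exp (18 * J ^ 2 * ((J : ℝ) ^ 4 + 1) + 1 + (-((k : ℝ) / (J + 1)))) := by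
              rw [← Real.exp_add]
          _ ≤ Real.exp (-J) := by
              apply Real.exp_le_exp.2
              have h9 : 18 * (J : ℝ) ^ 2 * ((J : ℝ) ^ 4 + 1) + 3 * J + 1 + J ≤
                  (k : ℝ) / (J + 1) := by
                rw [le_div_iff₀ (by positivity), hkr]
                linarith
              linarith
      refine lt_of_le_of_lt h11 ?_
      rw [lt_div_iff₀ (by positivity), hkr]
      have h12 : ((J : ℝ) ^ 8) ^ 2 = (J : ℝ) ^ 16 := by rw [← pow_mul]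
      rw [h12]
      linarith
    -- T2
    have t2 : MM k * (360000 * (k : ℝ) ^ 3 / ((k ^ 40 : ℕ) : ℝ)) < 1 / (36 * (k : ℝ) ^ 2) := by
      rw [lt_div_iff₀ (by positivity)]
      have h13 : 36 * (C * 360000) < (k : ℝ) ^ 11 := by
        calc 36 * (C * 360000) < J := h5
          _ ≤ k := hkJ
          _ = (k : ℝ) ^ 1 := (pow_one _).symm
          _ ≤ (k : ℝ) ^ 11 := pow_le_pow_right₀ (by exact_mod_cast hk1) (by norm_num)
      calc MM k * (360000 * (k : ℝ) ^ 3 / ((k ^ 40 : ℕ) : ℝ)) * (36 * (k : ℝ) ^ 2)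
          ≤ (C * (k : ℝ) ^ 24) * (360000 * (k : ℝ) ^ 3 / ((k ^ 40 : ℕ) : ℝ)) *
            (36 * (k : ℝ) ^ 2) := by gcongr
        _ = 36 * (C * 360000) / (k : ℝ) ^ 11 := by
            push_cast
            field_simp
        _ < 1 := by
            rw [div_lt_one (by positivity)]
            exact h13
    -- T3
    have t3 : 4 * ((k ^ 40 : ℕ) : ℝ) * (MM k * Real.exp (-((J : ℝ) ^ 4)))
        < 1 / (36 * (k : ℝ) ^ 2) := by
      rw [lt_div_iff₀ (by positivity)]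
      have h14 : Real.exp (-((J : ℝ) ^ 4)) ≤ Real.exp (-J) := by
        apply Real.exp_le_exp.2
        have : (J : ℝ) ≤ (J : ℝ) ^ 4 := by
          calc (J : ℝ) = J ^ 1 := (pow_one _).symm
            _ ≤ (J : ℝ) ^ 4 := pow_le_pow_right₀ hJ1 (by norm_num)
        linarith
      calc 4 * ((k ^ 40 : ℕ) : ℝ) * (MM k * Real.exp (-((J : ℝ) ^ 4))) * (36 * (k : ℝ) ^ 2)
          ≤ 4 * ((k ^ 40 : ℕ) : ℝ) * ((C * (k : ℝ) ^ 24) * Real.exp (-J)) *
            (36 * (k : ℝ) ^ 2) := by gcongr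
        _ = (36 * (4 * C)) * ((J : ℝ) ^ 528 * Real.exp (-J)) := by
            push_cast
            rw [hkr]
            ring
        _ < (36 * (4 * C)) * (1 / (36 * (4 * C))) := by gcongr
        _ = 1 := by field_simp
    have h15 : 1 / (12 * (k : ℝ) ^ 2) = 1 / (36 * (k : ℝ) ^ 2) + 1 / (36 * (k : ℝ) ^ 2)
        + 1 / (36 * (k : ℝ) ^ 2) := by
      field_simp
      norm_num
    rw [h15]
    linarith

end Pool.Agent.Work.MP_cd2e96_co
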