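import Pool.Agent.Work.MP_cd2e96_co.HF

/-!
# The power series `Z` and its truncated norm
-/

namespace Pool.Agent.Work.MP_cd2e96_co

open Finset PowerSeries

/-- truncated norm on the scale `3` -/
noncomputable def tn (k : ℕ) (f : ℤ⟦X⟧) : ℝ :=
  ∑ i ∈ range (k + 1), |((coeff i f : ℤ) : ℝ)| * (1 / 3) ^ i

lemma tn_nonneg (k : ℕ) (f : ℤ⟦X⟧) : 0 ≤ tn k f :=
  Finset.sum_nonneg fun i _ => by positivity

lemma abs_coeff_le_tn (k : ℕ) (f : ℤ⟦X⟧) : |((coeff k f : ℤ) : ℝ)| * (1 / 3) ^ k ≤ tn k f := by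
  unfold tn
  refine Finset.single_le_sum (f := fun i => |((coeff i f : ℤ) : ℝ)| * (1 / 3) ^ i)
    (fun i _ => by positivity) ?_
  simp

lemma tn_add (k : ℕ) (f g : ℤ⟦X⟧) : tn k (f + g) ≤ tn k f + tn k g := by
  unfold tn
  rw [← Finset.sum_add_distrib]
  refine Finset.sum_le_sum fun i _ => ?_
  rw [map_add, Int.cast_add, ← add_mul]
  gcongr
  exact abs_add_le _ _

lemma tn_zero (k : ℕ) : tn k 0 = 0 := by simp [tn]

lemma tn_sum {ι : Type*} (k : ℕ) (s : Finset ι) (f : ι → ℤ⟦X⟧) :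
    tn k (∑ j ∈ s, f j) ≤ ∑ j ∈ s, tn k (f j) := by
  classical
  induction s using Finset.induction_on with
  | empty => simp [tn_zero]
  | insert a s ha ih =>
    rw [sum_insert ha, sum_insert ha]
    exact (tn_add _ _ _).trans (by gcongr)

lemma tn_mul (k : ℕ) (f g : ℤ⟦X⟧) : tn k (f * g) ≤ tn k f * tn k g := by
  unfold tn
  have h1 : ∀ i ∈ range (k + 1), |((coeff i (f * g) : ℤ) : ℝ)| * (1 / 3) ^ i ≤
      ∑ p ∈ antidiagonal i, (|((coeff p.1 f : ℤ) : ℝ)| * (1 / 3) ^ p.1) *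
        (|((coeff p.2 g : ℤ) : ℝ)| * (1 / 3) ^ p.2) := by
    intro i _
    rw [coeff_mul, Int.cast_sum]
    calc _ ≤ (∑ p ∈ antidiagonal i, |((coeff p.1 f * coeff p.2 g : ℤ) : ℝ)|) * (1 / 3) ^ i := by
          gcongr
          exact Finset.abs_sum_le_sum_abs _ _
      _ = _ := by
          rw [Finset.sum_mul]
          refine Finset.sum_congr rfl fun p hp => ?_
          rw [HasAntidiagonal.mem_antidiagonal] at hp
          rw [Int.cast_mul, abs_mul, ← hp, pow_add]
          ring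
  refine (Finset.sum_le_sum h1).trans ?_
  rw [Finset.sum_mul_sum, ← Finset.sum_product', Finset.sum_sigma']
  have h2 : ∑ x ∈ (range (k + 1)).sigma (fun i => antidiagonal i),
      (|((coeff x.2.1 f : ℤ) : ℝ)| * (1 / 3) ^ x.2.1) *
        (|((coeff x.2.2 g : ℤ) : ℝ)| * (1 / 3) ^ x.2.2)
      = ∑ p ∈ ((range (k + 1)).sigma (fun i => antidiagonal i)).image (fun x => x.2),
      (|((coeff p.1 f : ℤ) : ℝ)| * (1 / 3) ^ p.1) *
        (|((coeff p.2 g : ℤ) : ℝ)| * (1 / 3) ^ p.2) := by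
    rw [Finset.sum_image]
    rintro ⟨i, p⟩ hx ⟨j, q⟩ hy h
    simp only [coe_sigma, Set.mem_sigma_iff, mem_coe, HasAntidiagonal.mem_antidiagonal] at hx hy h
    subst h
    have : i = j := hx.2.symm.trans hy.2
    subst this
    rfl
  rw [h2]
  refine Finset.sum_le_sum_of_subset_of_nonneg ?_ (fun p _ _ => by positivity)
  intro p hp
  simp only [mem_image, mem_sigma, mem_range, HasAntidiagonal.mem_antidiagonal] at hp
  obtain ⟨⟨i, q⟩, ⟨h3, h4⟩, rfl⟩ := hp
  simp only [mem_product, mem_range]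
  simp only at h3 h4
  omega

lemma tn_neg_one_pow_mul (k a : ℕ) (f : ℤ⟦X⟧) : tn k ((-1) ^ a * f) = tn k f := by
  rcases neg_one_pow_eq_or ℤ⟦X⟧ a with h | h
  · rw [h, one_mul]
  · rw [h, neg_one_mul]
    unfold tn
    refine Finset.sum_congr rfl fun i _ => ?_
    rw [map_neg, Int.cast_neg, abs_neg]

lemma tn_X_pow (k b : ℕ) : tn k (X ^ b) ≤ (1 / 3) ^ b := by
  unfold tn
  have h1 : ∀ i ∈ range (k + 1), |((coeff i (X ^ b : ℤ⟦X⟧) : ℤ) : ℝ)| * (1 / 3) ^ i
      = if i = b then (1 / 3 : ℝ) ^ b else 0 := by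
    intro i _
    rw [coeff_X_pow]
    split_ifs with h
    · subst h; simp
    · simp
  rw [Finset.sum_congr rfl h1, Finset.sum_ite_eq']
  split_ifs
  · exact le_rfl
  · positivity

lemma tn_X_pow_eq_zero {k b : ℕ} (h : k < b) : tn k (X ^ b) = 0 := by
  unfold tn
  refine Finset.sum_eq_zero fun i hi => ?_
  rw [mem_range] at hi
  rw [coeff_X_pow, if_neg (by omega)]
  simp

/-- the geometric series -/
noncomputable def g1 : ℤ⟦X⟧ := PowerSeries.mk 1

lemma g1_mul : g1 * (1 - X) = 1 := mk_one_mul_one_sub_eq_one ℤ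

lemma tn_g1 (k : ℕ) : tn k g1 ≤ 3 / 2 := by
  unfold tn g1
  have h1 : ∀ i ∈ range (k + 1), |((coeff i (PowerSeries.mk 1 : ℤ⟦X⟧) : ℤ) : ℝ)| * (1 / 3) ^ i
      = (1 / 3 : ℝ) ^ i := by
    intro i _
    rw [coeff_mk]
    simp
  rw [Finset.sum_congr rfl h1, geom_sum_eq (by norm_num)]
  have : (0 : ℝ) < (1 / 3) ^ (k + 1) := by positivity
  have h2 : ((1 / 3 : ℝ) ^ (k + 1) - 1) / (1 / 3 - 1) = 3 / 2 * (1 - (1 / 3) ^ (k + 1)) := by
    ring
  rw [h2]
  linarith

lemma tn_one (k : ℕ) : tn k 1 ≤ 1 := by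
  have := tn_X_pow k 0
  simpa using this

lemma tn_g1_pow (k m : ℕ) : tn k (g1 ^ m) ≤ (3 / 2) ^ m := by
  induction m with
  | zero => simpa using tn_one k
  | succ m ih =>
    rw [pow_succ, pow_succ]
    refine (tn_mul _ _ _).trans ?_
    exact mul_le_mul ih (tn_g1 k) (tn_nonneg _ _) (by positivity)

lemma coeff_Xg1_pow_succ (K k : ℕ) : coeff k ((X * g1) ^ (K + 1)) =
    if K + 1 ≤ k then (((k - 1).choose K : ℕ) : ℤ) else 0 := by
  rw [mul_pow, coeff_X_pow_mul', g1, mk_one_pow_eq_mk_choose_add]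
  split_ifs with h
  · rw [coeff_mk]
    congr 2
    omega
  · rfl

lemma coeff_Xg1_pow_nonneg (K k : ℕ) : 0 ≤ coeff k ((X * g1) ^ K) := by
  rcases K with _ | K
  · rw [pow_zero, coeff_one]
    split_ifs <;> norm_num
  · rw [coeff_Xg1_pow_succ]
    split_ifs
    · positivity
    · exact le_rfl

section general

variable {V E : Type} (l r : E → V) [Fintype V] [DecidableEq E]

/-- the summand -/
noncomputable def fF (F : Finset E) : ℤ⟦X⟧ := (HH l r F : ℤ⟦X⟧) * g1 ^ #F

/-- reversed chromatic polynomial -/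
noncomputable def Rev [Fintype E] : Polynomial ℤ :=
  ∑ A ∈ (univ : Finset E).powerset, (-1) ^ #A * Polynomial.X ^ rk l r A

/-- the normalised series -/
noncomputable def ZZ [Fintype E] : ℤ⟦X⟧ := (Rev l r : ℤ⟦X⟧) * g1 ^ Fintype.card E

lemma Rev_eq [Fintype E] : Rev l r = ∑ F ∈ (univ : Finset E).powerset,
    HH l r F * (1 - Polynomial.X) ^ (Fintype.card E - #F) := by
  unfold HH
  simp only [Finset.sum_mul]
  rw [Finset.sum_comm' (s' := fun B => (univ : Finset E).powerset.filter (B ⊆ ·))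
    (t' := (univ : Finset E).powerset)]
  · unfold Rev
    refine Finset.sum_congr rfl fun B _ => ?_
    have h1 : ∑ F ∈ (univ : Finset E).powerset with B ⊆ F,
        trm l r F B * (1 - Polynomial.X) ^ (Fintype.card E - #F)
        = ∑ C ∈ (univ \ B).powerset, ((-1) ^ #B * Polynomial.X ^ rk l r B) *
          (Polynomial.X ^ #C * (1 - Polynomial.X) ^ (#(univ \ B) - #C)) := by
      refine Finset.sum_bij' (fun F _ => F \ B) (fun C _ => B ∪ C) ?_ ?_ ?_ ?_ ?_
      · intro F _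
        rw [mem_powerset]
        exact sdiff_subset_sdiff (subset_univ F) Subset.rfl
      · intro C _
        rw [mem_filter]
        exact ⟨by simp, subset_union_left⟩
      · intro F hF
        rw [mem_filter] at hF
        exact union_sdiff_of_subset hF.2
      · intro C hC
        rw [mem_powerset] at hC
        ext x
        simp only [mem_sdiff, mem_union]
        constructor
        · rintro ⟨h1 | h1, h2⟩
          · exact absurd h1 h2
          · exact h1
        · intro h1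
          exact ⟨Or.inr h1, (mem_sdiff.1 (hC h1)).2⟩
      · intro F hF
        rw [mem_filter] at hF
        have h2 : #(univ \ B) - #(F \ B) = Fintype.card E - #F := by
          rw [card_sdiff_of_subset (subset_univ B), card_sdiff_of_subset hF.2, card_univ]
          have h3 := card_le_card hF.2
          have h4 : #F ≤ Fintype.card E := card_le_univ F
          omega
        rw [h2, trm, pow_add]
        ring
    rw [h1, ← Finset.mul_sum, Finset.sum_pow_mul_eq_add_pow]
    have h3 : (Polynomial.X : Polynomial ℤ) + (1 - Polynomial.X) = 1 := by ring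
    rw [h3, one_pow, mul_one]
  · intro F B
    simp only [mem_powerset, mem_filter, subset_univ, true_and, and_true]

lemma ZZ_eq [Fintype E] : ZZ l r = ∑ F ∈ (univ : Finset E).powerset, fF l r F := by
  unfold ZZ fF
  rw [Rev_eq]
  rw [← Polynomial.coeToPowerSeries.ringHom_apply, map_sum, Finset.sum_mul]
  refine Finset.sum_congr rfl fun F _ => ?_
  rw [map_mul, map_pow, map_sub, map_one]
  simp only [Polynomial.coeToPowerSeries.ringHom_apply, Polynomial.coe_X]
  have h1 : #F ≤ Fintype.card E := card_le_univ F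
  obtain ⟨m, hm⟩ := Nat.exists_eq_add_of_le h1
  have h2 : Fintype.card E - #F = m := by omega
  rw [h2, hm, pow_add]
  have h3 : (1 - (X : ℤ⟦X⟧)) ^ m * g1 ^ m = 1 := by
    rw [← mul_pow, mul_comm, g1_mul, one_pow]
  calc _ = ((1 - (X : ℤ⟦X⟧)) ^ m * g1 ^ m) * ((HH l r F : ℤ⟦X⟧) * g1 ^ #F) := by ring
    _ = _ := by rw [h3, one_mul]

lemma coe_trm (F B : Finset E) : ((trm l r F B : Polynomial ℤ) : ℤ⟦X⟧)
    = (-1) ^ #B * X ^ (#(F \ B) + rk l r B) := by
  unfold trm
  rw [← Polynomial.coeToPowerSeries.ringHom_apply, map_mul, map_pow, map_pow, map_neg, map_one]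
  simp only [Polynomial.coeToPowerSeries.ringHom_apply, Polynomial.coe_X]

lemma coe_sum {ι : Type*} (s : Finset ι) (f : ι → Polynomial ℤ) :
    ((∑ j ∈ s, f j : Polynomial ℤ) : ℤ⟦X⟧) = ∑ j ∈ s, (f j : ℤ⟦X⟧) := by
  rw [← Polynomial.coeToPowerSeries.ringHom_apply, map_sum]
  rfl

/-- the basic estimate -/
lemma tn_fF_le (k : ℕ) {F T : Finset E} (hT : T ⊆ F)
    (hrep : ∀ e ∈ F, ∃ t ∈ T, eqv l r F e t) :
    tn k (fF l r F) ≤ (1 / 2) ^ #F * 6 ^ #T := by
  have hKF : F \ T ⊆ F := sdiff_subset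
  have hpart := partner_of_reps l r hrep hT
  have hrk := card_le_rk l r hKF hpart
  have hcard : #F = #(F \ T) + #T := by
    rw [card_sdiff_of_subset hT]
    have := card_le_card hT
    omega
  unfold fF
  rw [HH_reduce l r hKF hpart, HK]
  refine (tn_mul _ _ _).trans ?_
  have h1 : tn k ((∑ B ∈ F.powerset with F \ T ⊆ B, trm l r F B : Polynomial ℤ) : ℤ⟦X⟧)
      ≤ 2 ^ #T * (1 / 3) ^ #(F \ T) := by
    rw [coe_sum]
    refine (tn_sum _ _ _).trans ?_
    have h2 : ∀ B ∈ F.powerset.filter (F \ T ⊆ ·), tn k ((trm l r F B : Polynomial ℤ) : ℤ⟦X⟧)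
        ≤ (1 / 3) ^ #(F \ T) := by
      intro B hB
      rw [mem_filter] at hB
      rw [coe_trm, tn_neg_one_pow_mul]
      refine (tn_X_pow _ _).trans ?_
      apply pow_le_pow_of_le_one (by norm_num) (by norm_num)
      have := rk_mono l r hB.2
      omega
    refine (Finset.sum_le_card_nsmul _ _ _ h2).trans ?_
    rw [← Finset.Icc_eq_filter_powerset, Finset.card_Icc_finset hKF, nsmul_eq_mul]
    have h3 : #F - #(F \ T) = #T := by omega
    rw [h3]
    push_cast
    exact le_rfl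
  refine (mul_le_mul h1 (tn_g1_pow k #F) (tn_nonneg _ _) (by positivity)).trans (le_of_eq ?_)
  rw [hcard]
  rw [show (6 : ℝ) = 2 * 3 by norm_num, mul_pow]
  have h4 : ((1 : ℝ) / 3) ^ #(F \ T) * 3 ^ #(F \ T) = 1 := by
    rw [← mul_pow]; norm_num
  have h5 : ((3 : ℝ) / 2) ^ (#(F \ T) + #T) = (3 ^ #(F \ T) * 3 ^ #T) *
      (1 / 2) ^ (#(F \ T) + #T) := by
    rw [← pow_add, ← mul_pow]; norm_num
  rw [h5]
  calc _ = ((1 : ℝ) / 3) ^ #(F \ T) * 3 ^ #(F \ T) *
        ((1 / 2) ^ (#(F \ T) + #T) * (2 ^ #T * 3 ^ #T)) := by ring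
    _ = _ := by rw [h4, one_mul]

lemma fF_tn_zero {k : ℕ} {F : Finset E} (h : k < rk l r F) : tn k (fF l r F) = 0 := by
  refine le_antisymm ?_ (tn_nonneg _ _)
  unfold fF
  refine (tn_mul _ _ _).trans ?_
  have h1 : tn k ((HH l r F : Polynomial ℤ) : ℤ⟦X⟧) ≤ 0 := by
    rw [HH, coe_sum]
    refine (tn_sum _ _ _).trans ?_
    refine le_of_eq (Finset.sum_eq_zero fun B hB => ?_)
    rw [mem_powerset] at hB
    rw [coe_trm, tn_neg_one_pow_mul]
    apply tn_X_pow_eq_zero
    have := rk_le_add l r hB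
    omega
  have h2 := tn_nonneg k ((HH l r F : Polynomial ℤ) : ℤ⟦X⟧)
  have h3 : tn k ((HH l r F : Polynomial ℤ) : ℤ⟦X⟧) = 0 := le_antisymm h1 h2
  rw [h3, zero_mul]

lemma card_image_le_rk [DecidableEq V] (hb : ∀ e f, l e ≠ r f) (F : Finset E) :
    #(F.image l) ≤ rk l r F := by
  obtain ⟨F', hF', hinj, himg⟩ := Finset.exists_subset_injOn_image_eq_of_surjOn (f := l)
    (F : Set E) (F.image l) (by
      intro x hx
      rw [mem_coe, mem_image] at hx
      obtain ⟨e, he, rfl⟩ := hx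
      exact ⟨e, he, rfl⟩)
  have hF'' : F' ⊆ F := by exact_mod_cast hF'
  rw [← himg, card_image_of_injOn hinj]
  refine le_trans ?_ (rk_mono l r hF'')
  have key : ∀ A : Finset E, A ⊆ F' → #A ≤ rk l r A := by
    intro A
    induction A using Finset.induction_on with
    | empty => intro _; simp
    | insert e A he ih =>
      intro hsub
      have hs : Sep l r A e := by
        refine ⟨fun v => if v = l e then 1 else 0, fun f hf => ?_, ?_⟩
        · have hne : l f ≠ l e := by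
            intro h
            have := hinj (hsub (mem_insert_of_mem hf)) (hsub (mem_insert_self e A)) h
            exact he (this ▸ hf)
          have hne' : r f ≠ l e := fun h => hb e f h.symm
          simp only [dd, if_neg hne, if_neg hne', add_zero]
        · have hne' : r e ≠ l e := fun h => hb e e h.symm
          simp only [dd, if_true, if_neg hne', add_zero]
      rw [card_insert_of_notMem he, rk_insert_sep l r hs]
      have := ih ((subset_insert e A).trans hsub)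
      omega
  exact key F' Subset.rfl

lemma fF_two_regular [DecidableEq V] (hl : ∀ f, l f ≠ r f) {F T : Finset E} (hT : T ⊆ F)
    (hrep : ∀ e ∈ F, ∃ t ∈ T, eqv l r F e t)
    (hinj : ∀ t ∈ T, ∀ t' ∈ T, eqv l r F t t' → t = t')
    (heven : ∀ v, Even #{f ∈ F | inc l r f v})
    (hloc : ∀ v, ∀ e ∈ F, ∀ e' ∈ F, inc l r e v → inc l r e' v → eqv l r F e e')
    (hF : Even #F) : fF l r F = (X * g1) ^ #(F \ T) := by
  unfold fF
  rw [HH_two_regular l r hl hT hrep hinj heven hloc hF]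
  rw [← Polynomial.coeToPowerSeries.ringHom_apply, map_mul, map_pow, map_pow, map_sub, map_one]
  simp only [Polynomial.coeToPowerSeries.ringHom_apply, Polynomial.coe_X]
  have hcard : #F = #(F \ T) + #T := by
    rw [card_sdiff_of_subset hT]
    have := card_le_card hT
    omega
  rw [hcard, pow_add, mul_pow]
  have h3 : (1 - (X : ℤ⟦X⟧)) ^ #T * g1 ^ #T = 1 := by
    rw [← mul_pow, mul_comm, g1_mul, one_pow]
  calc _ = ((1 - (X : ℤ⟦X⟧)) ^ #T * g1 ^ #T) * (X ^ #(F \ T) * g1 ^ #(F \ T)) := by ring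
    _ = _ := by rw [h3, one_mul]

end general

end Pool.Agent.Work.MP_cd2e96_co
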