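import Pool.Agent.Work.MP_cd2e96_co.Defs
import Pool.Agent.Work.MP_cd2e96_co.Multigraph

/-!
# The chromatic polynomial of a simple graph
-/

namespace Pool.Agent.Work.MP_cd2e96_co

open Polynomial Finset

/-- colourings as functions -/
def colEquiv {V : Type} (G : SimpleGraph V) (α : Type) :
    G.Coloring α ≃ {σ : V → α // ∀ u v, G.Adj u v → σ u ≠ σ v} where
  toFun c := ⟨c, fun _ _ h => c.valid h⟩
  invFun σ := SimpleGraph.Coloring.mk σ.1 fun h => σ.2 _ _ h
  left_inv c := by
    ext v
    rfl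
  right_inv σ := by
    apply Subtype.ext
    rfl

lemma exists_chromatic {V : Type} [Fintype V] (G : SimpleGraph V) : ∃ p : ℤ[X],
    (∀ l : ℕ, p.eval (l : ℤ) = (Nat.card (G.Coloring (Fin l)) : ℤ)) ∧ p.Monic ∧
      p.natDegree = Fintype.card V := by
  classical
  let l : G.edgeSet → V := fun e => (Quot.out e.1).1
  let r : G.edgeSet → V := fun e => (Quot.out e.1).2
  have hE : ∀ e : G.edgeSet, s(l e, r e) = e.1 := fun e => Quot.out_eq e.1
  have hadj : ∀ e : G.edgeSet, G.Adj (l e) (r e) := fun e => by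
    rw [← SimpleGraph.mem_edgeSet, hE]
    exact e.2
  refine ⟨chromP l r, fun q => ?_, chromP_monic l r (fun e => (hadj e).ne)⟩
  rw [chromP_eval]
  congr 1
  rw [Nat.card_congr (colEquiv G (Fin q))]
  refine Nat.card_congr (Equiv.subtypeEquivRight fun σ => ?_)
  constructor
  · intro h u v huv
    have h1 := hE ⟨s(u, v), huv⟩
    have h2 := h ⟨s(u, v), huv⟩
    simp only [Sym2.eq_iff] at h1
    rcases h1 with ⟨h3, h4⟩ | ⟨h3, h4⟩
    · rw [h3, h4] at h2
      exact h2
    · rw [h3, h4] at h2
      exact h2.symm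
  · intro h e
    exact h _ _ (hadj e)

lemma chromatic_unique {V : Type} {G : SimpleGraph V} {p p' : ℤ[X]}
    (h : IsChromaticPolynomial G p) (h' : IsChromaticPolynomial G p') : p = p' := by
  apply Polynomial.eq_of_infinite_eval_eq
  refine Set.Infinite.mono (s := Set.range fun k : ℕ => ((k + 1 : ℕ) : ℤ)) ?_ ?_
  · rintro _ ⟨k, rfl⟩
    change p.eval _ = p'.eval _
    rw [h (k + 1) (Nat.succ_pos k), h' (k + 1) (Nat.succ_pos k)]
  · apply Set.infinite_range_of_injective
    intro a b hab
    simpa using hab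

/-- polynomial identities can be checked at positive integers -/
lemma poly_ext_pos {p q : ℤ[X]} (h : ∀ k : ℕ, 0 < k → p.eval (k : ℤ) = q.eval (k : ℤ)) :
    p = q := by
  apply Polynomial.eq_of_infinite_eval_eq
  refine Set.Infinite.mono (s := Set.range fun k : ℕ => ((k + 1 : ℕ) : ℤ)) ?_ ?_
  · rintro _ ⟨k, rfl⟩
    exact h (k + 1) (Nat.succ_pos k)
  · apply Set.infinite_range_of_injective
    intro a b hab
    simpa using hab

lemma IsChromaticPolynomial.iso {V W : Type} {G : SimpleGraph V} {H : SimpleGraph W}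
    (e : G ≃g H) {p : ℤ[X]} (h : IsChromaticPolynomial G p) : IsChromaticPolynomial H p := by
  intro l hl
  rw [h l hl]
  congr 1
  refine Nat.card_congr ?_
  exact
    { toFun := fun c => SimpleGraph.Coloring.mk (fun w => c (e.symm w)) fun {u v} huv =>
        c.valid (e.symm.map_adj_iff.2 huv)
      invFun := fun c => SimpleGraph.Coloring.mk (fun v => c (e v)) fun {u v} huv =>
        c.valid (e.map_adj_iff.2 huv)
      left_inv := fun c => by
        ext v
        simp [SimpleGraph.Coloring.mk]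
      right_inv := fun c => by
        ext v
        simp [SimpleGraph.Coloring.mk] }

lemma IsChromaticRoot.iso {V W : Type} {G : SimpleGraph V} {H : SimpleGraph W}
    (e : G ≃g H) {z : ℂ} (h : IsChromaticRoot G z) : IsChromaticRoot H z := by
  obtain ⟨p, hp, hz⟩ := h
  exact ⟨p, hp.iso e, hz⟩

lemma chromaticModuli_finite {V : Type} [Finite V] (G : SimpleGraph V) :
    (chromaticModuli G).Finite := by
  cases nonempty_fintype V
  obtain ⟨p, hp, hmon, _⟩ := exists_chromatic G
  have hp0 : p.map (Int.castRingHom ℂ) ≠ 0 := (hmon.map _).ne_zero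
  have hsub : chromaticModuli G ⊆
      (fun z : ℂ => ‖z‖) '' ((p.map (Int.castRingHom ℂ)).roots.toFinset : Set ℂ) := by
    rintro r ⟨z, ⟨q, hq, hz⟩, rfl⟩
    have hpq : q = p := chromatic_unique hq fun l _ => hp l
    subst hpq
    refine ⟨z, ?_, rfl⟩
    rw [mem_coe, Multiset.mem_toFinset, mem_roots hp0, IsRoot.def, eval_map]
    rw [aeval_def] at hz
    exact hz
  exact (Set.Finite.image _ (Finset.finite_toSet _)).subset hsub

lemma chromaticModuli_nonempty {V : Type} [Finite V] [Nonempty V] (G : SimpleGraph V) :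
    (chromaticModuli G).Nonempty := by
  cases nonempty_fintype V
  obtain ⟨p, hp, hmon, hdeg⟩ := exists_chromatic G
  have h1 : (p.map (Int.castRingHom ℂ)).degree ≠ 0 := by
    rw [hmon.degree_map, degree_eq_natDegree hmon.ne_zero, hdeg]
    exact_mod_cast Fintype.card_ne_zero
  obtain ⟨z, hz⟩ := IsAlgClosed.exists_root _ h1
  refine ⟨‖z‖, z, ⟨p, fun l _ => hp l, ?_⟩, rfl⟩
  rw [IsRoot.def, eval_map] at hz
  rw [aeval_def]
  exact hz

/-- `ρ(G)` is attained. -/
lemma rho_isGreatest {V : Type} [Finite V] [Nonempty V] (G : SimpleGraph V) :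
    IsGreatest (chromaticModuli G) (rho G) := by
  have h1 := chromaticModuli_finite G
  have h2 := chromaticModuli_nonempty G
  exact ⟨h2.csSup_mem h1, fun r hr => le_csSup h1.bddAbove hr⟩

lemma le_rho {V : Type} [Finite V] {G : SimpleGraph V} {z : ℂ} (h : IsChromaticRoot G z) :
    ‖z‖ ≤ rho G :=
  le_csSup (chromaticModuli_finite G).bddAbove ⟨z, h, rfl⟩

end Pool.Agent.Work.MP_cd2e96_co
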